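import Pool.Agent.Helper67.SDet.Red

/-!
# Functions of determinants: the mixed derivative of a polynomial in determinants

Let `P` be a polynomial in `r` variables and let `A i` be affine matrices over `K[x, y]`, with values
`L i` at `y = 0`. The coefficient of `y_1 ... y_D` of `P (det A_1, ..., det A_r)`, at `y = 0`, lies in
the sum of the spaces `h_s * Minors (B_s)` where `h_s` and the block diagonal matrices `B_s` of size
`D * m` depend on `P` and on the `L i` only.
-/

set_option autoImplicit false

namespace Pool.FD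

open Finset Matrix MvPolynomial Pool.SDL Pool.Agent.SDet

variable {K : Type} [Field K] {τ : Type} {r m D : ℕ}

/-! ### Taylor expansion -/

theorem taylor (P : MvPolynomial (Fin r) K) (F0 : Fin r → MvPolynomial τ K) (D : ℕ) :
    ∃ (h : (Fin r →₀ ℕ) → MvPolynomial τ K) (S : Finset (Fin r →₀ ℕ)),
      ∀ F : Fin r → MvPolynomial (τ ⊕ Fin D) K,
        aeval F P = ∑ α ∈ S, rename Sum.inl (h α) * ∏ i, (F i - rename Sum.inl (F0 i)) ^ α i := by
  classical
  have h0 : ∀ (F : Fin r → MvPolynomial (τ ⊕ Fin D) K) (P : MvPolynomial (Fin r) K),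
      aeval F P = eval₂ ((rename Sum.inl : MvPolynomial τ K →ₐ[K]
      MvPolynomial (τ ⊕ Fin D) K) : MvPolynomial τ K →+* MvPolynomial (τ ⊕ Fin D) K)
      (fun i => F i - rename Sum.inl (F0 i))
      (aeval (fun i => C (F0 i) + X i) P : MvPolynomial (Fin r) (MvPolynomial τ K)) := by
    intro F P
    induction P using MvPolynomial.induction_on with
    | C c =>
      rw [aeval_C, aeval_C]
      rw [show (algebraMap K (MvPolynomial (Fin r) (MvPolynomial τ K)) c) =
        C (C c : MvPolynomial τ K) from rfl, eval₂_C]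
      simp [MvPolynomial.algebraMap_eq]
    | add p q hp hq => rw [map_add, map_add, eval₂_add, hp, hq]
    | mul_X p i hp =>
      rw [map_mul, map_mul, eval₂_mul, hp, aeval_X, aeval_X, eval₂_add, eval₂_C, eval₂_X]
      congr 1
      simp
  refine ⟨fun α => coeff α (aeval (fun i => C (F0 i) + X i) P :
    MvPolynomial (Fin r) (MvPolynomial τ K)), (aeval (fun i => C (F0 i) + X i) P :
    MvPolynomial (Fin r) (MvPolynomial τ K)).support, fun F => ?_⟩
  rw [h0 F P, eval₂_eq']
  rfl

/-! ### the coefficient functional -/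

/-- The coefficient of `y_1 ... y_D` at `y = 0`. -/
noncomputable def cf (K : Type) [Field K] (τ : Type) (D : ℕ) :
    MvPolynomial (τ ⊕ Fin D) K →ₗ[K] MvPolynomial τ K :=
  (eps K τ D).toLinearMap ∘ₗ iter (List.finRange D)

theorem iter_mul_inl (l : List (Fin D)) (h : MvPolynomial τ K) (w : MvPolynomial (τ ⊕ Fin D) K) :
    iter l (rename Sum.inl h * w) = rename Sum.inl h * iter l w := by
  induction l with
  | nil => rfl
  | cons b l ih =>
    rw [iter_cons, iter_cons, ih, Derivation.leibniz, pderiv_rename_inl, smul_zero, add_zero,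
      smul_eq_mul]

theorem cf_mul (h : MvPolynomial τ K) (w : MvPolynomial (τ ⊕ Fin D) K) :
    cf K τ D (rename Sum.inl h * w) = h * cf K τ D w := by
  simp only [cf, LinearMap.comp_apply, AlgHom.toLinearMap_apply]
  rw [iter_mul_inl, map_mul, eps_rename]

theorem deriv_pow_mem {R : Type*} [CommRing R] [Algebra K R] (d : Derivation K R R) (I : Ideal R)
    (n : ℕ) {x : R} (hx : x ∈ I ^ (n + 1)) : d x ∈ I ^ n := by
  induction n generalizing x with
  | zero => simp
  | succ n ih =>
    rw [pow_succ] at hx
    induction hx using Submodule.mul_induction_on' with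
    | mem_mul_mem a ha b hb =>
      rw [Derivation.leibniz, smul_eq_mul, smul_eq_mul]
      refine Ideal.add_mem _ (Ideal.mul_mem_right _ _ ha) ?_
      rw [pow_succ, mul_comm b]
      exact Ideal.mul_mem_mul (ih ha) hb
    | add x _ y _ hx hy => rw [map_add]; exact Ideal.add_mem _ hx hy

theorem iter_pow_mem (I : Ideal (MvPolynomial (τ ⊕ Fin D) K)) (l : List (Fin D)) (n : ℕ)
    {x : MvPolynomial (τ ⊕ Fin D) K} (hx : x ∈ I ^ (n + l.length)) : iter l x ∈ I ^ n := by
  induction l generalizing n with
  | nil => simpa [iter_nil] using hx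
  | cons b l ih =>
    rw [iter_cons]
    refine deriv_pow_mem _ I n (ih (n + 1) ?_)
    rw [List.length_cons] at hx
    rwa [show n + 1 + l.length = n + (l.length + 1) by ring]

theorem cf_eq_zero {n : ℕ} (hn : D < n) {x : MvPolynomial (τ ⊕ Fin D) K}
    (hx : x ∈ (RingHom.ker (eps K τ D)) ^ n) : cf K τ D x = 0 := by
  obtain ⟨k, rfl⟩ := Nat.exists_eq_add_of_lt hn
  have h1 : iter (List.finRange D) x ∈ (RingHom.ker (eps K τ D)) ^ (k + 1) := by
    apply iter_pow_mem
    rw [List.length_finRange]
    rwa [show k + 1 + D = D + k + 1 by ring]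
  have h2 : iter (List.finRange D) x ∈ RingHom.ker (eps K τ D) :=
    Ideal.pow_le_self (Nat.succ_ne_zero k) h1
  exact h2

/-! ### block diagonal matrices -/

/-- The block diagonal matrix of size `D * m`. -/
def bd {R : Type*} [CommRing R] (M : Fin D → Matrix (Fin m) (Fin m) R) :
    Matrix (Fin (D * m)) (Fin (D * m)) R :=
  (Matrix.blockDiagonal M).submatrix
    (finProdFinEquiv.symm.trans (Equiv.prodComm (Fin D) (Fin m)))
    (finProdFinEquiv.symm.trans (Equiv.prodComm (Fin D) (Fin m)))

theorem det_bd {R : Type*} [CommRing R] (M : Fin D → Matrix (Fin m) (Fin m) R) :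
    (bd M).det = ∏ l, (M l).det := by
  rw [bd, Matrix.det_submatrix_equiv_self, Matrix.det_blockDiagonal]

theorem bd_apply {R : Type*} [CommRing R] (M : Fin D → Matrix (Fin m) (Fin m) R) (p q) :
    ∃ l i j, bd M p q = M l i j ∨ bd M p q = 0 := by
  obtain ⟨⟨l, i⟩, rfl⟩ := finProdFinEquiv.surjective p
  obtain ⟨⟨l', j⟩, rfl⟩ := finProdFinEquiv.surjective q
  refine ⟨l, i, j, ?_⟩
  simp only [bd, Matrix.submatrix_apply, Equiv.trans_apply, Equiv.symm_apply_apply,
    Equiv.prodComm_apply, Prod.swap, Matrix.blockDiagonal_apply]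
  split_ifs with h
  · left; rfl
  · right; rfl

theorem totalDegree_bd {σ : Type} (M : Fin D → Matrix (Fin m) (Fin m) (MvPolynomial σ K))
    (hM : ∀ l i j, (M l i j).totalDegree ≤ 1) (p q) : (bd M p q).totalDegree ≤ 1 := by
  obtain ⟨l, i, j, h | h⟩ := bd_apply M p q
  · rw [h]; exact hM l i j
  · rw [h]; simp

theorem map_bd {R S : Type*} [CommRing R] [CommRing S] (φ : R →+* S)
    (M : Fin D → Matrix (Fin m) (Fin m) R) :
    (bd M).map φ = bd fun l => (M l).map φ := by
  unfold bd
  ext p q
  simp only [Matrix.map_apply, Matrix.submatrix_apply, Matrix.blockDiagonal_apply]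
  split_ifs
  · rfl
  · rw [map_zero]

theorem cf_det_mem {M : ℕ} (A : Matrix (Fin M) (Fin M) (MvPolynomial (τ ⊕ Fin D) K))
    (hA : ∀ i j, (A i j).totalDegree ≤ 1) :
    cf K τ D A.det ∈ detSpan (A.map (eps K τ D)) (M - D) := by
  have h1 := iter_mem (List.finRange D) A hA (det_mem_Mn (K := K) A)
  rw [List.length_finRange] at h1
  have h2 := map_Mn (K := K) (eps K τ D) A h1
  rw [← Mn_eq]
  exact h2

/-! ### the main statement -/

/-- The block of an index: the matrix `L i` or the identity. -/
def blk {R : Type*} [CommRing R] (L : Fin r → Matrix (Fin m) (Fin m) R) :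
    Option (Fin r) → Matrix (Fin m) (Fin m) R
  | none => 1
  | some i => L i

theorem cf_prod_mem (L : Fin r → Matrix (Fin m) (Fin m) (MvPolynomial τ K))
    (hL : ∀ i p q, (L i p q).totalDegree ≤ 1) (c : Fin D → Option (Fin r))
    (A : Fin r → Matrix (Fin m) (Fin m) (MvPolynomial (τ ⊕ Fin D) K))
    (hA : ∀ i p q, (A i p q).totalDegree ≤ 1) (hAL : ∀ i, (A i).map (eps K τ D) = L i) :
    cf K τ D (∏ l, (c l).elim 1 fun i => (A i).det - rename Sum.inl (L i).det) ∈
      detSpan (bd fun l => blk L (c l)) (D * m - D) := by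
  classical
  set s : Finset (Fin D) := univ.filter fun l => c l ≠ none with hs
  set L' : Fin r → Matrix (Fin m) (Fin m) (MvPolynomial (τ ⊕ Fin D) K) :=
    fun i => (L i).map (rename Sum.inl) with hL'
  have hL'1 : ∀ i p q, (L' i p q).totalDegree ≤ 1 := fun i p q =>
    (totalDegree_rename_le _ _).trans (hL i p q)
  have hL'2 : ∀ i, (L' i).map (eps K τ D) = L i := by
    intro i
    ext1 p q
    exact eps_rename _
  have hL'3 : ∀ i, rename Sum.inl (L i).det = (L' i).det := fun i => by
    rw [AlgHom.map_det]; rfl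
  have e1 : (∏ l, (c l).elim (1 : MvPolynomial (τ ⊕ Fin D) K)
      fun i => (A i).det - rename Sum.inl (L i).det) =
      ∏ l ∈ s, ((blk A (c l)).det - (blk L' (c l)).det) := by
    rw [hs, Finset.prod_filter]
    refine Finset.prod_congr rfl fun l _ => ?_
    rcases hc : c l with _ | i
    · simp
    · simp [blk, hL'3]
  rw [e1, Finset.prod_sub, map_sum]
  refine Submodule.sum_mem _ fun t ht => ?_
  rw [Finset.mem_powerset] at ht
  set M : Fin D → Matrix (Fin m) (Fin m) (MvPolynomial (τ ⊕ Fin D) K) :=
    fun l => if l ∈ t then blk L' (c l) else if l ∈ s then blk A (c l) else 1 with hM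
  have hblk : ∀ (B : Fin r → Matrix (Fin m) (Fin m) (MvPolynomial (τ ⊕ Fin D) K))
      (_ : ∀ i p q, (B i p q).totalDegree ≤ 1) (o : Option (Fin r)) (p q),
      (blk B o p q).totalDegree ≤ 1 := by
    intro B hB o p q
    rcases o with _ | i
    · simp only [blk, Matrix.one_apply]
      split_ifs <;> simp
    · exact hB i p q
  have hM1 : ∀ l p q, (M l p q).totalDegree ≤ 1 := by
    intro l p q
    simp only [hM]
    split_ifs
    · exact hblk L' hL'1 _ _ _
    · exact hblk A hA _ _ _
    · have := hblk L' hL'1 none p q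
      exact this
  have hblk2 : ∀ (B : Fin r → Matrix (Fin m) (Fin m) (MvPolynomial (τ ⊕ Fin D) K))
      (_ : ∀ i, (B i).map (eps K τ D) = L i) (o : Option (Fin r)),
      (blk B o).map (eps K τ D) = blk L o := by
    intro B hB o
    rcases o with _ | i
    · ext1 p q
      simp only [blk, Matrix.map_apply, Matrix.one_apply]
      split_ifs <;> simp
    · exact hB i
  have hM2 : ∀ l, (M l).map (eps K τ D) = blk L (c l) := by
    intro l
    simp only [hM]
    split_ifs with h1 h2
    · exact hblk2 L' hL'2 _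
    · exact hblk2 A hAL _
    · have h3 : c l = none := by
        by_contra h4
        exact h2 (by rw [hs]; simp [h4])
      rw [h3]
      exact hblk2 L' hL'2 none
  have e2 : (-1 : MvPolynomial (τ ⊕ Fin D) K) ^ #t * (∏ l ∈ s \ t, (blk A (c l)).det) *
      ∏ l ∈ t, (blk L' (c l)).det = (-1 : K) ^ #t • (bd M).det := by
    rw [det_bd, Algebra.smul_def, map_pow, map_neg, map_one, mul_assoc]
    congr 1
    rw [← Finset.prod_subset (Finset.subset_univ s) (f := fun l => (M l).det), ←
      Finset.prod_sdiff ht]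
    · congr 1
      · refine Finset.prod_congr rfl fun l hl => ?_
        rw [Finset.mem_sdiff] at hl
        simp only [hM]
        rw [if_neg hl.2, if_pos hl.1]
      · refine Finset.prod_congr rfl fun l hl => ?_
        simp only [hM]
        rw [if_pos hl]
    · intro l _ hl
      simp only [hM]
      rw [if_neg (fun h => hl (ht h)), if_neg hl, Matrix.det_one]
  rw [e2, map_smul]
  refine Submodule.smul_mem _ _ ?_
  have h3 := cf_det_mem (bd M) (totalDegree_bd M hM1)
  have h4 : (bd M).map (eps K τ D) = bd fun l => blk L (c l) := by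
    have := map_bd ((eps K τ D : MvPolynomial (τ ⊕ Fin D) K →ₐ[K] MvPolynomial τ K) :
      MvPolynomial (τ ⊕ Fin D) K →+* MvPolynomial τ K) M
    refine Eq.trans this ?_
    congr 1
    funext l
    exact hM2 l
  rwa [h4] at h3

/-- An enumeration of a multiset. -/
theorem exists_enum {β : Type} (s : Multiset β) (hs : Multiset.card s = D) :
    ∃ c : Fin D → β, (univ : Finset (Fin D)).val.map c = s := by
  subst hs
  refine ⟨fun l => s.toList.get (l.cast (by simp)), ?_⟩
  have h1 : (univ : Finset (Fin (Multiset.card s))).val.map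
      (fun l => s.toList.get (l.cast (by simp))) =
      (List.ofFn fun l : Fin (Multiset.card s) => s.toList.get (l.cast (by simp)) : Multiset β) := by
    rw [List.ofFn_eq_map, Fin.univ_def]
    rfl
  rw [h1]
  conv_rhs => rw [← s.coe_toList]
  congr 1
  apply List.ext_get
  · simp
  · intro i h1 h2
    simp

end Pool.FD
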