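import Pool.Agent.FD.Defs

/-!
Functions of determinants (FD): the closure lemma.
-/

open MvPolynomial Finset
open scoped BigOperators

namespace Pool.FD

section det

variable {K S : Type*} [Field K] [CommRing S] [Algebra K S]

lemma deriv_prod (d : Derivation K S S) {ι : Type*} [DecidableEq ι] (s : Finset ι) (f : ι → S) :
    d (∏ i ∈ s, f i) = ∑ i ∈ s, (∏ j ∈ s.erase i, f j) * d (f i) := by
  induction s using Finset.induction_on with
  | empty => simp
  | insert a s ha ih =>
    rw [Finset.prod_insert ha, Derivation.leibniz, ih, Finset.sum_insert ha,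
      Finset.erase_insert ha]
    simp only [smul_eq_mul]
    rw [add_comm, Finset.mul_sum]
    congr 1
    refine Finset.sum_congr rfl fun i hi => ?_
    have hia : a ≠ i := fun h => ha (h ▸ hi)
    rw [Finset.erase_insert_of_ne hia, Finset.prod_insert (by simp [ha]), mul_assoc]

/-- Jacobi's formula -/
lemma deriv_det (d : Derivation K S S) {m : ℕ} (A : Matrix (Fin m) (Fin m) S) :
    d A.det = ∑ a, ∑ b, A.adjugate b a * d (A a b) := by
  classical
  have h1 : d A.det = ∑ b, (A.updateCol b fun a => d (A a b)).det := by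
    simp_rw [Matrix.det_apply]
    rw [map_sum, Finset.sum_comm]
    refine Finset.sum_congr rfl fun σ _ => ?_
    rw [← Finset.smul_sum]
    have h2 : d (Equiv.Perm.sign σ • ∏ i, A (σ i) i) =
        Equiv.Perm.sign σ • d (∏ i, A (σ i) i) := by
      rw [Units.smul_def, Units.smul_def]
      exact map_zsmul d _ _
    rw [h2, deriv_prod]
    congr 1
    refine Finset.sum_congr rfl fun b _ => ?_
    rw [← Finset.mul_prod_erase Finset.univ _ (Finset.mem_univ b), Matrix.updateCol_self,
      mul_comm]
    congr 1
    refine Finset.prod_congr rfl fun j hj => ?_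
    rw [Matrix.updateCol_ne (Finset.ne_of_mem_erase hj)]
  rw [h1, Finset.sum_comm]
  refine Finset.sum_congr rfl fun b _ => ?_
  rw [← Matrix.cramer_apply, Matrix.cramer_eq_adjugate_mulVec]
  rfl

end det

section field

variable {K S : Type*} [Field K] [Field S] [Algebra K S]

/-- derivative of the determinant through the inverse -/
lemma deriv_det' (d : Derivation K S S) {m : ℕ} (A : Matrix (Fin m) (Fin m) S)
    (hA : A.det ≠ 0) :
    d A.det = A.det * ∑ a, ∑ b, A⁻¹ b a * d (A a b) := by
  rw [deriv_det, Finset.mul_sum]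
  refine Finset.sum_congr rfl fun a _ => ?_
  rw [Finset.mul_sum]
  refine Finset.sum_congr rfl fun b _ => ?_
  rw [Matrix.inv_def, Matrix.smul_apply, Ring.inverse_eq_inv', smul_eq_mul]
  field_simp

/-- derivative of the inverse -/
lemma deriv_inv (d : Derivation K S S) {m : ℕ} (A : Matrix (Fin m) (Fin m) S)
    (hA : A.det ≠ 0) (b a : Fin m) :
    d (A⁻¹ b a) = - ∑ s, ∑ t, A⁻¹ b s * d (A s t) * A⁻¹ t a := by
  classical
  have hu : IsUnit A.det := isUnit_iff_ne_zero.2 hA
  have h1 : ∀ s t, ∑ r, A s r * A⁻¹ r t = (1 : Matrix (Fin m) (Fin m) S) s t := by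
    intro s t
    have := congrFun (congrFun (Matrix.mul_nonsing_inv A hu) s) t
    rwa [Matrix.mul_apply] at this
  have h2 : ∀ s t, ∑ r, A⁻¹ s r * A r t = (1 : Matrix (Fin m) (Fin m) S) s t := by
    intro s t
    have := congrFun (congrFun (Matrix.nonsing_inv_mul A hu) s) t
    rwa [Matrix.mul_apply] at this
  have h3 : ∀ s t, ∑ r, (A s r * d (A⁻¹ r t) + A⁻¹ r t * d (A s r)) = 0 := by
    intro s t
    have h4 := congrArg d (h1 s t)
    rw [map_sum] at h4
    have h5 : d ((1 : Matrix (Fin m) (Fin m) S) s t) = 0 := by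
      rw [Matrix.one_apply]
      split_ifs <;> simp
    rw [h5] at h4
    rw [← h4]
    refine Finset.sum_congr rfl fun r _ => ?_
    rw [Derivation.leibniz, smul_eq_mul, smul_eq_mul]
  have h6 : ∑ s, A⁻¹ b s * ∑ r, (A s r * d (A⁻¹ r a) + A⁻¹ r a * d (A s r)) = 0 := by
    simp_rw [h3, mul_zero, Finset.sum_const_zero]
  have h7 : ∑ s, A⁻¹ b s * ∑ r, (A s r * d (A⁻¹ r a) + A⁻¹ r a * d (A s r)) =
      d (A⁻¹ b a) + ∑ s, ∑ t, A⁻¹ b s * d (A s t) * A⁻¹ t a := by
    simp_rw [Finset.sum_add_distrib, mul_add, Finset.sum_add_distrib, Finset.mul_sum]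
    congr 1
    · rw [Finset.sum_comm]
      have h8 : ∀ r, ∑ s, A⁻¹ b s * (A s r * d (A⁻¹ r a)) =
          (1 : Matrix (Fin m) (Fin m) S) b r * d (A⁻¹ r a) := by
        intro r
        rw [← h2, Finset.sum_mul]
        exact Finset.sum_congr rfl fun s _ => by ring
      simp_rw [h8, Matrix.one_apply, ite_mul, one_mul, zero_mul]
      rw [Finset.sum_ite_eq]
      simp
    · refine Finset.sum_congr rfl fun s _ => Finset.sum_congr rfl fun t _ => by ring
  rw [h7] at h6
  exact eq_neg_of_add_eq_zero_left h6

/-- the logarithmic derivative of a power product -/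
lemma deriv_finsuppProd (d : Derivation K S S) {k : ℕ} (f : Fin k → S) (hf : ∀ i, f i ≠ 0)
    (γ : Fin k →₀ ℕ) :
    d (γ.prod fun i s => f i ^ s) =
      (γ.prod fun i s => f i ^ s) * ∑ i, (γ i : S) * ((f i)⁻¹ * d (f i)) := by
  classical
  have h1 : ∀ g : Fin k → ℕ, d (∏ i, f i ^ g i) =
      (∏ i, f i ^ g i) * ∑ i, (g i : S) * ((f i)⁻¹ * d (f i)) := by
    intro g
    rw [deriv_prod, Finset.mul_sum]
    refine Finset.sum_congr rfl fun i _ => ?_
    rw [Derivation.leibniz_pow, ← Finset.mul_prod_erase Finset.univ _ (Finset.mem_univ i)]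
    rcases Nat.eq_zero_or_pos (g i) with h | h
    · simp [h]
    · obtain ⟨r, hr⟩ := Nat.exists_eq_add_of_le' h
      rw [hr, Nat.add_sub_cancel, pow_succ, nsmul_eq_mul, smul_eq_mul]
      field_simp [hf i]
  rw [Finsupp.prod_fintype _ _ (fun i => pow_zero _)]
  exact h1 γ

lemma typ_add {k m : ℕ} (e e' : Cell k m →₀ ℕ) : typ (e + e') = typ e + typ e' :=
  Finsupp.mapDomain_add

lemma typ_single {k m : ℕ} (c : Cell k m) (n : ℕ) :
    typ (Finsupp.single c n) = Finsupp.single c.1 n := Finsupp.mapDomain_single

lemma bprod_zero {k m : ℕ} (A : Fin k → Matrix (Fin m) (Fin m) S) : bprod A 0 = 1 :=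
  Finsupp.prod_zero_index

lemma bprod_add {k m : ℕ} (A : Fin k → Matrix (Fin m) (Fin m) S) (e e' : Cell k m →₀ ℕ) :
    bprod A (e + e') = bprod A e * bprod A e' := by
  classical
  unfold bprod
  rw [Finsupp.prod_add_index']
  · intro c; exact pow_zero _
  · intro c s t; exact pow_add _ _ _

lemma bprod_single {k m : ℕ} (A : Fin k → Matrix (Fin m) (Fin m) S) (c : Cell k m) :
    bprod A (Finsupp.single c 1) = (A c.1)⁻¹ c.2.2 c.2.1 := by
  unfold bprod
  exact (Finsupp.prod_single_index
    (h := fun (c : Cell k m) s => ((A c.1)⁻¹ c.2.2 c.2.1) ^ s) (pow_zero _)).trans (pow_one _)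

/-- products of one degree more and at least the same type -/
noncomputable def MM (K : Type*) {S : Type*} [Field K] [Field S] [Algebra K S] {k m : ℕ}
    (A : Fin k → Matrix (Fin m) (Fin m) S) (n : ℕ) (τ : Fin k →₀ ℕ) : Submodule K S :=
  Submodule.span K {x | ∃ e' : Cell k m →₀ ℕ, e'.degree = n ∧ τ ≤ typ e' ∧ x = bprod A e'}

lemma bprod_mul_mem_MM {k m : ℕ} (A : Fin k → Matrix (Fin m) (Fin m) S) (e : Cell k m →₀ ℕ)
    {n : ℕ} {τ : Fin k →₀ ℕ} {x : S} (hx : x ∈ MM K A n τ) :
    bprod A e * x ∈ MM K A (e.degree + n) (typ e + τ) := by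
  unfold MM at hx
  induction hx using Submodule.span_induction with
  | mem y hy =>
    obtain ⟨e', h1, h2, rfl⟩ := hy
    refine Submodule.subset_span ⟨e + e', by rw [map_add, h1], ?_, (bprod_add A e e').symm⟩
    rw [typ_add]
    gcongr
  | zero => rw [mul_zero]; exact Submodule.zero_mem _
  | add x y _ _ hx hy => rw [mul_add]; exact Submodule.add_mem _ hx hy
  | smul a x _ hx => rw [mul_smul_comm]; exact Submodule.smul_mem _ _ hx

variable {k m : ℕ} (d : Derivation K S S) (A : Fin k → Matrix (Fin m) (Fin m) S)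

lemma deriv_bprod (hA : ∀ i, (A i).det ≠ 0)
    (hd : ∀ i a b, ∃ x : K, d (A i a b) = algebraMap K S x) (e : Cell k m →₀ ℕ) :
    d (bprod A e) ∈ MM K A (e.degree + 1) (typ e) := by
  have hadd : ∀ e1 e2 : Cell k m →₀ ℕ, d (bprod A e1) ∈ MM K A (e1.degree + 1) (typ e1) →
      d (bprod A e2) ∈ MM K A (e2.degree + 1) (typ e2) →
      d (bprod A (e1 + e2)) ∈ MM K A ((e1 + e2).degree + 1) (typ (e1 + e2)) := by
    intro e1 e2 h1 h2
    rw [bprod_add, Derivation.leibniz, smul_eq_mul, smul_eq_mul, typ_add, map_add]
    refine Submodule.add_mem _ ?_ ?_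
    · have := bprod_mul_mem_MM A e1 h2
      rwa [← add_assoc] at this
    · have := bprod_mul_mem_MM A e2 h1
      rwa [← add_assoc, add_comm e2.degree, add_comm (typ e2)] at this
  have hone : ∀ c : Cell k m, d (bprod A (Finsupp.single c 1)) ∈
      MM K A ((Finsupp.single c 1).degree + 1) (typ (Finsupp.single c 1)) := by
    rintro ⟨i, a, b⟩
    rw [bprod_single, deriv_inv d (A i) (hA i)]
    refine Submodule.neg_mem _ (Submodule.sum_mem _ fun s _ => Submodule.sum_mem _ fun t _ => ?_)
    obtain ⟨x, hx⟩ := hd i s t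
    rw [hx]
    have h1 : (A i)⁻¹ b s * algebraMap K S x * (A i)⁻¹ t a =
        x • bprod A (Finsupp.single (i, s, b) 1 + Finsupp.single (i, a, t) 1) := by
      rw [bprod_add, bprod_single, bprod_single, Algebra.smul_def]
      ring
    rw [h1]
    refine Submodule.smul_mem _ _ (Submodule.subset_span ⟨_, ?_, ?_, rfl⟩)
    · rw [map_add, Finsupp.degree_single, Finsupp.degree_single, Finsupp.degree_single]
    · rw [typ_add, typ_single, typ_single, typ_single]
      exact le_self_add
  induction e using Finsupp.induction_linear with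
  | zero =>
    rw [bprod_zero, Derivation.map_one_eq_zero]
    exact Submodule.zero_mem _
  | add e1 e2 h1 h2 => exact hadd e1 e2 h1 h2
  | single c n =>
    induction n with
    | zero =>
      rw [Finsupp.single_zero, bprod_zero, Derivation.map_one_eq_zero]
      exact Submodule.zero_mem _
    | succ n ih =>
      rw [Finsupp.single_add]
      exact hadd _ _ ih (hone c)

end field

section closure

variable {K S U : Type*} [Field K] [Field S] [Algebra K S] {k m : ℕ}

lemma fprod_add {f : Fin k → S} (γ γ' : Fin k →₀ ℕ) :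
    ((γ + γ').prod fun i s => f i ^ s) =
      (γ.prod fun i s => f i ^ s) * γ'.prod fun i s => f i ^ s := by
  classical
  rw [Finsupp.prod_add_index']
  · intro c; exact pow_zero _
  · intro c s t; exact pow_add _ _ _

lemma fprod_single {f : Fin k → S} (i : Fin k) :
    ((Finsupp.single i 1).prod fun i s => f i ^ s) = f i :=
  (Finsupp.prod_single_index (h := fun (i : Fin k) s => f i ^ s) (pow_zero _)).trans (pow_one _)

theorem closure (d : U → Derivation K S S) (A : Fin k → Matrix (Fin m) (Fin m) S)
    (hA : ∀ i, (A i).det ≠ 0)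
    (hd : ∀ u i a b, ∃ x : K, d u (A i a b) = algebraMap K S x)
    (c : (Fin k →₀ ℕ) → S) (hc : IsJet d (fun i => (A i).det) c) (l : List U) :
    iter d l (c 0) ∈ NN K A c l.length := by
  classical
  have hdet : ∀ u i (x : S), ((A i).det)⁻¹ * d u (A i).det * x =
      ∑ a, ∑ b, (A i)⁻¹ b a * d u (A i a b) * x := by
    intro u i x
    rw [deriv_det' _ _ (hA i)]
    rw [← mul_assoc, inv_mul_cancel₀ (hA i), one_mul, Finset.sum_mul]
    exact Finset.sum_congr rfl fun a _ => Finset.sum_mul _ _ _
  have hcell : ∀ (n : ℕ) (γ : Fin k →₀ ℕ) (e : Cell k m →₀ ℕ) (i : Fin k) (u : U),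
      e.degree = n → γ ≤ typ e + Finsupp.single i 1 →
      ((A i).det)⁻¹ * d u (A i).det * (c γ * (γ.prod fun i s => (A i).det ^ s) * bprod A e) ∈
        NN K A c (n + 1) := by
    intro n γ e i u he hγ
    rw [hdet]
    refine Submodule.sum_mem _ fun a _ => Submodule.sum_mem _ fun b _ => ?_
    obtain ⟨x, hx⟩ := hd u i a b
    have h1 : (A i)⁻¹ b a * d u (A i a b) *
        (c γ * (γ.prod fun i s => (A i).det ^ s) * bprod A e) =
        x • (c γ * (γ.prod fun i s => (A i).det ^ s) *
          bprod A (e + Finsupp.single (i, a, b) 1)) := by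
      rw [bprod_add, bprod_single, hx, Algebra.smul_def]
      ring
    rw [h1]
    refine Submodule.smul_mem _ _ (Submodule.subset_span ⟨γ, _, ?_, ?_, rfl⟩)
    · rw [map_add, Finsupp.degree_single, he]
    · rw [typ_add, typ_single]
      exact hγ
  induction l with
  | nil =>
    refine Submodule.subset_span ⟨0, 0, by simp, by simp, ?_⟩
    rw [bprod_zero, Finsupp.prod_zero_index, mul_one, mul_one]
    rfl
  | cons u l ih =>
    change d u (iter d l (c 0)) ∈ NN K A c (l.length + 1)
    revert ih
    generalize iter d l (c 0) = y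
    generalize l.length = n
    intro hy
    unfold NN at hy
    induction hy using Submodule.span_induction with
    | mem x hx =>
      obtain ⟨γ, e, he, hγ, rfl⟩ := hx
      have hf : ∀ i, (fun i => (A i).det) i ≠ 0 := hA
      rw [Derivation.leibniz, Derivation.leibniz, deriv_finsuppProd (d u) _ hf γ, hc γ u]
      simp only [smul_eq_mul]
      rw [mul_add]
      refine Submodule.add_mem _ ?_ (Submodule.add_mem _ ?_ ?_)
      · -- derivative of the product of the inverses
        have h1 := deriv_bprod (d u) A hA (hd u) e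
        revert h1
        generalize d u (bprod A e) = z
        intro hz
        unfold MM at hz
        induction hz using Submodule.span_induction with
        | mem x hx =>
          obtain ⟨e', h1, h2, rfl⟩ := hx
          refine Submodule.subset_span ⟨γ, e', by rw [h1, he], hγ.trans h2, rfl⟩
        | zero => rw [mul_zero]; exact Submodule.zero_mem _
        | add x y _ _ hx hy => rw [mul_add]; exact Submodule.add_mem _ hx hy
        | smul a x _ hx => rw [mul_smul_comm]; exact Submodule.smul_mem _ _ hx
      · -- derivative of the powers of the determinants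
        have h1 : bprod A e * (c γ * ((γ.prod fun i s => (A i).det ^ s) *
            ∑ i, (γ i : S) * (((A i).det)⁻¹ * d u (A i).det))) =
            ∑ i, (γ i : K) • (((A i).det)⁻¹ * d u (A i).det *
              (c γ * (γ.prod fun i s => (A i).det ^ s) * bprod A e)) := by
          simp_rw [Finset.mul_sum, Algebra.smul_def, map_natCast]
          refine Finset.sum_congr rfl fun i _ => by ring
        rw [h1]
        refine Submodule.sum_mem _ fun i _ => Submodule.smul_mem _ _ ?_
        exact hcell n γ e i u he (hγ.trans le_self_add)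
      · -- derivative of the coefficient
        have h1 : bprod A e * ((γ.prod fun i s => (A i).det ^ s) *
            ∑ i, c (γ + Finsupp.single i 1) * d u (A i).det) =
            ∑ i, ((A i).det)⁻¹ * d u (A i).det * (c (γ + Finsupp.single i 1) *
              ((γ + Finsupp.single i 1).prod fun i s => (A i).det ^ s) * bprod A e) := by
          simp_rw [Finset.mul_sum]
          refine Finset.sum_congr rfl fun i _ => ?_
          rw [fprod_add, fprod_single]
          have := hA i
          field_simp
        rw [h1]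
        refine Submodule.sum_mem _ fun i _ => ?_
        exact hcell n _ e i u he (by gcongr)
    | zero => rw [map_zero]; exact Submodule.zero_mem _
    | add x y _ _ hx hy => rw [map_add]; exact Submodule.add_mem _ hx hy
    | smul a x _ hx => rw [Derivation.map_smul]; exact Submodule.smul_mem _ _ hx

end closure

end Pool.FD
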