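import Pool.Agent.FD.Defs
import Pool.Agent.Helper69.FD.Count

/-!
Functions of determinants, row F4: the count of the products of cofactors.
-/

open MvPolynomial Finset

namespace Pool.FD

variable {k m : ℕ}

/-- cell forbidden in the row -/
def rr (x : Cell k (m + 1)) : Cell k (m + 1) :=
  if h : x.2.1 = Fin.last m then x else (x.1, x.2.1, x.2.2.succAbove (x.2.1.castPred h))

/-- cell forbidden in the column -/
def cc (x : Cell k (m + 1)) : Cell k (m + 1) :=
  if h : x.2.2 = Fin.last m then x else (x.1, x.2.1.succAbove (x.2.2.castPred h), x.2.2)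

lemma fb_eq (x : Cell k (m + 1)) :
    fb x = Fx (fun a => a ≠ Fin.last m) (fun b => b ≠ Fin.last m) rr cc x := by
  unfold fb Fx rr cc
  by_cases h1 : x.2.1 = Fin.last m <;> by_cases h2 : x.2.2 = Fin.last m <;> simp [h1, h2]

lemma fbs_eq (e : Cell k (m + 1) →₀ ℕ) :
    fbs e = Forb (fun a => a ≠ Fin.last m) (fun b => b ≠ Fin.last m) rr cc (⇑e) := by
  unfold fbs Forb
  have h : e.support = univ.filter fun x => e x ≠ 0 := by
    ext x
    simp
  rw [h]
  refine Finset.biUnion_congr rfl fun x _ => fb_eq x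

lemma typ_apply {m' : ℕ} (e : Cell k m' →₀ ℕ) (i : Fin k) : typ e i = ty (⇑e) i := by
  unfold typ ty
  rw [Finsupp.mapDomain, Finsupp.sum_fintype _ _ (by simp), Finsupp.finsetSum_apply,
    Fintype.sum_prod_type, Finset.sum_eq_single i]
  · refine Finset.sum_congr rfl fun p _ => ?_
    simp
  · intro j _ hj
    refine Finset.sum_eq_zero fun p _ => ?_
    simp [Finsupp.single_eq_of_ne hj.symm]
  · intro h
    exact absurd (mem_univ _) h

/-- F4: count -/
theorem count (k m D : ℕ) (θ : ℝ) (h0 : 0 ≤ θ) (h1 : θ ≤ 1) :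
    ∑ γ ∈ GG k D, ∑ e : Idx (k := k) (m := m + 1) D γ, θ ^ (fbs e.1).card ≤
      (4 * (k * ((m + 1) * θ + 2 * D + 1) ^ 2)) ^ D / D.factorial := by
  classical
  have hlast : (univ.filter fun a : Fin (m + 1) => ¬ (a ≠ Fin.last m)).card ≤ 1 := by
    rw [Finset.card_le_one]
    intro a ha b hb
    have h2 := (mem_filter.1 ha).2
    have h3 := (mem_filter.1 hb).2
    rw [not_not] at h2 h3
    rw [h2, h3]
  have key := count_types (I := Fin k) (α := Fin (m + 1)) (okR := fun a => a ≠ Fin.last m)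
    (okC := fun b => b ≠ Fin.last m) (r := rr) (c := cc) (by
      intro x
      unfold rr
      split_ifs <;> exact ⟨rfl, rfl⟩) (by
      intro x
      unfold cc
      split_ifs <;> exact ⟨rfl, rfl⟩) (by
      intro x hx hx' h
      unfold rr cc at h
      rw [dif_neg hx, dif_neg hx'] at h
      have h2 := congrArg (fun z : Cell k (m + 1) => z.2.2) h
      exact Fin.succAbove_ne _ _ h2) hlast hlast h0 h1 D
      ((GG k D).image fun γ : Fin k →₀ ℕ => (⇑γ : Fin k → ℕ))
  rw [Finset.sum_image (fun a _ b _ h => DFunLike.coe_injective h)] at key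
  have e1 : (4 * ((k : ℝ) * ((m + 1) * θ + 2 * D + 1) ^ 2)) ^ D / (D.factorial : ℝ)
      = 2 ^ D * ((2 * (Fintype.card (Fin k) * (Fintype.card (Fin (m + 1)) * θ + 2 * D + 1) ^ 2)) ^ D
        / (D.factorial : ℝ)) := by
    rw [← mul_div_assoc, ← mul_pow, Fintype.card_fin, Fintype.card_fin]
    push_cast
    congr 2
    ring
  rw [e1]
  refine le_trans (Finset.sum_le_sum fun γ _ => ?_) key
  have h2 : ∑ e : Idx (k := k) (m := m + 1) D γ, θ ^ (fbs e.1).card
      = ∑ e ∈ (univ : Finset (Idx (k := k) (m := m + 1) D γ)).image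
          (fun e : Idx (k := k) (m := m + 1) D γ => (⇑e.1 : Cell k (m + 1) → ℕ)),
        θ ^ (Forb (fun a => a ≠ Fin.last m) (fun b => b ≠ Fin.last m) rr cc e).card := by
    rw [Finset.sum_image]
    · exact Finset.sum_congr rfl fun e _ => by rw [fbs_eq]
    · intro a _ b _ h
      exact Subtype.ext (DFunLike.coe_injective h)
  rw [h2]
  refine Finset.sum_le_sum_of_subset_of_nonneg ?_ fun _ _ _ => pow_nonneg h0 _
  intro e he
  obtain ⟨e', _, rfl⟩ := mem_image.1 he
  have hm : ∀ (S : Finset (Cell k (m + 1) → ℕ)) (p : (Cell k (m + 1) → ℕ) → Prop)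
      (inst : DecidablePred p) (x : Cell k (m + 1) → ℕ), x ∈ @Finset.filter _ p inst S ↔
        x ∈ S ∧ p x := fun S p inst x => @Finset.mem_filter _ p inst S x
  refine (hm _ _ _ _).2 ⟨mem_piAntidiag.2 ⟨?_, fun _ _ => mem_univ _⟩, fun i => ?_⟩
  · have h3 := e'.2.1
    rw [Finsupp.degree_eq_sum] at h3
    exact h3
  · rw [← typ_apply]
    exact e'.2.2 i

end Pool.FD
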