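import Pool.Agent.FD.Defs2

/-!
# Functions of determinants: the generating function of the types
-/

set_option autoImplicit false

open Finset

namespace Pool.FD

/-- the weight of one matrix -/
noncomputable def wgt (d D t : ℕ) : ℝ := ∏ s : Fin D, 1 / ((min d (t - s * d)).factorial : ℝ)

theorem wgt_nonneg (d D t : ℕ) : 0 ≤ wgt d D t := Finset.prod_nonneg fun _ _ => by positivity

theorem prod_spl {k : ℕ} (d D : ℕ) (τ : Fin k →₀ ℕ) :
    ∏ c, (1 / ((spl d D τ c).factorial : ℝ)) = ∏ i, wgt d D (τ i) := by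
  unfold wgt
  rw [← Fintype.prod_prod_type' (f := fun (i : Fin k) (s : Fin D) =>
    (1 / ((min d (τ i - s * d)).factorial : ℝ)))]
  refine Fintype.prod_equiv finProdFinEquiv.symm _ _ fun c => ?_
  rfl

theorem one_div_factorial_le (x : ℕ) : 1 / (x.factorial : ℝ) ≤ 1 := by
  rw [div_le_one (by positivity)]
  exact_mod_cast Nat.one_le_iff_ne_zero.mpr (Nat.factorial_ne_zero x)

theorem wgt_le {d D t : ℕ} (hd : 1 ≤ d) (ht : t ≤ D) :
    wgt d D t ≤ (1 / (d.factorial : ℝ)) ^ (t / d) * (1 / ((t % d).factorial : ℝ)) := by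
  have hq : t / d ≤ D := (Nat.div_le_self t d).trans ht
  unfold wgt
  rw [Fin.prod_univ_eq_prod_range (fun s => 1 / ((min d (t - s * d)).factorial : ℝ)) D]
  have hmd : d * (t / d) + t % d = t := Nat.div_add_mod t d
  have hml : t % d < d := Nat.mod_lt t hd
  have e2 : ∏ s ∈ range (t / d), 1 / ((min d (t - s * d)).factorial : ℝ) =
      (1 / (d.factorial : ℝ)) ^ (t / d) := by
    rw [Finset.prod_congr rfl (g := fun _ => 1 / (d.factorial : ℝ)), Finset.prod_const,
      Finset.card_range]
    intro s hs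
    rw [Finset.mem_range] at hs
    have h1 : (s + 1) * d ≤ t / d * d := Nat.mul_le_mul_right d hs
    have h2 : min d (t - s * d) = d := by
      apply min_eq_left
      have h3 : t / d * d = d * (t / d) := mul_comm _ _
      have h4 : (s + 1) * d = s * d + d := by ring
      omega
    rw [h2]
  rcases lt_or_eq_of_le hq with h | h
  · have e3 : ∏ s ∈ range D, 1 / ((min d (t - s * d)).factorial : ℝ) ≤
        ∏ s ∈ range (t / d + 1), 1 / ((min d (t - s * d)).factorial : ℝ) := by
      apply Finset.prod_le_prod_of_subset_of_le_one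
      · exact Finset.range_subset_range.2 h
      · intro i _; positivity
      · intro i _ _; exact one_div_factorial_le _
    refine e3.trans ?_
    rw [Finset.prod_range_succ, e2]
    have h5 : min d (t - t / d * d) = t % d := by
      have h3 : t / d * d = d * (t / d) := mul_comm _ _
      rw [h3]
      have : t - d * (t / d) = t % d := by omega
      rw [this]
      exact min_eq_right hml.le
    rw [h5]
  · rw [← h, e2]
    have h6 : D * 1 ≤ d * D := by rw [mul_comm d]; exact Nat.mul_le_mul_left D hd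
    have h7 : t % d = 0 := by
      rw [h] at hmd
      omega
    rw [h7]
    simp

theorem sum_wgt_le {d D : ℕ} (hd : 1 ≤ d) {y : ℝ} (hy0 : 0 < y)
    (hy : y * (2 * Real.exp 1) ≤ d) :
    ∑ t ∈ range (D + 1), wgt d D t * y ^ t ≤ Real.exp (3 * y) := by
  set x : ℝ := y ^ d / d.factorial with hx
  have hx0 : 0 ≤ x := by positivity
  have he : (1 : ℝ) ≤ Real.exp 1 := by
    have := Real.add_one_le_exp (1 : ℝ); linarith
  -- x ≤ 1/2 and x ≤ y
  have hfac : ((d : ℝ) / Real.exp 1) ^ d ≤ d.factorial := by
    have h1 : (d : ℝ) ^ d / d.factorial ≤ Real.exp d := by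
      have := Real.pow_div_factorial_le_exp (d : ℝ) (by positivity) d
      exact this
    rw [div_pow, ← Real.exp_nat_mul, mul_one, div_le_iff₀ (Real.exp_pos _)]
    rw [div_le_iff₀ (by positivity)] at h1
    linarith [mul_comm (Real.exp (d:ℝ)) (d.factorial : ℝ)]
  have hyd : y ≤ (d / Real.exp 1) / 2 := by
    rw [le_div_iff₀ (by norm_num), le_div_iff₀ (Real.exp_pos _)]
    calc y * 2 * Real.exp 1 = y * (2 * Real.exp 1) := by ring
      _ ≤ d := hy
  have hx2 : x ≤ (1 / 2) ^ d := by
    rw [hx, div_le_iff₀ (by positivity)]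
    calc y ^ d ≤ ((d / Real.exp 1) / 2) ^ d := pow_le_pow_left₀ hy0.le hyd d
      _ = (1 / 2) ^ d * (d / Real.exp 1) ^ d := by rw [← mul_pow]; ring_nf
      _ ≤ (1 / 2) ^ d * d.factorial := by gcongr
  have hxh : x ≤ 1 / 2 := by
    refine hx2.trans ?_
    calc ((1:ℝ) / 2) ^ d ≤ (1 / 2) ^ 1 := pow_le_pow_of_le_one (by norm_num) (by norm_num) hd
      _ = 1 / 2 := by norm_num
  have hxy : x ≤ y := by
    rcases le_or_gt y 1 with h1 | h1
    · rw [hx, div_le_iff₀ (by positivity)]
      calc y ^ d ≤ y ^ 1 := pow_le_pow_of_le_one hy0.le h1 hd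
        _ = y * 1 := by ring
        _ ≤ y * d.factorial := by
          gcongr
          exact_mod_cast Nat.one_le_iff_ne_zero.mpr (Nat.factorial_ne_zero d)
    · linarith
  -- the double sum
  have h1 : ∑ t ∈ range (D + 1), wgt d D t * y ^ t ≤
      ∑ t ∈ range (D + 1), x ^ (t / d) * (y ^ (t % d) / (t % d).factorial) := by
    refine Finset.sum_le_sum fun t ht => ?_
    rw [Finset.mem_range] at ht
    have h2 := wgt_le hd (show t ≤ D by omega)
    calc wgt d D t * y ^ t ≤
        ((1 / (d.factorial : ℝ)) ^ (t / d) * (1 / ((t % d).factorial : ℝ))) * y ^ t := by gcongr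
      _ = ((1 / (d.factorial : ℝ)) ^ (t / d) * (1 / ((t % d).factorial : ℝ))) *
          y ^ (d * (t / d) + t % d) := by rw [Nat.div_add_mod]
      _ = x ^ (t / d) * (y ^ (t % d) / (t % d).factorial) := by
          rw [hx, pow_add, pow_mul, div_pow (y ^ d), one_div, one_div, inv_pow]
          ring
  have h3 : ∑ t ∈ range (D + 1), x ^ (t / d) * (y ^ (t % d) / (t % d).factorial) ≤
      ∑ p ∈ range (D + 1) ×ˢ range d, x ^ p.1 * (y ^ p.2 / p.2.factorial) := by
    rw [← Finset.sum_image (s := range (D + 1)) (g := fun t => (t / d, t % d))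
      (f := fun p : ℕ × ℕ => x ^ p.1 * (y ^ p.2 / p.2.factorial))]
    · apply Finset.sum_le_sum_of_subset_of_nonneg
      · intro p hp
        rw [Finset.mem_image] at hp
        obtain ⟨t, ht, rfl⟩ := hp
        rw [Finset.mem_range] at ht
        rw [Finset.mem_product, Finset.mem_range, Finset.mem_range]
        exact ⟨by have := Nat.div_le_self t d; dsimp only; omega, Nat.mod_lt t hd⟩
      · intro p _ _
        positivity
    · intro t _ t' _ h
      have h4 : t / d = t' / d := congrArg Prod.fst h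
      have h5 : t % d = t' % d := congrArg Prod.snd h
      rw [← Nat.div_add_mod t d, ← Nat.div_add_mod t' d, h4, h5]
  have h4 : ∑ p ∈ range (D + 1) ×ˢ range d, x ^ p.1 * (y ^ p.2 / p.2.factorial) =
      (∑ a ∈ range (D + 1), x ^ a) * ∑ b ∈ range d, y ^ b / b.factorial := by
    rw [Finset.sum_product, Finset.sum_mul_sum]
  have h5 : ∑ b ∈ range d, y ^ b / (b.factorial : ℝ) ≤ Real.exp y :=
    Real.sum_le_exp_of_nonneg hy0.le d
  have h6 : ∑ a ∈ range (D + 1), x ^ a ≤ Real.exp (2 * y) := by
    have h7 : ∑ a ∈ range (D + 1), x ^ a ≤ 1 / (1 - x) := by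
      rw [le_div_iff₀ (by linarith)]
      have := geom_sum_mul_neg x (D + 1)
      rw [this]
      linarith [pow_nonneg hx0 (D + 1)]
    have h8 : 1 / (1 - x) ≤ 1 + 2 * x := by
      rw [div_le_iff₀ (by linarith)]
      nlinarith
    have h9 := Real.add_one_le_exp (2 * y)
    linarith
  calc ∑ t ∈ range (D + 1), wgt d D t * y ^ t
      ≤ (∑ a ∈ range (D + 1), x ^ a) * ∑ b ∈ range d, y ^ b / (b.factorial : ℝ) :=
        (h1.trans h3).trans h4.le
    _ ≤ Real.exp (2 * y) * Real.exp y := by
        gcongr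
    _ = Real.exp (3 * y) := by rw [← Real.exp_add]; ring_nf

/-- the generating function of the types -/
theorem gen_types {k D d : ℕ} (hD : 1 ≤ D) (hd : 1 ≤ d) :
    ∑ τ ∈ finsuppAntidiag (univ : Finset (Fin k)) D,
      ∏ c, (1 / ((spl d D τ c).factorial : ℝ)) ≤
      (2 * Real.exp 4 * (1 / d + k / D)) ^ D := by
  rcases Nat.eq_zero_or_pos k with hk | hk
  · subst hk
    have h1 : finsuppAntidiag (univ : Finset (Fin 0)) D = ∅ := by
      rw [Finset.eq_empty_iff_forall_notMem]
      intro τ hτ
      rw [Finset.mem_finsuppAntidiag] at hτ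
      have := hτ.1
      simp at this
      omega
    rw [h1, Finset.sum_empty]
    positivity
  have hdR : (1 : ℝ) ≤ d := by exact_mod_cast hd
  have hDR : (1 : ℝ) ≤ D := by exact_mod_cast hD
  have hkR : (1 : ℝ) ≤ k := by exact_mod_cast hk
  have hkR' : (0 : ℝ) < k := by linarith
  have hE := Real.exp_pos 1
  have hE1 : (1 : ℝ) ≤ Real.exp 1 := by
    have := Real.add_one_le_exp (1 : ℝ); linarith
  set y : ℝ := min (d / (2 * Real.exp 1)) (D / k) with hy
  have hy0 : 0 < y := lt_min (by positivity) (by positivity)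
  have hy1 : y * (2 * Real.exp 1) ≤ d := by
    calc y * (2 * Real.exp 1) ≤ d / (2 * Real.exp 1) * (2 * Real.exp 1) := by
          gcongr
          exact min_le_left _ _
      _ = d := by field_simp
  have hy2 : y * k ≤ D := by
    calc y * k ≤ D / k * k := by
          gcongr
          exact min_le_right _ _
      _ = D := by field_simp
  have hyi : 1 / y ≤ 2 * Real.exp 1 * (1 / d + k / D) := by
    rcases min_choice (d / (2 * Real.exp 1)) ((D : ℝ) / k) with h | h
    · rw [hy, h]
      have : 1 / ((d : ℝ) / (2 * Real.exp 1)) = 2 * Real.exp 1 * (1 / d) := by field_simp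
      rw [this]
      gcongr
      linarith [show (0:ℝ) ≤ k / D by positivity]
    · rw [hy, h]
      have : 1 / ((D : ℝ) / k) = 1 * (k / D) := by field_simp
      rw [this]
      have h2 : (1 : ℝ) ≤ 2 * Real.exp 1 := by linarith
      have h3 : (0:ℝ) ≤ k / D := by positivity
      have h4 : (0:ℝ) ≤ 1 / d := by positivity
      nlinarith
  -- the main estimate
  have key : (∑ τ ∈ finsuppAntidiag (univ : Finset (Fin k)) D,
      ∏ i, wgt d D (τ i)) * y ^ D ≤ Real.exp (3 * y) ^ k := by
    rw [Finset.sum_mul]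
    have h1 : ∀ τ ∈ finsuppAntidiag (univ : Finset (Fin k)) D,
        (∏ i, wgt d D (τ i)) * y ^ D = ∏ i, (wgt d D (τ i) * y ^ (τ i)) := by
      intro τ hτ
      rw [Finset.mem_finsuppAntidiag] at hτ
      rw [Finset.prod_mul_distrib, Finset.prod_pow_eq_pow_sum, hτ.1]
    rw [Finset.sum_congr rfl h1]
    calc ∑ τ ∈ finsuppAntidiag (univ : Finset (Fin k)) D, ∏ i, (wgt d D (τ i) * y ^ (τ i))
        = ∑ f ∈ (finsuppAntidiag (univ : Finset (Fin k)) D).image
              (fun τ : Fin k →₀ ℕ => (fun i => τ i : Fin k → ℕ)),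
            ∏ i, (wgt d D (f i) * y ^ (f i)) := by
          rw [Finset.sum_image]
          intro τ _ τ' _ h
          exact Finsupp.ext fun i => congrFun h i
      _ ≤ ∑ f ∈ Fintype.piFinset (fun _ : Fin k => range (D + 1)),
            ∏ i, (wgt d D (f i) * y ^ (f i)) := by
          apply Finset.sum_le_sum_of_subset_of_nonneg
          · intro f hf
            rw [Finset.mem_image] at hf
            obtain ⟨τ, hτ, rfl⟩ := hf
            rw [Finset.mem_finsuppAntidiag] at hτ
            rw [Fintype.mem_piFinset]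
            intro i
            rw [Finset.mem_range]
            have h2 : τ i ≤ ∑ j, τ j := Finset.single_le_sum (f := fun j => τ j)
              (fun _ _ => Nat.zero_le _) (Finset.mem_univ i)
            have h3 : ∑ j, τ j = D := hτ.1
            rw [h3] at h2
            exact Nat.lt_succ_of_le h2
          · intro f _ _
            exact Finset.prod_nonneg fun i _ => mul_nonneg (wgt_nonneg _ _ _) (by positivity)
      _ = ∏ _i : Fin k, ∑ t ∈ range (D + 1), wgt d D t * y ^ t := by
          rw [Finset.prod_univ_sum]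
      _ ≤ ∏ _i : Fin k, Real.exp (3 * y) := by
          apply Finset.prod_le_prod
          · intro i _
            exact Finset.sum_nonneg fun t _ => mul_nonneg (wgt_nonneg _ _ _) (by positivity)
          · intro i _
            exact sum_wgt_le hd hy0 hy1
      _ = Real.exp (3 * y) ^ k := by
          rw [Finset.prod_const, Finset.card_univ, Fintype.card_fin]
  have hexp : Real.exp (3 * y) ^ k ≤ Real.exp 3 ^ D := by
    rw [← Real.exp_nat_mul, ← Real.exp_nat_mul]
    apply Real.exp_le_exp.mpr
    nlinarith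
  have hyD : 0 < y ^ D := pow_pos hy0 D
  simp only [prod_spl]
  calc ∑ τ ∈ finsuppAntidiag (univ : Finset (Fin k)) D, ∏ i, wgt d D (τ i)
      ≤ Real.exp 3 ^ D / y ^ D := by
        rw [le_div_iff₀ hyD]
        exact key.trans hexp
    _ = (Real.exp 3 * (1 / y)) ^ D := by rw [mul_pow, one_div, inv_pow]; rfl
    _ ≤ (2 * Real.exp 4 * (1 / d + k / D)) ^ D := by
        apply pow_le_pow_left₀ (by positivity)
        calc Real.exp 3 * (1 / y) ≤ Real.exp 3 * (2 * Real.exp 1 * (1 / d + k / D)) := by gcongr
          _ = 2 * (Real.exp 3 * Real.exp 1) * (1 / d + k / D) := by ring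
          _ = 2 * Real.exp 4 * (1 / d + k / D) := by rw [← Real.exp_add]; norm_num

end Pool.FD
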