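import Pool.Agent.FD.CountTyp
import Pool.Agent.FD.GenFun

/-!
# Functions of determinants: the count of the products of cells, with copies
-/

set_option autoImplicit false

open Finset

namespace Pool.FD

theorem count2_explicit (k m D d : ℕ) (hD : 1 ≤ D) (hd : 1 ≤ d) (th : ℝ) (h0 : 0 ≤ th)
    (h1 : th ≤ 1) :
    ∑ γ ∈ GG k D, ∑ e : Idx2 (k := k * D) (m := m + 1) D (TG d D γ), th ^ (fbs e.1).card ≤
      (8 * Real.exp 4 * ((m + 1) * th + 2 * d + 1) ^ 2 * (1 / d + k / D)) ^ D := by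
  refine (count2_aux k m D d hd th h0 h1).trans ?_
  have h2 := gen_types (k := k) hD hd
  calc (4 * (((m : ℝ) + 1) * th + 2 * d + 1) ^ 2) ^ D *
        ∑ τ ∈ finsuppAntidiag (univ : Finset (Fin k)) D,
          ∏ c, (1 / ((spl d D τ c).factorial : ℝ))
      ≤ (4 * (((m : ℝ) + 1) * th + 2 * d + 1) ^ 2) ^ D *
        (2 * Real.exp 4 * (1 / d + k / D)) ^ D := by gcongr
    _ = _ := by
      rw [← mul_pow]
      congr 1
      ring

end Pool.FD
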