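import Pool.Agent.FD.Defs2
import Pool.Agent.FD.Count
import Pool.Agent.Helper69.FD.Count2

/-!
Functions of determinants, row F4' (first part): the count over the copies, reduced to a sum over
the types.
-/

open MvPolynomial Finset

namespace Pool.FD

/-- products of cells with the type `σ` -/
theorem typ_count_cell (k m : ℕ) (σ : Fin k →₀ ℕ) (θ : ℝ) (h0 : 0 ≤ θ) (h1 : θ ≤ 1)
    (S : Finset (Cell k (m + 1) →₀ ℕ)) (hS : ∀ e ∈ S, typ e = σ) :
    ∑ e ∈ S, θ ^ (fbs e).card ≤
      ∏ c, ((2 * ((m + 1) * θ + 2 * σ c + 1) ^ 2) ^ σ c / ((σ c).factorial : ℝ)) := by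
  classical
  have hlast : (univ.filter fun a : Fin (m + 1) => ¬ (a ≠ Fin.last m)).card ≤ 1 := by
    rw [Finset.card_le_one]
    intro a ha b hb
    have h2 := (mem_filter.1 ha).2
    have h3 := (mem_filter.1 hb).2
    rw [not_not] at h2 h3
    rw [h2, h3]
  have key := typ_count (I := Fin k) (α := Fin (m + 1)) (okR := fun a => a ≠ Fin.last m)
    (okC := fun b => b ≠ Fin.last m) (r := rr) (c := cc) (by
      intro x
      unfold rr
      split_ifs <;> exact ⟨rfl, rfl⟩) (by
      intro x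
      unfold cc
      split_ifs <;> exact ⟨rfl, rfl⟩) (by
      intro x hx hx' h
      unfold rr cc at h
      rw [dif_neg hx, dif_neg hx'] at h
      have h2 := congrArg (fun z : Cell k (m + 1) => z.2.2) h
      exact Fin.succAbove_ne _ _ h2) hlast hlast h0 h1 (⇑σ)
  rw [Fintype.card_fin] at key
  push_cast at key
  refine le_trans ?_ key
  have h2 : ∑ e ∈ S, θ ^ (fbs e).card
      = ∑ e ∈ S.image (fun e : Cell k (m + 1) →₀ ℕ => (⇑e : Cell k (m + 1) → ℕ)),
        θ ^ (Forb (fun a => a ≠ Fin.last m) (fun b => b ≠ Fin.last m) rr cc e).card := by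
    rw [Finset.sum_image (fun a _ b _ h => DFunLike.coe_injective h)]
    exact Finset.sum_congr rfl fun e _ => by rw [fbs_eq]
  rw [h2]
  refine Finset.sum_le_sum_of_subset_of_nonneg ?_ fun _ _ _ => pow_nonneg h0 _
  intro e he
  obtain ⟨e', he', rfl⟩ := mem_image.1 he
  rw [mem_tySet]
  intro i
  rw [← typ_apply, hS e' he']

lemma spl_sum {d D : ℕ} (hd : 1 ≤ d) (t : ℕ) (ht : t ≤ D) :
    ∑ s : Fin D, min d (t - s * d) = t := by
  have key : ∀ n : ℕ, ∑ s ∈ range n, min d (t - s * d) = min t (n * d) := by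
    intro n
    induction n with
    | zero => simp
    | succ n ih =>
      rw [sum_range_succ, ih, Nat.succ_mul]
      omega
  have h := key D
  rw [Finset.sum_range] at h
  rw [h]
  have : D ≤ D * d := Nat.le_mul_of_pos_right D hd
  omega

lemma spl_degree {k d D : ℕ} (hd : 1 ≤ d) (τ : Fin k →₀ ℕ) (hτ : τ.degree = D) :
    ∑ c, spl d D τ c = D := by
  have h1 : ∑ c : Fin (k * D), spl d D τ c
      = ∑ p : Fin k × Fin D, min d (τ p.1 - p.2 * d) := by
    rw [← Equiv.sum_comp finProdFinEquiv]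
    refine Finset.sum_congr rfl fun p _ => ?_
    change min d (τ (finProdFinEquiv.symm (finProdFinEquiv p)).1
      - (finProdFinEquiv.symm (finProdFinEquiv p)).2 * d) = _
    rw [Equiv.symm_apply_apply]
  rw [h1, Fintype.sum_prod_type]
  have h2 : ∀ i, τ i ≤ D := fun i => by
    rw [← hτ]
    exact Finsupp.le_degree i τ
  rw [Finset.sum_congr rfl fun i _ => spl_sum hd (τ i) (h2 i), ← hτ,
    Finsupp.degree_eq_sum]

/-- **count over the copies**, reduced to a sum over the types -/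
theorem count2_aux (k m D d : ℕ) (hd : 1 ≤ d) (θ : ℝ) (h0 : 0 ≤ θ) (h1 : θ ≤ 1) :
    ∑ γ ∈ GG k D, ∑ e : Idx2 (k := k * D) (m := m + 1) D (TG d D γ), θ ^ (fbs e.1).card ≤
      (4 * ((m + 1) * θ + 2 * d + 1) ^ 2) ^ D *
        ∑ τ ∈ finsuppAntidiag (univ : Finset (Fin k)) D,
          ∏ c, (1 / ((spl d D τ c).factorial : ℝ)) := by
  classical
  set G : ℝ := 2 * ((m + 1) * θ + 2 * d + 1) ^ 2 with hG
  have hG0 : 0 ≤ G := by positivity
  set w : (Fin k →₀ ℕ) → ℝ := fun τ => ∏ c, (1 / ((spl d D τ c).factorial : ℝ)) with hw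
  have hw0 : ∀ τ, 0 ≤ w τ := fun τ => Finset.prod_nonneg fun c _ => by positivity
  -- one type
  have hone : ∀ τ : Fin k →₀ ℕ, τ.degree = D →
      ∀ S : Finset (Cell (k * D) (m + 1) →₀ ℕ), (∀ e ∈ S, typ e = spl d D τ) →
      ∑ e ∈ S, θ ^ (fbs e).card ≤ G ^ D * w τ := by
    intro τ hτ S hS
    refine (typ_count_cell _ m _ θ h0 h1 S hS).trans ?_
    have h2 : G ^ D * w τ = ∏ c, (G ^ (spl d D τ c) / ((spl d D τ c).factorial : ℝ)) := by
      rw [hw]
      simp only [div_eq_mul_inv, one_mul]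
      rw [Finset.prod_mul_distrib, Finset.prod_pow_eq_pow_sum, spl_degree hd τ hτ]
    rw [h2]
    refine Finset.prod_le_prod (fun c _ => by positivity) fun c _ => ?_
    refine div_le_div_of_nonneg_right ?_ (by positivity)
    refine pow_le_pow_left₀ (by positivity) ?_ _
    have h3 : spl d D τ c ≤ d := min_le_left _ _
    have h4 : ((spl d D τ c : ℕ) : ℝ) ≤ d := by exact_mod_cast h3
    have h5 : (0 : ℝ) ≤ (m + 1) * θ := by positivity
    refine mul_le_mul_of_nonneg_left (pow_le_pow_left₀ (by positivity) (by linarith) 2)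
      (by norm_num)
  -- one `γ`
  have hγ : ∀ γ : Fin k →₀ ℕ,
      ∑ e : Idx2 (k := k * D) (m := m + 1) D (TG d D γ), θ ^ (fbs e.1).card
        ≤ ∑ τ ∈ finsuppAntidiag (univ : Finset (Fin k)) D with γ ≤ τ, G ^ D * w τ := by
    intro γ
    have h2 : ∀ e : Idx2 (k := k * D) (m := m + 1) D (TG d D γ),
        ∃ τ : Fin k →₀ ℕ, γ ≤ τ ∧ τ.degree = D ∧ typ e.1 = spl d D τ := fun e => e.2.2
    choose T hT1 hT2 hT3 using h2
    have hmem : ∀ e, T e ∈ (finsuppAntidiag (univ : Finset (Fin k)) D).filter fun τ => γ ≤ τ := by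
      intro e
      rw [mem_filter, mem_finsuppAntidiag]
      refine ⟨⟨?_, fun _ _ => mem_univ _⟩, hT1 e⟩
      rw [← hT2 e, Finsupp.degree_eq_sum]
    rw [← Finset.sum_fiberwise_of_maps_to (s := univ) (g := T) (fun e _ => hmem e)]
    refine Finset.sum_le_sum fun τ hτ => ?_
    rw [mem_filter, mem_finsuppAntidiag] at hτ
    have hτD : τ.degree = D := by
      rw [Finsupp.degree_eq_sum]
      exact hτ.1.1
    have h3 : ∑ e ∈ (univ : Finset (Idx2 (k := k * D) (m := m + 1) D (TG d D γ))) with T e = τ,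
        θ ^ (fbs e.1).card
        = ∑ e ∈ ((univ : Finset (Idx2 (k := k * D) (m := m + 1) D (TG d D γ))).filter
            fun e => T e = τ).image (fun e => e.1), θ ^ (fbs e).card := by
      rw [Finset.sum_image]
      intro a _ b _ h
      exact Subtype.ext h
    rw [h3]
    refine hone τ hτD _ ?_
    intro e he
    obtain ⟨e', he', rfl⟩ := mem_image.1 he
    rw [hT3 e', (mem_filter.1 he').2]
  refine (Finset.sum_le_sum fun γ _ => hγ γ).trans ?_
  have h4 : ∑ γ ∈ GG k D, ∑ τ ∈ finsuppAntidiag (univ : Finset (Fin k)) D with γ ≤ τ, G ^ D * w τ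
      = ∑ τ ∈ finsuppAntidiag (univ : Finset (Fin k)) D,
        (((GG k D).filter fun γ => γ ≤ τ).card : ℝ) * (G ^ D * w τ) := by
    simp only [Finset.sum_filter]
    rw [Finset.sum_comm]
    refine Finset.sum_congr rfl fun τ _ => ?_
    rw [← Finset.sum_filter, Finset.sum_const, nsmul_eq_mul]
  rw [h4, Finset.mul_sum]
  refine Finset.sum_le_sum fun τ hτ => ?_
  have hτD : ∑ i, τ i = D := (mem_finsuppAntidiag.1 hτ).1
  have h5 : (((GG k D).filter fun γ => γ ≤ τ).card : ℝ) ≤ 2 ^ D := by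
    have h6 : ((GG k D).filter fun γ => γ ≤ τ).card ≤ ∏ i : Fin k, (τ i + 1) := by
      have h7 : (((GG k D).filter fun γ => γ ≤ τ).image fun γ : Fin k →₀ ℕ => (⇑γ : Fin k → ℕ))
          ⊆ Fintype.piFinset fun i => range (τ i + 1) := by
        intro g hg
        obtain ⟨γ, hγ', rfl⟩ := mem_image.1 hg
        rw [Fintype.mem_piFinset]
        intro i
        rw [mem_range]
        have := (mem_filter.1 hγ').2 i
        omega
      have h8 := card_le_card h7
      rw [Finset.card_image_of_injective _ (fun a b h => DFunLike.coe_injective h),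
        Fintype.card_piFinset] at h8
      simpa only [card_range] using h8
    have h9 : ∏ i : Fin k, (τ i + 1) ≤ ∏ i : Fin k, 2 ^ τ i :=
      Finset.prod_le_prod' fun i _ => Nat.lt_two_pow_self
    rw [Finset.prod_pow_eq_pow_sum, hτD] at h9
    exact_mod_cast h6.trans h9
  have h10 : (4 * ((m + 1 : ℝ) * θ + 2 * d + 1) ^ 2) ^ D = 2 ^ D * G ^ D := by
    rw [← mul_pow, hG]
    congr 1
    ring
  rw [h10, mul_assoc]
  exact mul_le_mul_of_nonneg_right h5 (mul_nonneg (pow_nonneg hG0 _) (hw0 τ))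

end Pool.FD
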