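import Pool.Agent.SDD.Asm

/-!
Functions of determinants (FD), MP_381749_lc: shared definitions.
-/

open MvPolynomial Finset
open scoped BigOperators ENNReal

namespace Pool.FD

/-- cells: matrix, row, column -/
abbrev Cell (k m : ℕ) := Fin k × Fin m × Fin m

/-- number of cells of a multiset in each of the matrices -/
noncomputable def typ {k m : ℕ} (e : Cell k m →₀ ℕ) : Fin k →₀ ℕ := e.mapDomain Prod.fst

/-- the generic matrices -/
noncomputable def gmat (K : Type*) [CommRing K] (k m : ℕ) (i : Fin k) :
    Matrix (Fin m) (Fin m) (MvPolynomial (Cell k m) K) :=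
  Matrix.of fun a b => X (i, a, b)

/-- the product of the cofactors of the cells of `e`, times powers of the determinants:
`prod_i det_i ^ (D - typ e i) * prod_(i, a, b) (adj_i b a) ^ e (i, a, b)` -/
noncomputable def pg (K : Type*) [CommRing K] {k m : ℕ} (D : ℕ) (e : Cell k m →₀ ℕ) :
    MvPolynomial (Cell k m) K :=
  (∏ i, (gmat K k m i).det ^ (D - typ e i)) *
    e.prod fun c s => ((gmat K k m c.1).adjugate c.2.2 c.2.1) ^ s

/-- product of the cells of the inverses -/
noncomputable def bprod {S : Type*} [Field S] {k m : ℕ} (A : Fin k → Matrix (Fin m) (Fin m) S)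
    (e : Cell k m →₀ ℕ) : S :=
  e.prod fun c s => ((A c.1)⁻¹ c.2.2 c.2.1) ^ s

/-- `c` is a system of partial derivatives of `c 0` with respect to `f`, for all derivations `d u` -/
def IsJet {K S U : Type*} [Field K] [Field S] [Algebra K S] {k : ℕ} (d : U → Derivation K S S)
    (f : Fin k → S) (c : (Fin k →₀ ℕ) → S) : Prop :=
  ∀ γ u, d u (c γ) = ∑ i, c (γ + Finsupp.single i 1) * d u (f i)

/-- the span of the products of order `D` in the closure lemma -/
noncomputable def NN (K : Type*) {S : Type*} [Field K] [Field S] [Algebra K S] {k m : ℕ}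
    (A : Fin k → Matrix (Fin m) (Fin m) S) (c : (Fin k →₀ ℕ) → S) (D : ℕ) : Submodule K S :=
  Submodule.span K {x | ∃ (γ : Fin k →₀ ℕ) (e : Cell k m →₀ ℕ), e.degree = D ∧ γ ≤ typ e ∧
    x = c γ * (γ.prod fun i s => (A i).det ^ s) * bprod A e}

/-- iterated derivatives -/
def iter {K S U : Type*} [Field K] [CommRing S] [Algebra K S] (d : U → Derivation K S S)
    (l : List U) (x : S) : S :=
  l.foldr (fun u y => d u y) x

/-- the index set of the products of cofactors -/
def Idx {k m : ℕ} (D : ℕ) (γ : Fin k →₀ ℕ) :=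
  {e : Cell k m →₀ ℕ // e.degree = D ∧ γ ≤ typ e}

noncomputable instance {k m : ℕ} (D : ℕ) (γ : Fin k →₀ ℕ) :
    Fintype (Idx (k := k) (m := m) D γ) := by
  classical
  have h0 : Finite {μ : Cell k m →₀ ℕ // μ.degree ≤ D} := Pool.SDD.finite_degree_le (Cell k m) D
  have h : Finite (Idx (k := k) (m := m) D γ) := by
    refine Finite.of_injective (β := {μ : Cell k m →₀ ℕ // μ.degree ≤ D})
      (fun e => ⟨e.1, e.2.1.le⟩) ?_
    intro a b hab
    have h2 := congrArg (fun x : {μ : Cell k m →₀ ℕ // μ.degree ≤ D} => x.1) hab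
    exact Subtype.ext h2
  exact Fintype.ofFinite _

/-- the possible orders of derivatives -/
noncomputable def GG (k D : ℕ) : Finset (Fin k →₀ ℕ) :=
  (Finset.range (D + 1)).biUnion fun s => Finset.finsuppAntidiag Finset.univ s

/-- the forbidden cells of one cofactor -/
def fb {k m : ℕ} (x : Cell k (m + 1)) : Finset (Cell k (m + 1)) :=
  (if h : x.2.1 = Fin.last m then ∅ else {(x.1, x.2.1, x.2.2.succAbove (x.2.1.castPred h))}) ∪
    (if h : x.2.2 = Fin.last m then ∅ else {(x.1, x.2.1.succAbove (x.2.2.castPred h), x.2.2)})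

/-- the forbidden cells of a product of cofactors -/
noncomputable def fbs {k m : ℕ} (e : Cell k (m + 1) →₀ ℕ) : Finset (Cell k (m + 1)) :=
  e.support.biUnion fb

/-- directional derivative in a constant direction -/
noncomputable def dirD {K X₀ : Type*} [CommRing K] (u : X₀ → K) :
    Derivation K (MvPolynomial X₀ K) (MvPolynomial X₀ K) :=
  mkDerivation K fun x => C (u x)

/-- the shifted substitution `x ↦ x + φ x`, the coefficients being rational functions -/
noncomputable def shift {E X₀ Y : Type*} [Field E] (φ : X₀ → MvPolynomial Y E) :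
    MvPolynomial X₀ E →ₐ[E] MvPolynomial Y (FractionRing (MvPolynomial X₀ E)) :=
  aeval fun x => C (algebraMap (MvPolynomial X₀ E) (FractionRing (MvPolynomial X₀ E)) (X x)) +
    MvPolynomial.map (algebraMap E (FractionRing (MvPolynomial X₀ E))) (φ x)

end Pool.FD
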