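import Pool.Agent.FD.Defs

/-!
Functions of determinants (FD): copies of the matrices.
-/

open MvPolynomial Finset
open scoped BigOperators ENNReal

namespace Pool.FD

/-- products of `D` cells with type in a given set -/
def Idx2 {k m : ℕ} (D : ℕ) (TT : Set (Fin k →₀ ℕ)) :=
  {e : Cell k m →₀ ℕ // e.degree = D ∧ typ e ∈ TT}

noncomputable instance {k m : ℕ} (D : ℕ) (TT : Set (Fin k →₀ ℕ)) :
    Fintype (Idx2 (k := k) (m := m) D TT) := by
  classical
  have h0 : Finite {μ : Cell k m →₀ ℕ // μ.degree ≤ D} := Pool.SDD.finite_degree_le (Cell k m) D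
  have h : Finite (Idx2 (k := k) (m := m) D TT) := by
    refine Finite.of_injective (β := {μ : Cell k m →₀ ℕ // μ.degree ≤ D})
      (fun e => ⟨e.1, e.2.1.le⟩) ?_
    intro a b hab
    have h2 := congrArg (fun x : {μ : Cell k m →₀ ℕ // μ.degree ≤ D} => x.1) hab
    exact Subtype.ext h2
  exact Fintype.ofFinite _

/-- the matrix of which `c` is a copy -/
def orig {k D : ℕ} (c : Fin (k * D)) : Fin k := (finProdFinEquiv.symm c).1

/-- greedy distribution over the copies, at most `d` for each copy -/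
noncomputable def spl {k : ℕ} (d D : ℕ) (τ : Fin k →₀ ℕ) : Fin (k * D) →₀ ℕ :=
  Finsupp.equivFunOnFinite.symm fun c =>
    min d (τ (finProdFinEquiv.symm c).1 - (finProdFinEquiv.symm c).2 * d)

/-- the types used for the derivative `γ` -/
def TG {k : ℕ} (d D : ℕ) (γ : Fin k →₀ ℕ) : Set (Fin (k * D) →₀ ℕ) :=
  {τ' | ∃ τ : Fin k →₀ ℕ, γ ≤ τ ∧ τ.degree = D ∧ τ' = spl d D τ}

end Pool.FD
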