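import Pool.Agent.FD.PfRed
import Pool.Agent.FD.Defs2
import Pool.Agent.PF.Matrix

/-!
Functions of Pfaffians (FD, second wave): shared definitions.
-/

open MvPolynomial Finset
open scoped BigOperators ENNReal

namespace Pool.FDP

open Pool.PF

instance finite_oe (m N : ℕ) : Finite (Fin (2 * m) ↪o Fin N) :=
  Finite.of_injective (fun f => (f : Fin (2 * m) → Fin N)) DFunLike.coe_injective

/-- products of `D` labels with type in a given set -/
def PIdx {k N m : ℕ} (D : ℕ) (TT : Set (Fin k →₀ ℕ)) :=
  {e : PLab k N m →₀ ℕ // e.degree = D ∧ atyp Prod.fst e ∈ TT}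

noncomputable instance {k N m : ℕ} (D : ℕ) (TT : Set (Fin k →₀ ℕ)) :
    Fintype (PIdx (k := k) (N := N) (m := m) D TT) := by
  classical
  have h0 : Finite {μ : PLab k N m →₀ ℕ // μ.degree ≤ D} :=
    Pool.SDD.finite_degree_le (PLab k N m) D
  have h : Finite (PIdx (k := k) (N := N) (m := m) D TT) := by
    refine Finite.of_injective (β := {μ : PLab k N m →₀ ℕ // μ.degree ≤ D})
      (fun e => ⟨e.1, e.2.1.le⟩) ?_
    intro a b hab
    have h2 := congrArg (fun x : {μ : PLab k N m →₀ ℕ // μ.degree ≤ D} => x.1) hab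
    exact Subtype.ext h2
  exact Fintype.ofFinite _

/-- the forbidden cells of a product of sub-Pfaffians -/
noncomputable def pfbs {k N m : ℕ} (e : PLab k N m →₀ ℕ) : Finset (PCell k N) := by
  classical
  exact e.support.biUnion pfb

/-- sub-Pfaffians divided by the Pfaffian (entries of the inverse, up to sign) -/
noncomputable def bpf {S : Type*} [Field S] {m : ℕ}
    (A : Matrix (Fin (2 * (m + 1))) (Fin (2 * (m + 1))) S)
    (f : Fin (2 * m) ↪o Fin (2 * (m + 1))) : S :=
  pfk A m (List.ofFn f) / pf (m + 1) A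

end Pool.FDP
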