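import Pool.Agent.SDD.Defs

/-!
Functions of Pfaffians (FD, second wave): rewriting of products, abstract form.

A family `cof : B → K[E]` with labels of type `ty : B → ι`, such that a forbidden variable times a
member of the family is a combination of products of a variable and a member, of the same type and
with a smaller weight.  Then the products of members of the family, multiplied with powers of other
polynomials which depend on the type only, are reducible, too.
-/

set_option autoImplicit false

open MvPolynomial Finset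

namespace Pool.FDP

variable {K : Type*} [Field K] {E B ι : Type*} [Fintype ι]

/-- type of a multiset of labels -/
noncomputable def atyp (ty : B → ι) (e : B →₀ ℕ) : ι →₀ ℕ := e.mapDomain ty

/-- products, homogenised with the polynomials `F` -/
noncomputable def apg (F : ι → MvPolynomial E K) (ty : B → ι) (cof : B → MvPolynomial E K) (D : ℕ)
    (e : B →₀ ℕ) : MvPolynomial E K :=
  (∏ i, F i ^ (D - atyp ty e i)) * e.prod fun c s => cof c ^ s

/-- measure of a product -/
noncomputable def amu (wt : E → ℕ) (dg idx : B → ℕ) (ν : E →₀ ℕ) (e : B →₀ ℕ) : ℕ ×ₗ ℕ :=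
  toLex ((ν.sum fun x s => s * wt x) + (e.sum fun x s => s * dg x), e.sum fun x s => s * idx x)

/-- one step of the rewriting -/
def StepRel (ty : B → ι) (cof : B → MvPolynomial E K) (fb : B → Finset E) (wt : E → ℕ)
    (dg idx : B → ℕ) : Prop :=
  ∀ x, ∀ y ∈ fb x, X y * cof x ∈ Submodule.span K {p : MvPolynomial E K | ∃ (y' : E) (x' : B),
    ty x' = ty x ∧ (wt y' + dg x' < wt y + dg x ∨
      (wt y' + dg x' = wt y + dg x ∧ idx x' < idx x)) ∧ p = X y' * cof x'}

lemma sum_add' {σ : Type*} (w : σ → ℕ) (y : σ) (v : σ →₀ ℕ) :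
    ((Finsupp.single y 1 + v : σ →₀ ℕ).sum fun x s => s * w x) =
      w y + v.sum fun x s => s * w x := by
  classical
  rw [Finsupp.sum_add_index' (fun _ => zero_mul _) (fun _ _ _ => add_mul _ _ _),
    Finsupp.sum_single_index (zero_mul _), one_mul]

lemma atyp_add (ty : B → ι) (x : B) (e : B →₀ ℕ) :
    atyp ty (Finsupp.single x 1 + e) = Finsupp.single (ty x) 1 + atyp ty e := by
  rw [atyp, Finsupp.mapDomain_add, Finsupp.mapDomain_single]
  rfl

lemma aprod_add (cof : B → MvPolynomial E K) (x : B) (e : B →₀ ℕ) :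
    ((Finsupp.single x 1 + e : B →₀ ℕ).prod fun c s => cof c ^ s) =
      cof x * e.prod fun c s => cof c ^ s := by
  classical
  rw [Finsupp.prod_add_index (fun c _ => pow_zero _) (fun c _ s t => pow_add _ s t),
    Finsupp.prod_single_index (h := fun c s => cof c ^ s) (pow_zero _), pow_one]

lemma apg_add (F : ι → MvPolynomial E K) (ty : B → ι) (cof : B → MvPolynomial E K) (D : ℕ)
    (x : B) (e : B →₀ ℕ) :
    apg F ty cof D (Finsupp.single x 1 + e) =
      cof x * ((∏ i, F i ^ (D - (Finsupp.single (ty x) 1 + atyp ty e : ι →₀ ℕ) i)) *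
        e.prod fun c s => cof c ^ s) := by
  rw [apg, atyp_add, aprod_add]
  ring

/-- products with the same degree, the same type and a smaller measure -/
def smaller (F : ι → MvPolynomial E K) (ty : B → ι) (cof : B → MvPolynomial E K) (wt : E → ℕ)
    (dg idx : B → ℕ) (D : ℕ) (ν : E →₀ ℕ) (e : B →₀ ℕ) : Set (MvPolynomial E K) :=
  {p | ∃ (ν' : E →₀ ℕ) (e' : B →₀ ℕ), ν'.degree = ν.degree ∧ e'.degree = e.degree ∧
    atyp ty e' = atyp ty e ∧ amu wt dg idx ν' e' < amu wt dg idx ν e ∧
    p = monomial ν' 1 * apg F ty cof D e'}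

lemma step {F : ι → MvPolynomial E K} {ty : B → ι} {cof : B → MvPolynomial E K}
    {fb : B → Finset E} {wt : E → ℕ} {dg idx : B → ℕ} (h : StepRel ty cof fb wt dg idx)
    {x : B} {y : E} (hy : y ∈ fb x) (D : ℕ) (v : E →₀ ℕ) (e : B →₀ ℕ) :
    monomial (Finsupp.single y 1 + v) (1 : K) * apg F ty cof D (Finsupp.single x 1 + e) ∈
      Submodule.span K (smaller F ty cof wt dg idx D (Finsupp.single y 1 + v)
        (Finsupp.single x 1 + e)) := by
  have e1 : ∀ y : E, monomial (Finsupp.single y 1 + v) (1 : K) =
      X y * monomial v 1 := fun y => by rw [X, monomial_mul, one_mul]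
  set Q : MvPolynomial E K := (∏ i, F i ^ (D - (Finsupp.single (ty x) 1 + atyp ty e : ι →₀ ℕ) i)) *
        e.prod fun c s => cof c ^ s with hQ
  have key : monomial (Finsupp.single y 1 + v) (1 : K) * apg F ty cof D (Finsupp.single x 1 + e) =
      (X y * cof x) * (monomial v 1 * Q) := by
    rw [e1, apg_add]
    ring
  rw [key]
  have h2 := h x y hy
  generalize X y * cof x = z at h2 ⊢
  induction h2 using Submodule.span_induction with
  | mem p hp =>
    obtain ⟨y', x', h3, h4, rfl⟩ := hp
    refine Submodule.subset_span ⟨Finsupp.single y' 1 + v, Finsupp.single x' 1 + e, ?_, ?_, ?_,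
      ?_, ?_⟩
    · rw [map_add, map_add, Finsupp.degree_single, Finsupp.degree_single]
    · rw [map_add, map_add, Finsupp.degree_single, Finsupp.degree_single]
    · rw [atyp_add, atyp_add, h3]
    · unfold amu
      rw [Prod.Lex.toLex_lt_toLex]
      simp only [sum_add']
      rcases h4 with h | ⟨h, h'⟩
      · left; omega
      · right; constructor <;> omega
    · rw [e1, apg_add, h3, hQ]
      ring
  | zero => rw [zero_mul]; exact Submodule.zero_mem _
  | add p q _ _ hp hq => rw [add_mul]; exact Submodule.add_mem _ hp hq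
  | smul c p _ hp => rw [smul_mul_assoc]; exact Submodule.smul_mem _ _ hp

lemma exists_single_add {σ : Type*} (u : σ →₀ ℕ) {x : σ} (h : u x ≠ 0) :
    ∃ v, u = Finsupp.single x 1 + v := by
  classical
  refine exists_add_of_le (a := Finsupp.single x 1) (b := u) fun y => ?_
  rcases eq_or_ne y x with rfl | hy
  · simpa using Nat.one_le_iff_ne_zero.2 h
  · simp [Ne.symm hy]

/-- **rewriting of products** -/
theorem apg_reduces {F : ι → MvPolynomial E K} {ty : B → ι} {cof : B → MvPolynomial E K}
    {fb : B → Finset E} {wt : E → ℕ} {dg idx : B → ℕ} [DecidableEq E]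
    (h : StepRel ty cof fb wt dg idx) (D : ℕ) (TT : Set (ι →₀ ℕ)) :
    Pool.SDD.Reduces
      (fun e : {e : B →₀ ℕ // e.degree = D ∧ atyp ty e ∈ TT} => apg F ty cof D e.1)
      (fun e => e.1.support.biUnion fb) := by
  classical
  have main : ∀ (z : ℕ ×ₗ ℕ) (ν : E →₀ ℕ) (e : {e : B →₀ ℕ // e.degree = D ∧ atyp ty e ∈ TT}),
      amu wt dg idx ν e.1 = z → monomial ν (1 : K) * apg F ty cof D e.1 ∈ Submodule.span K
        {f | ∃ (ν' : E →₀ ℕ) (j : {e : B →₀ ℕ // e.degree = D ∧ atyp ty e ∈ TT}),
          ν'.degree = ν.degree ∧ Disjoint ν'.support (j.1.support.biUnion fb) ∧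
          f = monomial ν' 1 * apg F ty cof D j.1} := by
    intro z
    induction z using WellFoundedLT.induction with
    | ind z ih =>
      intro ν e hz
      by_cases hred : Disjoint ν.support (e.1.support.biUnion fb)
      · exact Submodule.subset_span ⟨ν, e, rfl, hred, rfl⟩
      · rw [Finset.disjoint_left] at hred
        push Not at hred
        obtain ⟨y, hy1, hy2⟩ := hred
        rw [Finset.mem_biUnion] at hy2
        obtain ⟨x, hx1, hx2⟩ := hy2
        obtain ⟨v, hv⟩ := exists_single_add ν (Finsupp.mem_support_iff.1 hy1)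
        obtain ⟨e1, he1⟩ := exists_single_add e.1 (Finsupp.mem_support_iff.1 hx1)
        have hmem : monomial ν (1 : K) * apg F ty cof D e.1 ∈
            Submodule.span K (smaller F ty cof wt dg idx D ν e.1) := by
          rw [hv, he1]
          exact step h hx2 D v e1
        refine Submodule.span_le.2 ?_ hmem
        rintro p ⟨ν', e', h1, h2, h3, h4, rfl⟩
        have := ih _ (hz ▸ h4) ν' ⟨e', h2.trans e.2.1, h3 ▸ e.2.2⟩ rfl
        rw [h1] at this
        exact this
  intro ν e
  exact main _ ν e rfl

end Pool.FDP
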