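import Pool.Agent.FD.Closure
import Pool.Agent.FD.ProdRed

/-!
Functions of Pfaffians (FD, second wave): the closure lemma, abstract form, with a filtration.
-/

open MvPolynomial Finset
open scoped BigOperators

namespace Pool.FDP

open Pool.FD (IsJet iter fprod_add fprod_single)

/-- a filtration adapted to derivations -/
structure Filt {K S U : Type*} [Field K] [Field S] [Algebra K S] (d : U → Derivation K S S) where
  /-- the steps -/
  Fil : ℕ → Submodule K S
  mono : ∀ {a b : ℕ}, a ≤ b → Fil a ≤ Fil b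
  mul : ∀ {a b : ℕ} {x y : S}, x ∈ Fil a → y ∈ Fil b → x * y ∈ Fil (a + b)
  one : (1 : S) ∈ Fil 0
  der : ∀ (u : U) {a : ℕ} {x : S}, x ∈ Fil (a + 1) → d u x ∈ Fil a
  der0 : ∀ (u : U) {x : S}, x ∈ Fil 0 → d u x = 0

section

variable {K S U L : Type*} [Field K] [Field S] [Algebra K S] {k M : ℕ}

/-- product of the labels -/
noncomputable def lprod (bL : L → S) (e : L →₀ ℕ) : S := e.prod fun x s => bL x ^ s

lemma lprod_zero (bL : L → S) : lprod bL 0 = 1 := Finsupp.prod_zero_index

lemma lprod_add (bL : L → S) (e e' : L →₀ ℕ) :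
    lprod bL (e + e') = lprod bL e * lprod bL e' := by
  classical
  unfold lprod
  rw [Finsupp.prod_add_index']
  · intro c; exact pow_zero _
  · intro c s t; exact pow_add _ _ _

lemma lprod_single (bL : L → S) (x : L) : lprod bL (Finsupp.single x 1) = bL x := by
  unfold lprod
  exact (Finsupp.prod_single_index (h := fun x s => bL x ^ s) (pow_zero _)).trans (pow_one _)

lemma atyp_add' (ty : L → Fin k) (e e' : L →₀ ℕ) : atyp ty (e + e') = atyp ty e + atyp ty e' :=
  Finsupp.mapDomain_add

lemma atyp_single (ty : L → Fin k) (x : L) (n : ℕ) :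
    atyp ty (Finsupp.single x n) = Finsupp.single (ty x) n := Finsupp.mapDomain_single

/-- combinations of products of the labels, coefficients in a submodule -/
def MM (F : Submodule K S) (ty : L → Fin k) (bL : L → S) (n : ℕ) (τ : Fin k →₀ ℕ) :
    Submodule K S :=
  Submodule.span K {x | ∃ (e : L →₀ ℕ) (r : S), e.degree = n ∧ τ ≤ atyp ty e ∧ r ∈ F ∧
    x = r * lprod bL e}

lemma MM_mono {F F' : Submodule K S} (h : F ≤ F') (ty : L → Fin k) (bL : L → S) (n : ℕ)
    {τ τ' : Fin k →₀ ℕ} (hτ : τ' ≤ τ) : MM F ty bL n τ ≤ MM F' ty bL n τ' := by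
  refine Submodule.span_mono ?_
  rintro x ⟨e, r, h1, h2, h3, rfl⟩
  exact ⟨e, r, h1, hτ.trans h2, h h3, rfl⟩

variable {d : U → Derivation K S S} (Φ : Filt d)

lemma mul_mem_MM (ty : L → Fin k) (bL : L → S) {a s n : ℕ} {τ : Fin k →₀ ℕ} {r x : S}
    (e : L →₀ ℕ) (hr : r ∈ Φ.Fil a) (hx : x ∈ MM (Φ.Fil s) ty bL n τ) :
    r * lprod bL e * x ∈ MM (Φ.Fil (a + s)) ty bL (e.degree + n) (atyp ty e + τ) := by
  unfold MM at hx
  induction hx using Submodule.span_induction with
  | mem y hy =>
    obtain ⟨e', r', h1, h2, h3, rfl⟩ := hy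
    refine Submodule.subset_span ⟨e + e', r * r', by rw [map_add, h1], ?_, Φ.mul hr h3, ?_⟩
    · rw [atyp_add']
      gcongr
    · rw [lprod_add]; ring
  | zero => rw [mul_zero]; exact Submodule.zero_mem _
  | add x y _ _ hx hy => rw [mul_add]; exact Submodule.add_mem _ hx hy
  | smul a x _ hx => rw [mul_smul_comm]; exact Submodule.smul_mem _ _ hx

/-- the data of the closure lemma -/
structure CData (Φ : Filt d) (δ : ℕ) (A : Fin k → Matrix (Fin M) (Fin M) S) (f : Fin k → S) (ty : L → Fin k)
    (bL : L → S) (κ : K) : Prop where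
  hδ : 1 ≤ δ
  hf : ∀ i, f i ≠ 0
  hA : ∀ i, (A i).det ≠ 0
  hdeg : ∀ i a b, A i a b ∈ Φ.Fil δ
  hE : ∀ i a b, (A i)⁻¹ a b = 0 ∨ ∃ x, ty x = i ∧ ((A i)⁻¹ a b = bL x ∨ (A i)⁻¹ a b = - bL x)
  hE' : ∀ x, ∃ a b, bL x = (A (ty x))⁻¹ a b ∨ bL x = - (A (ty x))⁻¹ a b
  hD : ∀ u i, d u (f i) = f i * ∑ a, ∑ b, κ • ((A i)⁻¹ b a * d u (A i a b))

variable {Φ} {δ : ℕ} {A : Fin k → Matrix (Fin M) (Fin M) S} {f : Fin k → S} {ty : L → Fin k}
    {bL : L → S} {κ : K} (H : CData Φ δ A f ty bL κ)

include H

/-- an entry of the inverse -/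
lemma inv_mem (i : Fin k) (a b : Fin M) :
    (A i)⁻¹ a b ∈ MM (Φ.Fil 0) ty bL 1 (Finsupp.single i 1) := by
  rcases H.hE i a b with h | ⟨x, hx, h | h⟩
  · rw [h]; exact Submodule.zero_mem _
  · rw [h]
    refine Submodule.subset_span ⟨Finsupp.single x 1, 1, Finsupp.degree_single _ _, ?_, Φ.one, ?_⟩
    · rw [atyp_single, hx]
    · rw [lprod_single, one_mul]
  · rw [h]
    refine Submodule.neg_mem _
      (Submodule.subset_span ⟨Finsupp.single x 1, 1, Finsupp.degree_single _ _, ?_, Φ.one, ?_⟩)
    · rw [atyp_single, hx]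
    · rw [lprod_single, one_mul]

/-- an entry of the inverse times a coefficient -/
lemma inv_mul_mem (i : Fin k) (a b : Fin M) {s n : ℕ} {τ : Fin k →₀ ℕ} {r x : S} (hr : r ∈ Φ.Fil s)
    {t : ℕ} (hx : x ∈ MM (Φ.Fil t) ty bL n τ) :
    (A i)⁻¹ a b * r * x ∈ MM (Φ.Fil (s + t)) ty bL (1 + n) (Finsupp.single i 1 + τ) := by
  have h1 := inv_mem H i a b
  revert h1
  generalize (A i)⁻¹ a b = z
  intro h1
  unfold MM at h1
  induction h1 using Submodule.span_induction with
  | mem y hy =>
    obtain ⟨e, r', h1, h2, h3, rfl⟩ := hy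
    have h4 := mul_mem_MM Φ ty bL e (Φ.mul h3 hr) hx
    rw [zero_add, h1] at h4
    have h5 : r' * lprod bL e * r * x = r' * r * lprod bL e * x := by ring
    rw [h5]
    exact MM_mono le_rfl ty bL _ (by gcongr) h4
  | zero => rw [zero_mul, zero_mul]; exact Submodule.zero_mem _
  | add x y _ _ hx hy => rw [add_mul, add_mul]; exact Submodule.add_mem _ hx hy
  | smul a x _ hx => rw [smul_mul_assoc, smul_mul_assoc]; exact Submodule.smul_mem _ _ hx

omit H in
lemma lprod_mem (e : L →₀ ℕ) : lprod bL e ∈ MM (Φ.Fil 0) ty bL e.degree (atyp ty e) :=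
  Submodule.subset_span ⟨e, 1, rfl, le_rfl, Φ.one, (one_mul _).symm⟩

/-- derivative of one label -/
lemma deriv_label (u : U) (x : L) :
    d u (bL x) ∈ MM (Φ.Fil (δ - 1)) ty bL 2 (Finsupp.single (ty x) 1) := by
  have hδ := H.hδ
  have hder : ∀ a b, d u ((A (ty x))⁻¹ a b) ∈
      MM (Φ.Fil (δ - 1)) ty bL 2 (Finsupp.single (ty x) 1) := by
    intro a b
    rw [Pool.FD.deriv_inv (d u) (A (ty x)) (H.hA _)]
    refine Submodule.neg_mem _ (Submodule.sum_mem _ fun s _ => Submodule.sum_mem _ fun t _ => ?_)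
    have h1 : d u (A (ty x) s t) ∈ Φ.Fil (δ - 1) := by
      apply Φ.der
      rw [Nat.sub_add_cancel hδ]
      exact H.hdeg _ _ _
    have h2 := inv_mul_mem H (ty x) a s h1 (inv_mem H (ty x) t b)
    rw [add_zero] at h2
    refine MM_mono le_rfl ty bL _ ?_ h2
    exact le_self_add
  obtain ⟨a, b, h | h⟩ := H.hE' x
  · rw [h]; exact hder a b
  · rw [h, map_neg]; exact Submodule.neg_mem _ (hder a b)

/-- derivative of a product of labels -/
lemma deriv_lprod (u : U) (e : L →₀ ℕ) :
    d u (lprod bL e) ∈ MM (Φ.Fil (δ - 1)) ty bL (e.degree + 1) (atyp ty e) := by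
  have hadd : ∀ e1 e2 : L →₀ ℕ,
      d u (lprod bL e1) ∈ MM (Φ.Fil (δ - 1)) ty bL (e1.degree + 1) (atyp ty e1) →
      d u (lprod bL e2) ∈ MM (Φ.Fil (δ - 1)) ty bL (e2.degree + 1) (atyp ty e2) →
      d u (lprod bL (e1 + e2)) ∈
        MM (Φ.Fil (δ - 1)) ty bL ((e1 + e2).degree + 1) (atyp ty (e1 + e2)) := by
    intro e1 e2 h1 h2
    rw [lprod_add, Derivation.leibniz, smul_eq_mul, smul_eq_mul, atyp_add', map_add]
    refine Submodule.add_mem _ ?_ ?_
    · have := mul_mem_MM Φ ty bL e1 Φ.one h2
      rwa [one_mul, zero_add, ← add_assoc] at this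
    · have := mul_mem_MM Φ ty bL e2 Φ.one h1
      rwa [one_mul, zero_add, ← add_assoc, add_comm e2.degree, add_comm (atyp ty e2)] at this
  induction e using Finsupp.induction_linear with
  | zero =>
    rw [lprod_zero, Derivation.map_one_eq_zero]
    exact Submodule.zero_mem _
  | add e1 e2 h1 h2 => exact hadd e1 e2 h1 h2
  | single x n =>
    induction n with
    | zero =>
      rw [Finsupp.single_zero, lprod_zero, Derivation.map_one_eq_zero]
      exact Submodule.zero_mem _
    | succ n ih =>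
      rw [Finsupp.single_add]
      refine hadd _ _ ih ?_
      rw [lprod_single, Finsupp.degree_single, atyp_single]
      exact deriv_label H u x

/-- padding -/
lemma pad_mem (a : Fin M) (i : Fin k) {s n : ℕ} {τ : Fin k →₀ ℕ} {r x : S}
    (hr : r ∈ Φ.Fil s) (hx : x ∈ MM (Φ.Fil 0) ty bL n τ) :
    r * x ∈ MM (Φ.Fil (s + δ)) ty bL (1 + n) τ := by
  have hu : IsUnit (A i).det := isUnit_iff_ne_zero.2 (H.hA i)
  have h1 : (1 : S) = ∑ b, (A i)⁻¹ a b * A i b a := by
    have := congrFun (congrFun (Matrix.nonsing_inv_mul (A i) hu) a) a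
    rw [Matrix.mul_apply, Matrix.one_apply_eq] at this
    exact this.symm
  have h2 : r * x = ∑ b, (A i)⁻¹ a b * (r * A i b a) * x := by
    calc r * x = r * x * 1 := (mul_one _).symm
      _ = _ := by
        conv_lhs => rw [h1]
        rw [Finset.mul_sum]
        exact Finset.sum_congr rfl fun b _ => by ring
  rw [h2]
  refine Submodule.sum_mem _ fun b _ => ?_
  have h3 := inv_mul_mem H i a b (Φ.mul hr (H.hdeg i b a)) hx
  rw [add_zero] at h3
  exact MM_mono le_rfl ty bL _ le_add_self h3

/-- the span of the products of order `D` in the closure lemma -/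
def NN (Φ : Filt d) (δ : ℕ) (f : Fin k → S) (ty : L → Fin k) (bL : L → S)
    (c : (Fin k →₀ ℕ) → S) (D : ℕ) : Submodule K S :=
  Submodule.span K {x | ∃ (γ : Fin k →₀ ℕ) (e : L →₀ ℕ) (r : S), e.degree = D ∧
    γ ≤ atyp ty e ∧ r ∈ Φ.Fil (D * (δ - 1)) ∧
    x = c γ * (γ.prod fun i s => f i ^ s) * (r * lprod bL e)}

omit H in
lemma mul_mem_NN (c : (Fin k →₀ ℕ) → S) (γ : Fin k →₀ ℕ) {D : ℕ} {τ : Fin k →₀ ℕ} {x : S}
    (hγ : γ ≤ τ) (hx : x ∈ MM (Φ.Fil (D * (δ - 1))) ty bL D τ) :
    c γ * (γ.prod fun i s => f i ^ s) * x ∈ NN Φ δ f ty bL c D := by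
  unfold MM at hx
  induction hx using Submodule.span_induction with
  | mem y hy =>
    obtain ⟨e, r, h1, h2, h3, rfl⟩ := hy
    exact Submodule.subset_span ⟨γ, e, r, h1, hγ.trans h2, h3, rfl⟩
  | zero => rw [mul_zero]; exact Submodule.zero_mem _
  | add x y _ _ hx hy => rw [mul_add]; exact Submodule.add_mem _ hx hy
  | smul a x _ hx => rw [mul_smul_comm]; exact Submodule.smul_mem _ _ hx

theorem closure (hM : 0 < M) (hk : 0 < k) (c : (Fin k →₀ ℕ) → S) (hc : IsJet d f c)
    (l : List U) : iter d l (c 0) ∈ NN Φ δ f ty bL c l.length := by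
  classical
  have hδ := H.hδ
  induction l with
  | nil =>
    refine Submodule.subset_span ⟨0, 0, 1, by simp, by simp, ?_, ?_⟩
    · rw [List.length_nil, zero_mul]; exact Φ.one
    · rw [lprod_zero, Finsupp.prod_zero_index, mul_one, mul_one, mul_one]
      rfl
  | cons u l ih =>
    change d u (iter d l (c 0)) ∈ NN Φ δ f ty bL c (l.length + 1)
    revert ih
    generalize iter d l (c 0) = y
    generalize l.length = n
    intro hy
    have hn1 : (n + 1) * (δ - 1) = n * (δ - 1) + (δ - 1) := by ring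
    unfold NN at hy
    induction hy using Submodule.span_induction with
    | mem x hx =>
      obtain ⟨γ, e, r, he, hγ, hr, rfl⟩ := hx
      -- the logarithmic derivatives
      have hlog : ∀ i, (f i)⁻¹ * d u (f i) * (r * lprod bL e) ∈
          MM (Φ.Fil ((n + 1) * (δ - 1))) ty bL (n + 1) (Finsupp.single i 1 + atyp ty e) := by
        intro i
        rw [H.hD, ← mul_assoc (f i)⁻¹, inv_mul_cancel₀ (H.hf i), one_mul, Finset.sum_mul]
        refine Submodule.sum_mem _ fun a _ => ?_
        rw [Finset.sum_mul]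
        refine Submodule.sum_mem _ fun b _ => ?_
        rw [smul_mul_assoc]
        refine Submodule.smul_mem _ _ ?_
        have h1 : d u (A i a b) ∈ Φ.Fil (δ - 1) := by
          apply Φ.der
          rw [Nat.sub_add_cancel hδ]
          exact H.hdeg _ _ _
        have h2 := inv_mul_mem H i b a (Φ.mul h1 hr) (lprod_mem e)
        rw [add_zero, he, add_comm 1 n, add_comm (δ - 1), ← hn1] at h2
        have h3 : (A i)⁻¹ b a * d u (A i a b) * (r * lprod bL e) =
            (A i)⁻¹ b a * (d u (A i a b) * r) * lprod bL e := by ring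
        rw [h3]
        exact h2
      rw [Derivation.leibniz, Derivation.leibniz (d u) (c γ), Pool.FD.deriv_finsuppProd (d u) f H.hf γ, hc γ u]
      simp only [smul_eq_mul]
      rw [mul_add]
      refine Submodule.add_mem _ ?_ (Submodule.add_mem _ ?_ ?_)
      · -- derivative of the coefficient `r` and of the product of the labels
        rw [Derivation.leibniz, smul_eq_mul, smul_eq_mul, mul_add]
        refine Submodule.add_mem _ ?_ ?_
        · refine mul_mem_NN c γ (τ := atyp ty e) hγ ?_
          have h1 := mul_mem_MM Φ ty bL 0 hr (deriv_lprod H u e)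
          rw [lprod_zero, mul_one, map_zero, zero_add, he, ← hn1] at h1
          refine MM_mono le_rfl ty bL _ ?_ h1
          exact le_add_self
        · rcases Nat.eq_zero_or_pos (n * (δ - 1)) with h0 | h0
          · rw [h0] at hr
            rw [Φ.der0 u hr, mul_zero, mul_zero]
            exact Submodule.zero_mem _
          · refine mul_mem_NN c γ (τ := atyp ty e) hγ ?_
            rw [mul_comm (lprod bL e)]
            have h1 : d u r ∈ Φ.Fil (n * (δ - 1) - 1) := by
              apply Φ.der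
              rw [Nat.sub_add_cancel h0]
              exact hr
            have h2 := pad_mem H ⟨0, hM⟩ ⟨0, hk⟩ h1 (lprod_mem e)
            rw [he, add_comm 1 n] at h2
            have h3 : n * (δ - 1) - 1 + δ = (n + 1) * (δ - 1) := by
              rw [hn1]; omega
            rw [h3] at h2
            exact h2
      · -- derivative of the powers
        have h1 : r * lprod bL e * (c γ * ((γ.prod fun i s => f i ^ s) *
            ∑ i, (γ i : S) * ((f i)⁻¹ * d u (f i)))) =
            ∑ i, (γ i : K) • (c γ * (γ.prod fun i s => f i ^ s) *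
              ((f i)⁻¹ * d u (f i) * (r * lprod bL e))) := by
          simp_rw [Finset.mul_sum, Algebra.smul_def, map_natCast]
          refine Finset.sum_congr rfl fun i _ => by ring
        rw [h1]
        refine Submodule.sum_mem _ fun i _ => Submodule.smul_mem _ _ ?_
        exact mul_mem_NN c γ (hγ.trans le_add_self) (hlog i)
      · -- derivative of the coefficient `c γ`
        have h1 : r * lprod bL e * ((γ.prod fun i s => f i ^ s) *
            ∑ i, c (γ + Finsupp.single i 1) * d u (f i)) =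
            ∑ i, (c (γ + Finsupp.single i 1) * ((γ + Finsupp.single i 1).prod fun i s => f i ^ s) *
              ((f i)⁻¹ * d u (f i) * (r * lprod bL e))) := by
          simp_rw [Finset.mul_sum]
          refine Finset.sum_congr rfl fun i _ => ?_
          rw [fprod_add, fprod_single]
          have := H.hf i
          field_simp
        rw [h1]
        refine Submodule.sum_mem _ fun i _ => ?_
        refine mul_mem_NN c _ ?_ (hlog i)
        rw [add_comm]
        gcongr
    | zero => rw [map_zero]; exact Submodule.zero_mem _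
    | add x y _ _ hx hy => rw [map_add]; exact Submodule.add_mem _ hx hy
    | smul a x _ hx => rw [Derivation.map_smul]; exact Submodule.smul_mem _ _ hx

end

end Pool.FDP
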