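import Pool.Agent.FD.MainAlg
import Pool.Agent.FD.PfClosure

/-!
Functions of determinants, entries of degree `δ`: the filtration of the polynomials.
-/

open MvPolynomial Finset
open scoped BigOperators

namespace Pool.FDP

open Pool.FD

section

variable {E X₀ Y : Type} [Field E]

lemma totalDegree_dirD_le (u : X₀ → E) (p : MvPolynomial X₀ E) {a : ℕ}
    (hp : p.totalDegree ≤ a + 1) : (dirD u p).totalDegree ≤ a := by
  classical
  conv_lhs => rw [p.as_sum]
  rw [map_sum]
  refine (totalDegree_finsetSum _ _).trans (Finset.sup_le fun s hs => ?_)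
  have h2 : s.degree ≤ a + 1 := (le_totalDegree hs).trans hp
  unfold dirD
  rw [mkDerivation_monomial]
  refine (totalDegree_smul_le _ _).trans ?_
  rw [Finsupp.sum]
  refine (totalDegree_finsetSum _ _).trans (Finset.sup_le fun i hi => ?_)
  rw [smul_eq_mul]
  refine (totalDegree_mul _ _).trans ?_
  rw [totalDegree_C, add_zero]
  refine (totalDegree_monomial_le _ _).trans ?_
  have h5 : Finsupp.single i 1 ≤ s := by
    intro j
    rcases eq_or_ne j i with rfl | hj
    · simpa using Nat.one_le_iff_ne_zero.2 (Finsupp.mem_support_iff.1 hi)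
    · simp [Ne.symm hj]
  have h6 : (s - Finsupp.single i 1).degree + 1 = s.degree := by
    have h7 : s - Finsupp.single i 1 + Finsupp.single i 1 = s := tsub_add_cancel_of_le h5
    conv_rhs => rw [← h7, map_add, Finsupp.degree_single]
  have h8 : ((s - Finsupp.single i 1).sum fun _ => id) = (s - Finsupp.single i 1).degree := rfl
  rw [h8]
  omega

lemma dirD_eq_zero (u : X₀ → E) (p : MvPolynomial X₀ E) (hp : p.totalDegree ≤ 0) :
    dirD u p = 0 := by
  rw [totalDegree_eq_zero_iff_eq_C.1 (Nat.le_zero.1 hp)]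
  exact derivation_C _ _

/-- the filtration by the degree -/
noncomputable def polyFilt (dL : (X₀ → E) → Derivation E (FF E X₀) (FF E X₀))
    (hdL : ∀ u p, dL u (algebraMap (MvPolynomial X₀ E) (FF E X₀) p) =
      algebraMap (MvPolynomial X₀ E) (FF E X₀) (dirD u p)) : Filt dL where
  Fil a := (restrictTotalDegree X₀ E a).map
    (IsScalarTower.toAlgHom E (MvPolynomial X₀ E) (FF E X₀)).toLinearMap
  mono {a b} h := by
    refine Submodule.map_mono fun p hp => ?_
    rw [mem_restrictTotalDegree] at hp ⊢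
    exact hp.trans h
  mul := by
    rintro a b _ _ ⟨p, hp, rfl⟩ ⟨q, hq, rfl⟩
    refine ⟨p * q, ?_, map_mul (algebraMap (MvPolynomial X₀ E) (FF E X₀)) p q⟩
    simp only [SetLike.mem_coe, mem_restrictTotalDegree] at hp hq ⊢
    exact (totalDegree_mul _ _).trans (Nat.add_le_add hp hq)
  one := ⟨1, by
    simp only [SetLike.mem_coe, mem_restrictTotalDegree, totalDegree_one, le_refl],
    map_one (algebraMap (MvPolynomial X₀ E) (FF E X₀))⟩
  der := by
    rintro u a _ ⟨p, hp, rfl⟩
    simp only [SetLike.mem_coe, mem_restrictTotalDegree] at hp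
    refine ⟨dirD u p, ?_, (hdL u p).symm⟩
    simp only [SetLike.mem_coe, mem_restrictTotalDegree]
    exact totalDegree_dirD_le u p hp
  der0 := by
    rintro u _ ⟨p, hp, rfl⟩
    simp only [SetLike.mem_coe, mem_restrictTotalDegree] at hp
    exact (hdL u p).trans (by rw [dirD_eq_zero u p hp, map_zero])

lemma mem_polyFilt (dL : (X₀ → E) → Derivation E (FF E X₀) (FF E X₀)) (hdL) (a : ℕ)
    (x : FF E X₀) : x ∈ (polyFilt dL hdL).Fil a ↔
      ∃ p : MvPolynomial X₀ E, p.totalDegree ≤ a ∧
        algebraMap (MvPolynomial X₀ E) (FF E X₀) p = x := by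
  constructor
  · rintro ⟨p, hp, rfl⟩
    simp only [SetLike.mem_coe, mem_restrictTotalDegree] at hp
    exact ⟨p, hp, rfl⟩
  · rintro ⟨p, hp, rfl⟩
    refine ⟨p, ?_, rfl⟩
    simp only [SetLike.mem_coe, mem_restrictTotalDegree]
    exact hp

lemma totalDegree_shift_le' (φ : X₀ → MvPolynomial Y E) (hφ : ∀ x, (φ x).totalDegree ≤ 1)
    (p : MvPolynomial X₀ E) {a : ℕ} (hp : p.totalDegree ≤ a) : (shift φ p).totalDegree ≤ a := by
  have h1 : shift φ p = aeval (fun x => shift φ (X x)) p := by
    have : shift φ = aeval (fun x => shift φ (X x)) := by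
      ext x
      rw [aeval_X]
    exact DFunLike.congr_fun this p
  have h2 : ∀ x, (shift φ (X x : MvPolynomial X₀ E)).totalDegree ≤ 1 := by
    intro x
    exact totalDegree_shift_le φ hφ _ (by rw [totalDegree_X])
  rw [h1, aeval_def, eval₂_eq]
  refine (totalDegree_finsetSum _ _).trans (Finset.sup_le fun s hs => ?_)
  refine (totalDegree_mul _ _).trans ?_
  have h3 : (algebraMap E (MvPolynomial Y (FractionRing (MvPolynomial X₀ E)))
      (coeff s p)).totalDegree = 0 := by
    rw [IsScalarTower.algebraMap_apply E (FractionRing (MvPolynomial X₀ E))]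
    exact totalDegree_C _
  rw [h3, zero_add]
  refine (totalDegree_finsetProd _ _).trans ?_
  calc ∑ i ∈ s.support, (shift φ (X i : MvPolynomial X₀ E) ^ s i).totalDegree
      ≤ ∑ i ∈ s.support, s i * 1 :=
        Finset.sum_le_sum fun i _ => (totalDegree_pow _ _).trans (Nat.mul_le_mul_left _ (h2 i))
    _ = s.sum fun _ e => e := by simp [Finsupp.sum]
    _ ≤ p.totalDegree := le_totalDegree hs
    _ ≤ a := hp

end

lemma mul_mem_Wl {F Y ι : Type*} [Field F] (g : ι → MvPolynomial Y F) (l : ℕ)
    (p : MvPolynomial Y F) (hp : p.totalDegree ≤ l) (i : ι) : p * g i ∈ Pool.SDD.Wl g l := by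
  classical
  have h1 : p * g i = ∑ s ∈ p.support, coeff s p • (monomial s 1 * g i) := by
    conv_lhs => rw [p.as_sum, Finset.sum_mul]
    refine Finset.sum_congr rfl fun s _ => ?_
    rw [← smul_mul_assoc, smul_monomial, smul_eq_mul, mul_one]
  rw [h1]
  refine Submodule.sum_mem _ fun s hs => Submodule.smul_mem _ _ (Submodule.subset_span ?_)
  exact ⟨s, i, (le_totalDegree hs).trans hp, rfl⟩

end Pool.FDP
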