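import Pool.Agent.FD.DegFilt

/-!
Functions of determinants, entries of degree `δ`: the main inequality.
-/

open MvPolynomial Finset
open scoped BigOperators ENNReal

namespace Pool.FDP

open Pool.FD

section upper

variable {E X₀ Y : Type} [Field E]

/-- one term -/
theorem term_mem_deg [CharZero E] {k m d D δ : ℕ} (hk : 0 < k) (hd1 : 1 ≤ d) (hδ : 1 ≤ δ)
    (φ : X₀ → MvPolynomial Y E) (hφ : ∀ x, (φ x).totalDegree ≤ 1)
    (dL : (X₀ → E) → Derivation E (FF E X₀) (FF E X₀))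
    (hdL : ∀ u p, dL u (algebraMap (MvPolynomial X₀ E) (FF E X₀) p) =
      algebraMap (MvPolynomial X₀ E) (FF E X₀) (dirD u p))
    (Ψ : FF E X₀ →+* F2 E X₀ Y)
    (hΨ : ∀ p, Ψ (algebraMap (MvPolynomial X₀ E) (FF E X₀) p) =
      algebraMap (MvPolynomial Y (FF E X₀)) (F2 E X₀ Y) (shift φ p))
    (A : Fin k → Matrix (Fin (m + 1)) (Fin (m + 1)) (MvPolynomial X₀ E))
    (hA : ∀ i a b, (A i a b).totalDegree ≤ δ) (hdet : ∀ i, (A i).det ≠ 0) (g : FF E X₀)
    (hg : IsAlgebraic (Algebra.adjoin E (Set.range fun i =>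
      algebraMap (MvPolynomial X₀ E) (FF E X₀) (A i).det)) g) :
    ∃ α : (Fin k →₀ ℕ) → F2 E X₀ Y,
      ∀ (l : ℕ) (μ : Y →₀ ℕ) (U : List (X₀ → E)), μ.degree ≤ l → U.length = D →
        algebraMap (MvPolynomial Y (FF E X₀)) (F2 E X₀ Y) (monomial μ 1) * Ψ (iter dL U g) ∈
        (⨆ γ : GG k D, (Pool.SDD.Wl (fam φ A d D γ.1) (l + D * (δ - 1))).map
          (mulMap (α γ.1)) : Submodule (FF E X₀) (F2 E X₀ Y)) := by
  classical
  set AL : Fin k → Matrix (Fin (m + 1)) (Fin (m + 1)) (FF E X₀) :=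
    fun i => (A i).map (algebraMap (MvPolynomial X₀ E) (FF E X₀)) with hAL
  have hALdet : ∀ i, (AL i).det = algebraMap (MvPolynomial X₀ E) (FF E X₀) (A i).det := by
    intro i
    rw [RingHom.map_det]
    rfl
  have hinj := IsFractionRing.injective (MvPolynomial X₀ E) (FF E X₀)
  have hAL0 : ∀ i, (AL i).det ≠ 0 := by
    intro i h
    rw [hALdet] at h
    exact hdet i (hinj (by rw [h, map_zero]))
  have halg : IsAlgebraic (Algebra.adjoin E (Set.range fun i => (AL i).det)) g := by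
    have h2 : (fun i => (AL i).det) =
        fun i => algebraMap (MvPolynomial X₀ E) (FF E X₀) (A i).det := funext hALdet
    rw [h2]
    exact hg
  obtain ⟨c, hc0, hc⟩ := exists_jet dL (fun i => (AL i).det) _ halg
  have H : CData (polyFilt dL hdL) δ AL (fun i => (AL i).det) (Prod.fst : Cell k (m + 1) → Fin k)
      (fun c => (AL c.1)⁻¹ c.2.2 c.2.1) (1 : E) := by
    refine ⟨hδ, hAL0, hAL0, ?_, ?_, ?_, ?_⟩
    · intro i a b
      rw [mem_polyFilt]
      exact ⟨A i a b, hA i a b, rfl⟩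
    · intro i a b
      exact Or.inr ⟨(i, b, a), rfl, Or.inl rfl⟩
    · intro x
      exact ⟨x.2.2, x.2.1, Or.inl rfl⟩
    · intro u i
      simp only [one_smul]
      exact deriv_det' _ _ (hAL0 i)
  have hPe : ∀ e : Cell (k * D) (m + 1) →₀ ℕ, algebraMap (MvPolynomial Y (FF E X₀)) (F2 E X₀ Y)
      (aeval (fun c : Cell (k * D) (m + 1) => shift φ (A (orig c.1) c.2.1 c.2.2))
        (pg (FF E X₀) D e)) =
      Ψ (Pe (fun c => AL (orig c)) D e) := by
    intro e
    have h1 : Pe (fun c => AL (orig c)) D e =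
        algebraMap (MvPolynomial X₀ E) (FF E X₀) (Pe (fun c => A (orig c)) D e) :=
      (map_Pe (algebraMap (MvPolynomial X₀ E) (FF E X₀)) (fun c => A (orig c)) D e).symm
    rw [h1, hΨ]
    congr 1
    have h2 := map_Pe (shift φ).toRingHom (fun c => A (orig c)) D e
    have h3 := aeval_pg (K := FF E X₀) (fun c : Fin (k * D) => (A (orig c)).map (shift φ)) D e
    exact h3.trans h2.symm
  have hΨE : ∀ x : E, Ψ (algebraMap E (FF E X₀) x) =
      algebraMap (FF E X₀) (F2 E X₀ Y) (algebraMap E (FF E X₀) x) := by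
    intro x
    have h1 : algebraMap E (FF E X₀) x =
        algebraMap (MvPolynomial X₀ E) (FF E X₀) (algebraMap E (MvPolynomial X₀ E) x) :=
      IsScalarTower.algebraMap_apply E (MvPolynomial X₀ E) (FF E X₀) x
    conv_lhs => rw [h1]
    rw [hΨ, AlgHom.commutes, IsScalarTower.algebraMap_apply E (FF E X₀)
      (MvPolynomial Y (FF E X₀)), ← IsScalarTower.algebraMap_apply (FF E X₀)
      (MvPolynomial Y (FF E X₀)) (F2 E X₀ Y)]
  refine ⟨fun γ => Ψ (c γ * (γ.prod fun i s => (AL i).det ^ s) *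
    (∏ i : Fin (k * D), (AL (orig i)).det ^ D)⁻¹), ?_⟩
  intro l μ U hμ hU
  have h1 := closure H (Nat.succ_pos m) hk c hc U
  rw [hc0, hU] at h1
  revert h1
  generalize iter dL U g = x
  intro hx
  unfold NN at hx
  induction hx using Submodule.span_induction with
  | mem x hx =>
    obtain ⟨γ, e, r, he, hγ, hr, rfl⟩ := hx
    have hγG : γ ∈ GG k D := by
      rw [mem_GG, ← he, ← degree_typ]
      exact Finsupp.degree_mono hγ
    refine Submodule.mem_iSup_of_mem (⟨γ, hγG⟩ : GG k D) ?_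
    obtain ⟨e', he', het⟩ := Pool.FD.exists_split hd1 e he
    have he'D : e'.degree = D := by
      have h5 := Finsupp.degree_mapDomain
        (fun c : Cell (k * D) (m + 1) => ((orig c.1, c.2) : Cell k (m + 1))) e'
      rw [he', he] at h5
      exact h5.symm
    have hmem : typ e' ∈ TG d D γ := ⟨typ e, hγ, by rw [degree_typ, he], het⟩
    rw [mem_polyFilt] at hr
    obtain ⟨p, hp, rfl⟩ := hr
    refine ⟨(monomial μ 1 * shift φ p) * fam φ A d D γ ⟨e', he'D, hmem⟩,
      mul_mem_Wl _ _ _ ?_ _, ?_⟩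
    · refine (totalDegree_mul _ _).trans (Nat.add_le_add ?_ (totalDegree_shift_le' φ hφ p hp))
      exact (totalDegree_monomial_le _ _).trans hμ
    rw [mulMap_apply, map_mul, map_mul]
    have h2 : algebraMap (MvPolynomial Y (FF E X₀)) (F2 E X₀ Y)
        (fam φ A d D γ ⟨e', he'D, hmem⟩) = Ψ (Pe (fun c => AL (orig c)) D e') := hPe e'
    rw [h2, Pe_eq (fun c => AL (orig c)) (fun c => hAL0 (orig c)) D e' he'D, ← hΨ]
    have h3 : c γ * (γ.prod fun i s => (AL i).det ^ s) *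
        (algebraMap (MvPolynomial X₀ E) (FF E X₀) p *
          lprod (fun c => (AL c.1)⁻¹ c.2.2 c.2.1) e) =
        (c γ * (γ.prod fun i s => (AL i).det ^ s) *
          (∏ i : Fin (k * D), (AL (orig i)).det ^ D)⁻¹) *
          (algebraMap (MvPolynomial X₀ E) (FF E X₀) p *
          ((∏ i : Fin (k * D), (AL (orig i)).det ^ D) * bprod (fun c => AL (orig c)) e')) := by
      have h4 : (∏ i : Fin (k * D), (AL (orig i)).det ^ D) ≠ 0 :=
        Finset.prod_ne_zero_iff.2 fun i _ => pow_ne_zero _ (hAL0 _)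
      rw [← bprod_split, he']
      change _ * (_ * bprod AL e) = _
      field_simp
    rw [h3, map_mul Ψ (_ * _ * _), map_mul Ψ (algebraMap (MvPolynomial X₀ E) (FF E X₀) p)]
    ring
  | zero => rw [map_zero, mul_zero]; exact Submodule.zero_mem _
  | add x y _ _ hx hy => rw [map_add, mul_add]; exact Submodule.add_mem _ hx hy
  | smul a x _ hx =>
    rw [Algebra.smul_def, map_mul, hΨE, mul_left_comm, ← Algebra.smul_def]
    exact Submodule.smul_mem _ _ hx

end upper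

/-- side (U) for the families `fam` -/
theorem fam_bound_deg {E X₀ Y : Type} [Field E] [Fintype Y] {k m d D δ : ℕ} (hδ : 1 ≤ δ)
    (φ : X₀ → MvPolynomial Y E) (hφ : ∀ x, (φ x).totalDegree ≤ 1)
    (A : Fin k → Matrix (Fin (m + 1)) (Fin (m + 1)) (MvPolynomial X₀ E))
    (hA : ∀ i a b, (A i a b).totalDegree ≤ δ) (γ : Fin k →₀ ℕ) (Q : ℝ≥0∞) (hQ : Q < 1) :
    (1 - Q) ^ (Fintype.card Y + 1) *
      ∑' l, Q ^ l * (Module.finrank (FF E X₀) (Pool.SDD.Wl (fam φ A d D γ) l) : ℝ≥0∞) ≤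
      ∑ e : Idx2 (m := m + 1) D (TG d D γ), (1 - Q ^ δ) ^ (fbs e.1).card :=
  Pool.SDD.Udelta (K := FF E X₀) (Y := Y)
    (fun e : Idx2 (m := m + 1) D (TG d D γ) => pg (FF E X₀) D e.1) (fun e => fbs e.1)
    (pg_reduces2 D (TG d D γ)) δ hδ
    (fun c : Cell (k * D) (m + 1) => shift φ (A (orig c.1) c.2.1 c.2.2))
    (fun c => totalDegree_shift_le' φ hφ _ (hA _ _ _)) Q hQ

lemma tsum_shift_le (Q : ℝ≥0∞) (s : ℕ) (F : ℕ → ℝ≥0∞) :
    Q ^ s * ∑' l, Q ^ l * F (l + s) ≤ ∑' l, Q ^ l * F l := by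
  rw [← ENNReal.tsum_mul_left]
  have h1 : ∀ l, Q ^ s * (Q ^ l * F (l + s)) = (fun i => Q ^ i * F i) (l + s) := by
    intro l
    simp only
    rw [pow_add]
    ring
  simp_rw [h1]
  exact ENNReal.tsum_comp_le_tsum_of_injective (add_left_injective s) _

theorem mainDeg_enn {K R E : Type} [Field K] [CharZero K] [CommRing R] [Field E] [CharZero E]
    (ev : R →+* K) (hev : Function.Surjective ev) (j : R →+* E) (hj : Function.Injective j)
    {n T k m d D N a δ : ℕ} (hk : 0 < k) (hd1 : 1 ≤ d) (hδ : 1 ≤ δ) (haN : a < N)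
    (hn : D * (2 * (N + a) + 1) ≤ n)
    (P : MvPolynomial (Fin n × Fin n) R)
    (hP : MvPolynomial.map ev P =
      (Matrix.of fun i j => (X (i, j) : MvPolynomial (Fin n × Fin n) K)).permanent)
    (A : Fin T → Fin k → Matrix (Fin (m + 1)) (Fin (m + 1)) (MvPolynomial (Fin n × Fin n) E))
    (hA : ∀ t i a b, (A t i a b).totalDegree ≤ δ) (hdet : ∀ t i, (A t i).det ≠ 0)
    (g : Fin T → FF E (Fin n × Fin n))
    (hg : ∀ t, IsAlgebraic (Algebra.adjoin E (Set.range fun i =>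
      algebraMap (MvPolynomial (Fin n × Fin n) E) (FF E (Fin n × Fin n)) (A t i).det)) (g t))
    (h : algebraMap (MvPolynomial (Fin n × Fin n) E) (FF E (Fin n × Fin n))
      (MvPolynomial.map j P) = ∑ t, g t) (Q : ℝ≥0∞) (hQ : Q < 1) :
    Q ^ (D * (δ - 1)) * (1 - (1 - Q ^ N) ^ (a + 1)) ^ (2 * D) ≤ Q ^ ((N - a) * (2 * D)) *
      (T * ∑ γ ∈ GG k D, ∑ e : Idx2 (m := m + 1) D (TG d D γ),
        (1 - Q ^ δ) ^ (fbs e.1).card) := by
  classical
  obtain ⟨φ, hφ, hlow⟩ := lower ev hev j hj hn P hP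
  obtain ⟨dL, hdL⟩ := exists_dirL (E := E) (X₀ := Fin n × Fin n)
  obtain ⟨Ψ, hΨ⟩ := exists_shiftLift φ
  choose α hα using fun t =>
    term_mem_deg (D := D) hk hd1 hδ φ hφ dL hdL Ψ hΨ (A t) (hA t) (hdet t) (g t) (hg t)
  set M := Fintype.card ((Fin D ⊕ Fin D) × Option (Fin N)) + 1 with hM
  set s := D * (δ - 1) with hs
  have hfin : ∀ l, Module.finrank K (Pool.SDL.Vl (Fin D ⊕ Fin D) Empty (Pool.SDL.bp K N a) l) ≤
      ∑ t, ∑ γ : GG k D, Module.finrank (FF E (Fin n × Fin n))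
        (Pool.SDD.Wl (fam φ (A t) d D γ.1) (l + s)) := by
    intro l
    refine (Pool.SDD.Vl_finrank_le _ _ _).trans ?_
    let W : Fin T → Submodule (FF E (Fin n × Fin n))
        (F2 E (Fin n × Fin n) ((Fin D ⊕ Fin D) × Option (Fin N))) := fun t =>
      ⨆ γ : GG k D, (Pool.SDD.Wl (fam φ (A t) d D γ.1) (l + s)).map (mulMap (α t γ.1))
    have hWf : ∀ t, Module.Finite (FF E (Fin n × Fin n)) (W t) := fun t =>
      Submodule.finite_iSup _
    have hWf2 : Module.Finite (FF E (Fin n × Fin n)) (⨆ t, W t : Submodule _ _) :=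
      Submodule.finite_iSup _
    refine (hlow l (⨆ t, W t) ?_).trans ?_
    · intro μ U hμ hU
      rw [map_mul, ← hΨ, ← iter_map (S := FF E (Fin n × Fin n)) dirD dL hdL, h, iter_sum, map_sum,
        Finset.mul_sum]
      refine Submodule.sum_mem _ fun t _ => ?_
      exact Submodule.mem_iSup_of_mem t (hα t l μ U hμ hU)
    · refine (finrank_iSup_le' W).trans (Finset.sum_le_sum fun t _ => ?_)
      refine (finrank_iSup_le' _).trans (Finset.sum_le_sum fun γ _ => ?_)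
      exact Submodule.finrank_map_le _ _
  have hL := Pool.SDL.sideL K (Fin D ⊕ Fin D) Empty N a haN Q hQ
  have hcard : Fintype.card (Fin D ⊕ Fin D) = 2 * D := by
    rw [Fintype.card_sum, Fintype.card_fin, two_mul]
  rw [hcard] at hL
  have hcardE : Fintype.card (((Fin D ⊕ Fin D) × Option (Fin N)) ⊕ Empty) =
      Fintype.card ((Fin D ⊕ Fin D) × Option (Fin N)) := by
    rw [Fintype.card_sum, Fintype.card_empty, add_zero]
  rw [hcardE] at hL
  refine (mul_le_mul' le_rfl hL).trans ?_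
  rw [mul_left_comm]
  refine mul_le_mul' le_rfl ?_
  rw [mul_left_comm]
  calc (1 - Q) ^ M * (Q ^ s * ∑' l, Q ^ l *
      (Module.finrank K (Pool.SDL.Vl (Fin D ⊕ Fin D) Empty (Pool.SDL.bp K N a) l) : ℝ≥0∞))
      ≤ (1 - Q) ^ M * (Q ^ s * ∑' l, Q ^ l *
        ((∑ t, ∑ γ : GG k D, Module.finrank (FF E (Fin n × Fin n))
        (Pool.SDD.Wl (fam φ (A t) d D γ.1) (l + s)) : ℕ) : ℝ≥0∞)) := by
        gcongr with l
        exact_mod_cast hfin l
    _ ≤ (1 - Q) ^ M * (∑' l, Q ^ l *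
        ((∑ t, ∑ γ : GG k D, Module.finrank (FF E (Fin n × Fin n))
        (Pool.SDD.Wl (fam φ (A t) d D γ.1) l) : ℕ) : ℝ≥0∞)) :=
        mul_le_mul' le_rfl (tsum_shift_le Q s fun l =>
          ((∑ t, ∑ γ : GG k D, Module.finrank (FF E (Fin n × Fin n))
            (Pool.SDD.Wl (fam φ (A t) d D γ.1) l) : ℕ) : ℝ≥0∞))
    _ = ∑ t, ∑ γ : GG k D, (1 - Q) ^ M * ∑' l, Q ^ l * (Module.finrank (FF E (Fin n × Fin n))
        (Pool.SDD.Wl (fam φ (A t) d D γ.1) l) : ℝ≥0∞) := by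
        push_cast
        simp_rw [Finset.mul_sum]
        rw [Summable.tsum_finsetSum (fun _ _ => ENNReal.summable), Finset.mul_sum]
        refine Finset.sum_congr rfl fun t _ => ?_
        rw [Summable.tsum_finsetSum (fun _ _ => ENNReal.summable), Finset.mul_sum]
    _ ≤ ∑ t : Fin T, ∑ γ : GG k D, ∑ e : Idx2 (m := m + 1) D (TG d D γ.1),
        (1 - Q ^ δ) ^ (fbs e.1).card :=
        Finset.sum_le_sum fun t _ => Finset.sum_le_sum fun γ _ =>
          fam_bound_deg hδ φ hφ (A t) (hA t) γ.1 Q hQ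
    _ = T * ∑ γ ∈ GG k D, ∑ e : Idx2 (m := m + 1) D (TG d D γ),
        (1 - Q ^ δ) ^ (fbs e.1).card := by
        rw [Finset.sum_const, Finset.card_univ, Fintype.card_fin, nsmul_eq_mul]
        congr 1
        exact Finset.sum_coe_sort (GG k D) (fun γ =>
          ∑ e : Idx2 (m := m + 1) D (TG d D γ), (1 - Q ^ δ) ^ (fbs e.1).card)

/-- the same for a real `q`; the determinants may vanish -/
theorem mainDeg_real {K R E : Type} [Field K] [CharZero K] [CommRing R] [Field E]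
    (ev : R →+* K) (hev : Function.Surjective ev) (j : R →+* E) (hj : Function.Injective j)
    {n T k m d D N a δ : ℕ} (hk : 0 < k) (hd1 : 1 ≤ d) (hδ : 1 ≤ δ) (haN : a < N)
    (hn : D * (2 * (N + a) + 1) ≤ n)
    (P : MvPolynomial (Fin n × Fin n) R)
    (hP : MvPolynomial.map ev P =
      (Matrix.of fun i j => (X (i, j) : MvPolynomial (Fin n × Fin n) K)).permanent)
    (A : Fin T → Fin k → Matrix (Fin (m + 1)) (Fin (m + 1)) (MvPolynomial (Fin n × Fin n) E))
    (hA : ∀ t i a b, (A t i a b).totalDegree ≤ δ)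
    (g : Fin T → FF E (Fin n × Fin n))
    (hg : ∀ t, IsAlgebraic (Algebra.adjoin E (Set.range fun i =>
      algebraMap (MvPolynomial (Fin n × Fin n) E) (FF E (Fin n × Fin n)) (A t i).det)) (g t))
    (h : algebraMap (MvPolynomial (Fin n × Fin n) E) (FF E (Fin n × Fin n))
      (MvPolynomial.map j P) = ∑ t, g t) (q : ℝ) (hq0 : 0 < q) (hq1 : q < 1) :
    q ^ (D * (δ - 1)) * (1 - (1 - q ^ N) ^ (a + 1)) ^ (2 * D) ≤ q ^ ((N - a) * (2 * D)) *
      (T * ∑ γ ∈ GG k D, ∑ e : Idx2 (m := m + 1) D (TG d D γ), (1 - q ^ δ) ^ (fbs e.1).card) := by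
  classical
  have hE : CharZero E := by
    constructor
    intro x y hxy
    have h1 : ((x : R)) = y := hj (by rw [map_natCast, map_natCast, hxy])
    have h2 := congrArg ev h1
    rw [map_natCast, map_natCast] at h2
    exact_mod_cast h2
  -- the matrices with determinant zero are replaced by the identity
  let A' : Fin T → Fin k → Matrix (Fin (m + 1)) (Fin (m + 1)) (MvPolynomial (Fin n × Fin n) E) :=
    fun t i => if (A t i).det = 0 then 1 else A t i
  have hA' : ∀ t i a b, (A' t i a b).totalDegree ≤ δ := by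
    intro t i a b
    simp only [A']
    split_ifs with h0
    · rw [Matrix.one_apply]
      split_ifs
      · rw [totalDegree_one]; exact Nat.zero_le _
      · rw [totalDegree_zero]; exact Nat.zero_le _
    · exact hA t i a b
  have hdet' : ∀ t i, (A' t i).det ≠ 0 := by
    intro t i
    simp only [A']
    split_ifs with h0
    · rw [Matrix.det_one]; exact one_ne_zero
    · exact h0
  have hg' : ∀ t, IsAlgebraic (Algebra.adjoin E (Set.range fun i =>
      algebraMap (MvPolynomial (Fin n × Fin n) E) (FF E (Fin n × Fin n)) (A' t i).det))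
      (g t) := by
    intro t
    refine isAlgebraic_adjoin_mono ?_ (hg t)
    rw [Algebra.adjoin_le_iff]
    rintro _ ⟨i, rfl⟩
    by_cases h0 : (A t i).det = 0
    · change algebraMap (MvPolynomial (Fin n × Fin n) E) (FF E (Fin n × Fin n)) (A t i).det ∈ _
      rw [h0, map_zero]
      exact Subalgebra.zero_mem _
    · refine Algebra.subset_adjoin ⟨i, ?_⟩
      simp only [A', if_neg h0]
  have hQ : ENNReal.ofReal q < 1 := by
    rw [← ENNReal.ofReal_one]
    exact (ENNReal.ofReal_lt_ofReal_iff (by norm_num)).mpr hq1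
  have key := mainDeg_enn ev hev j hj hk hd1 hδ haN hn P hP A' hA' hdet' g hg' h
    (ENNReal.ofReal q) hQ
  have hpow : ∀ i : ℕ, (1 : ℝ≥0∞) - ENNReal.ofReal q ^ i = ENNReal.ofReal (1 - q ^ i) := by
    intro i
    rw [ENNReal.ofReal_sub _ (pow_nonneg hq0.le _), ENNReal.ofReal_pow hq0.le, ENNReal.ofReal_one]
  have h1q : ∀ i : ℕ, 0 ≤ 1 - q ^ i := fun i => by
    have := pow_le_one₀ (n := i) hq0.le hq1.le
    linarith
  have h1qN' : (1 - q ^ N) ^ (a + 1) ≤ 1 :=
    pow_le_one₀ (h1q N) (by linarith [pow_pos hq0 N])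
  have e1 : ((1 : ℝ≥0∞) - (1 - ENNReal.ofReal q ^ N) ^ (a + 1)) ^ (2 * D) =
      ENNReal.ofReal ((1 - (1 - q ^ N) ^ (a + 1)) ^ (2 * D)) := by
    rw [hpow, ENNReal.ofReal_pow (by linarith), ENNReal.ofReal_sub _ (pow_nonneg (h1q N) _),
      ENNReal.ofReal_pow (h1q N), ENNReal.ofReal_one]
  have hS0 : ∀ γ, 0 ≤ ∑ e : Idx2 (m := m + 1) D (TG (k := k) d D γ),
      (1 - q ^ δ) ^ (fbs e.1).card :=
    fun γ => Finset.sum_nonneg fun e _ => pow_nonneg (h1q δ) _
  have e2 : ∑ γ ∈ GG k D, ∑ e : Idx2 (m := m + 1) D (TG d D γ),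
      (1 - ENNReal.ofReal q ^ δ) ^ (fbs e.1).card =
      ENNReal.ofReal (∑ γ ∈ GG k D, ∑ e : Idx2 (m := m + 1) D (TG d D γ),
        (1 - q ^ δ) ^ (fbs e.1).card) := by
    rw [ENNReal.ofReal_sum_of_nonneg (fun γ _ => hS0 γ)]
    refine Finset.sum_congr rfl fun γ _ => ?_
    rw [ENNReal.ofReal_sum_of_nonneg (fun e _ => pow_nonneg (h1q δ) _)]
    refine Finset.sum_congr rfl fun e _ => ?_
    rw [hpow, ENNReal.ofReal_pow (h1q δ)]
  have hS : 0 ≤ ∑ γ ∈ GG k D, ∑ e : Idx2 (m := m + 1) D (TG d D γ),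
      (1 - q ^ δ) ^ (fbs e.1).card :=
    Finset.sum_nonneg fun γ _ => hS0 γ
  rw [e1, e2, ← ENNReal.ofReal_pow hq0.le, ← ENNReal.ofReal_pow hq0.le,
    ← ENNReal.ofReal_natCast,
    ← ENNReal.ofReal_mul (by positivity), ← ENNReal.ofReal_mul (by positivity),
    ← ENNReal.ofReal_mul (by positivity)] at key
  exact (ENNReal.ofReal_le_ofReal_iff (mul_nonneg (by positivity)
    (mul_nonneg (by positivity) hS))).mp key

end Pool.FDP
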