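import Pool.Agent.FD.Stmt
import Pool.Agent.PF.Cayley

/-!
Functions of determinants (FD): Pfaffians are algebraic over determinants, so functions of
Pfaffians are covered.
-/

set_option autoImplicit false

open MvPolynomial

namespace Pool.FD

/-- transitivity -/
lemma isAlgebraic_adjoin_trans {E F : Type*} [Field E] [Field F] [Algebra E F] {s s' : Set F}
    (h : ∀ y ∈ s', IsAlgebraic (Algebra.adjoin E s) y) {g : F}
    (hg : IsAlgebraic (Algebra.adjoin E s') g) : IsAlgebraic (Algebra.adjoin E s) g := by
  have h1 : IsAlgebraic (Algebra.adjoin E (s ∪ s')) g :=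
    isAlgebraic_adjoin_mono (Algebra.adjoin_mono Set.subset_union_right) hg
  refine h1.adjoin_of_forall_isAlgebraic ?_
  rintro x ⟨hx, hx'⟩
  rcases hx with hx | hx
  · exact absurd hx hx'
  · exact h x hx

open Pool.PF in
/-- the alternating matrix with the given entries above the diagonal -/
def altOf {R : Type*} [CommRing R] {n : ℕ} (A : Matrix (Fin n) (Fin n) R) :
    Matrix (Fin n) (Fin n) R :=
  Matrix.of fun i j => if i < j then A i j else if j < i then - A j i else 0

lemma altOf_isAlt {R : Type*} [CommRing R] {n : ℕ} (A : Matrix (Fin n) (Fin n) R) :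
    Pool.PF.IsAlt (altOf A) := by
  constructor
  · intro i j
    simp only [altOf, Matrix.of_apply]
    rcases lt_trichotomy i j with h | h | h
    · rw [if_pos h, if_neg h.le.not_gt, if_pos h, neg_neg]
    · subst h; simp
    · rw [if_neg h.le.not_gt, if_pos h, if_pos h]
  · intro i
    simp [altOf]

lemma pf_altOf {R : Type*} [CommRing R] (k : ℕ) (A : Matrix (Fin (2 * k)) (Fin (2 * k)) R) :
    Pool.PF.pf k (altOf A) = Pool.PF.pf k A := by
  refine Pool.PF.pf_congr k fun i j hij => ?_
  simp [altOf, hij]

/-- the rational function `g` is algebraic over the ring generated over `E` by `k` Pfaffians of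
matrices of order at most `2 m` with entries of degree at most one -/
def PfFunction {E V : Type} [Field E] (k m : ℕ) (g : FractionRing (MvPolynomial V E)) : Prop :=
  ∃ (s : Fin k → ℕ) (A : ∀ i, Matrix (Fin (2 * s i)) (Fin (2 * s i)) (MvPolynomial V E)),
    (∀ i, s i ≤ m) ∧ (∀ i a b, (A i a b).totalDegree ≤ 1) ∧
    IsAlgebraic (Algebra.adjoin E (Set.range fun i =>
      algebraMap (MvPolynomial V E) (FractionRing (MvPolynomial V E)) (Pool.PF.pf (s i) (A i)))) g

theorem PfFunction.detFunction {E V : Type} [Field E] {k m : ℕ}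
    {g : FractionRing (MvPolynomial V E)} (h : PfFunction k m g) : DetFunction k (2 * m) g := by
  obtain ⟨s, A, hs, hA, hg⟩ := h
  refine ⟨fun i => 2 * s i, fun i => altOf (A i), fun i => Nat.mul_le_mul_left 2 (hs i), ?_, ?_⟩
  · intro i a b
    simp only [altOf, Matrix.of_apply]
    split_ifs
    · exact hA i a b
    · rw [totalDegree_neg]; exact hA i b a
    · rw [totalDegree_zero]; exact Nat.zero_le _
  · refine isAlgebraic_adjoin_trans ?_ hg
    rintro _ ⟨i, rfl⟩
    have h1 : (algebraMap (MvPolynomial V E) (FractionRing (MvPolynomial V E))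
        (Pool.PF.pf (s i) (A i))) ^ 2 = algebraMap (MvPolynomial V E)
          (FractionRing (MvPolynomial V E)) (altOf (A i)).det := by
      rw [← map_pow, ← pf_altOf, Pool.PF.pf_sq (altOf_isAlt _)]
    refine IsAlgebraic.of_pow (n := 2) (by norm_num) ?_
    rw [h1]
    exact isAlgebraic_algebraMap (⟨_, Algebra.subset_adjoin ⟨i, rfl⟩⟩ :
      Algebra.adjoin E (Set.range fun i => algebraMap (MvPolynomial V E)
        (FractionRing (MvPolynomial V E)) (altOf (A i)).det))

end Pool.FD
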