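import Pool.Agent.FD.FinalAlg
import Pool.Agent.FD.DegMain
import Pool.Agent.Helper91.HN.Num6c
import Pool.Agent.FD.PfAlg

/-!
Functions of determinants and of Pfaffians, entries of degree `δ`: assembly.
-/

open MvPolynomial Finset
open scoped BigOperators ENNReal

namespace Pool.FDP

open Pool.FD

/-- assembly for determinants -/
theorem finalDeg :
    ∃ c : ℝ, 0 < c ∧ ∀ (K R E : Type) [Field K] [CharZero K] [CommRing R] [Field E]
      (ev : R →+* K) (j : R →+* E), Function.Surjective ev → Function.Injective j →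
      ∀ (n m k δ T : ℕ), 2 ≤ n → 1 ≤ m → 1 ≤ k → 1 ≤ δ →
      ∀ P : MvPolynomial (Fin n × Fin n) R,
      MvPolynomial.map ev P =
        (Matrix.of fun i j => (X (i, j) : MvPolynomial (Fin n × Fin n) K)).permanent →
      ∀ s : Fin T → Fin k → ℕ, (∀ t i, s t i ≤ m) →
      ∀ A : ∀ t i, Matrix (Fin (s t i)) (Fin (s t i)) (MvPolynomial (Fin n × Fin n) E),
      (∀ t i a b, (A t i a b).totalDegree ≤ δ) →
      ∀ g : Fin T → FractionRing (MvPolynomial (Fin n × Fin n) E),
      (∀ t, IsAlgebraic (Algebra.adjoin E (Set.range fun i =>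
        algebraMap (MvPolynomial (Fin n × Fin n) E)
          (FractionRing (MvPolynomial (Fin n × Fin n) E)) (A t i).det)) (g t)) →
      algebraMap (MvPolynomial (Fin n × Fin n) E)
        (FractionRing (MvPolynomial (Fin n × Fin n) E)) (MvPolynomial.map j P) = ∑ t, g t →
      c * min ((n : ℝ) / (δ * Real.log n))
        (min ((n : ℝ) / (((m : ℝ) * δ) ^ (1 / 3 : ℝ) * Real.log n))
          (min (((n : ℝ) ^ 4 / (k * ((m : ℝ) * δ) ^ 2 * Real.log n ^ 4)) ^ (1 / 3 : ℝ))
            ((n : ℝ) ^ 2 / (k * Real.log n ^ 2)))) ≤ Real.log (2 * T) := by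
  have hC : (1 : ℝ) ≤ 8 * Real.exp 4 := by
    have : (1 : ℝ) ≤ Real.exp 4 := Real.one_le_exp (by norm_num)
    linarith
  obtain ⟨c, hc, hnum⟩ := Pool.FDN.numerics3 (8 * Real.exp 4) hC
  refine ⟨c, hc, ?_⟩
  intro K R E _ _ _ _ ev j hev hj n m k δ T hn hm hk hδ P hP s hs A hA g hg h
  have hT : 1 ≤ T := by
    rcases Nat.eq_zero_or_pos T with h0 | h0
    · exfalso
      subst h0
      rw [Finset.univ_eq_empty, Finset.sum_empty] at h
      have h1 : MvPolynomial.map j P = 0 :=
        IsFractionRing.injective (MvPolynomial (Fin n × Fin n) E)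
          (FractionRing (MvPolynomial (Fin n × Fin n) E)) (by rw [h, map_zero])
      have h2 : P = 0 := MvPolynomial.map_injective j hj (by rw [h1, map_zero])
      rw [h2, map_zero] at hP
      exact perm_ne_zero K n hP.symm
    · exact h0
  refine hnum n m k δ T hn hm hk hδ hT ?_
  intro D N a d hD hd haN hnD q hq0 hq1
  choose B hB hB2 using fun t i => exists_pad (hs t i) (A t i)
  have hBdeg : ∀ t i a b, (B t i a b).totalDegree ≤ δ := by
    intro t i a b
    rcases hB2 t i a b with ⟨a', b', h1⟩ | h1 | h1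
    · rw [h1]; exact hA t i a' b'
    · rw [h1, totalDegree_zero]; exact Nat.zero_le _
    · rw [h1, totalDegree_one]; exact Nat.zero_le _
  have hg' : ∀ t, IsAlgebraic (Algebra.adjoin E (Set.range fun i =>
      algebraMap (MvPolynomial (Fin n × Fin n) E) (FF E (Fin n × Fin n)) (B t i).det))
      (g t) := by
    intro t
    have h2 : (fun i => algebraMap (MvPolynomial (Fin n × Fin n) E) (FF E (Fin n × Fin n))
        (B t i).det) = fun i => algebraMap (MvPolynomial (Fin n × Fin n) E)
          (FF E (Fin n × Fin n)) (A t i).det := funext fun i => by rw [hB]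
    rw [h2]
    exact hg t
  have h1 := mainDeg_real ev hev j hj hk hd hδ haN hnD P hP B hBdeg g hg' h q hq0 hq1
  refine h1.trans ?_
  have h3 : q ^ δ ≤ 1 := pow_le_one₀ hq0.le hq1.le
  have h4 : 0 ≤ q ^ δ := pow_nonneg hq0.le _
  have h2 := count2_explicit k m D d hD hd (1 - q ^ δ) (by linarith) (by linarith)
  gcongr

/-- the rational function `g` is algebraic over the ring generated over `E` by `k` Pfaffians of
matrices of order at most `2 m` with entries of degree at most `δ` -/
def PfFunction {E V : Type} [Field E] (k m δ : ℕ) (g : FractionRing (MvPolynomial V E)) : Prop :=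
  ∃ (s : Fin k → ℕ) (A : ∀ i, Matrix (Fin (2 * s i)) (Fin (2 * s i)) (MvPolynomial V E)),
    (∀ i, s i ≤ m) ∧ (∀ i a b, (A i a b).totalDegree ≤ δ) ∧
    IsAlgebraic (Algebra.adjoin E (Set.range fun i =>
      algebraMap (MvPolynomial V E) (FractionRing (MvPolynomial V E)) (Pool.PF.pf (s i) (A i)))) g

/-- functions of Pfaffians are functions of determinants -/
theorem PfFunction.exists_det {E V : Type} [Field E] {k m δ : ℕ}
    {g : FractionRing (MvPolynomial V E)} (h : PfFunction k m δ g) :
    ∃ (s : Fin k → ℕ) (A : ∀ i, Matrix (Fin (s i)) (Fin (s i)) (MvPolynomial V E)),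
      (∀ i, s i ≤ 2 * m) ∧ (∀ i a b, (A i a b).totalDegree ≤ δ) ∧
      IsAlgebraic (Algebra.adjoin E (Set.range fun i =>
        algebraMap (MvPolynomial V E) (FractionRing (MvPolynomial V E)) (A i).det)) g := by
  obtain ⟨s, A, hs, hA, hg⟩ := h
  refine ⟨fun i => 2 * s i, fun i => altOf (A i), fun i => Nat.mul_le_mul_left 2 (hs i), ?_, ?_⟩
  · intro i a b
    simp only [altOf, Matrix.of_apply]
    split_ifs
    · exact hA i a b
    · rw [totalDegree_neg]; exact hA i b a
    · rw [totalDegree_zero]; exact Nat.zero_le _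
  · refine isAlgebraic_adjoin_trans ?_ hg
    rintro _ ⟨i, rfl⟩
    have h1 : (algebraMap (MvPolynomial V E) (FractionRing (MvPolynomial V E))
        (Pool.PF.pf (s i) (A i))) ^ 2 = algebraMap (MvPolynomial V E)
          (FractionRing (MvPolynomial V E)) (altOf (A i)).det := by
      rw [← map_pow, ← pf_altOf, Pool.PF.pf_sq (altOf_isAlt _)]
    refine IsAlgebraic.of_pow (n := 2) (by norm_num) ?_
    rw [h1]
    exact isAlgebraic_algebraMap (⟨_, Algebra.subset_adjoin ⟨i, rfl⟩⟩ :
      Algebra.adjoin E (Set.range fun i => algebraMap (MvPolynomial V E)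
        (FractionRing (MvPolynomial V E)) (altOf (A i)).det))

end Pool.FDP
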