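import Pool.Agent.FD.Defs
import Pool.Agent.Helper90.SD.M1

/-!
Functions of determinants (FD), row F3: rewriting of products of cofactors of generic matrices.
-/

open MvPolynomial Finset

namespace Pool.FD
namespace F3

open Pool.Agent.Helper90.SD (dg ht)

/-- the cofactor of a cell -/
noncomputable def cof (K : Type*) [Field K] {k m : ℕ} (x : Cell k m) : MvPolynomial (Cell k m) K :=
  (gmat K k m x.1).adjugate x.2.2 x.2.1

/-- the weight of a variable -/
def wt {k m : ℕ} (x : Cell k m) : ℕ := (x.2.1 : ℕ) * x.2.2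

/-- the weight of a cofactor -/
def dgx {k m : ℕ} (x : Cell k (m + 1)) : ℕ := dg x.2.1.succAbove x.2.2.succAbove

/-- the index of a cofactor -/
def idx {k m : ℕ} (x : Cell k (m + 1)) : ℕ := (m - x.2.1) + (m - x.2.2)

/-- the measure of a product -/
def mu {k m : ℕ} (ν e : Cell k (m + 1) →₀ ℕ) : ℕ ×ₗ ℕ :=
  toLex (∑ x, ν x * wt x + ∑ x, e x * dgx x, ∑ x, e x * idx x)

section numbers

variable {m : ℕ}

/-- change of the row -/
lemma num_row {a : Fin (m + 1)} (h : a ≠ Fin.last m) (b a' : Fin (m + 1)) (ha : a' ≠ a) :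
    (a' : ℕ) * (b.succAbove (a.castPred h) : ℕ) + dg a'.succAbove b.succAbove <
        (a : ℕ) * (b.succAbove (a.castPred h) : ℕ) + dg a.succAbove b.succAbove ∨
      ((a' : ℕ) * (b.succAbove (a.castPred h) : ℕ) + dg a'.succAbove b.succAbove =
        (a : ℕ) * (b.succAbove (a.castPred h) : ℕ) + dg a.succAbove b.succAbove ∧
        m - (a' : ℕ) < m - (a : ℕ)) := by
  have hR : StrictMono (id : Fin (m + 1) → Fin (m + 1)) := strictMono_id
  have hg : StrictMono b.succAbove := Fin.strictMono_succAbove b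
  set s := a.castPred h with hs
  have hsa : s.castSucc = a := Fin.castSucc_castPred a h
  have e : ∀ r : Fin (m + 1), ht id b.succAbove s r =
      (r : ℕ) * (b.succAbove s : ℕ) + dg r.succAbove b.succAbove := fun r => rfl
  have hsv : (s : ℕ) = a := by rw [← hsa]; rfl
  rcases lt_or_gt_of_ne ha with hlt | hgt
  · left
    have hlt' : (a' : ℕ) < a := hlt
    have := Pool.Agent.Helper90.SD.ht_lt_of_lt hR hg s (s - a' - 1) a' (by omega)
    rwa [e, e, hsa] at this
  · have hgt' : (a : ℕ) < a' := hgt
    have := Pool.Agent.Helper90.SD.ht_le_of_ge hR hg s (a' - s) a' (by omega)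
    rw [e, e, hsa] at this
    rcases this.lt_or_eq with h1 | h1
    · exact Or.inl h1
    · right
      refine ⟨h1, ?_⟩
      have := a'.isLt
      omega

/-- change of the column -/
lemma num_col {b : Fin (m + 1)} (h : b ≠ Fin.last m) (a b' : Fin (m + 1)) (hb : b' ≠ b) :
    (a.succAbove (b.castPred h) : ℕ) * (b' : ℕ) + dg a.succAbove b'.succAbove <
        (a.succAbove (b.castPred h) : ℕ) * (b : ℕ) + dg a.succAbove b.succAbove ∨
      ((a.succAbove (b.castPred h) : ℕ) * (b' : ℕ) + dg a.succAbove b'.succAbove =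
        (a.succAbove (b.castPred h) : ℕ) * (b : ℕ) + dg a.succAbove b.succAbove ∧
        m - (b' : ℕ) < m - (b : ℕ)) := by
  have := num_row h a b' hb
  rw [Pool.Agent.Helper90.SD.dg_comm a.succAbove, Pool.Agent.Helper90.SD.dg_comm a.succAbove,
    mul_comm _ (b' : ℕ), mul_comm _ (b : ℕ)]
  exact this

end numbers

variable {K : Type*} [Field K] {k m : ℕ}

lemma rel_row (i : Fin k) {b b' : Fin m} (h : b ≠ b') :
    ∑ a : Fin m, X (i, a, b') * cof K (i, a, b) = 0 := by
  have h2 := congrFun (congrFun (Matrix.adjugate_mul (gmat K k m i)) b) b'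
  rw [Matrix.mul_apply, Matrix.smul_apply, Matrix.one_apply_ne h, smul_zero] at h2
  rw [← h2]
  exact sum_congr rfl fun a _ => mul_comm _ _

lemma rel_col (i : Fin k) {a a' : Fin m} (h : a' ≠ a) :
    ∑ b : Fin m, X (i, a', b) * cof K (i, a, b) = 0 := by
  have h2 := congrFun (congrFun (Matrix.mul_adjugate (gmat K k m i)) a') a
  rw [Matrix.mul_apply, Matrix.smul_apply, Matrix.one_apply_ne h, smul_zero] at h2
  rw [← h2]
  rfl

lemma wsum_add {σ : Type*} [Fintype σ] (w : σ → ℕ) (y : σ) (v : σ →₀ ℕ) :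
    ∑ z, (Finsupp.single y 1 + v : σ →₀ ℕ) z * w z = w y + ∑ z, v z * w z := by
  classical
  simp_rw [Finsupp.add_apply, add_mul, Finset.sum_add_distrib]
  congr 1
  rw [Finset.sum_eq_single y]
  · simp
  · intro z _ hz; simp [Ne.symm hz]
  · intro h; exact absurd (Finset.mem_univ y) h

lemma typ_add (x : Cell k m) (e : Cell k m →₀ ℕ) :
    typ (Finsupp.single x 1 + e) = Finsupp.single x.1 1 + typ e := by
  rw [typ, Finsupp.mapDomain_add, Finsupp.mapDomain_single]
  rfl

lemma pg_eq (D : ℕ) (e : Cell k m →₀ ℕ) :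
    pg K D e = (∏ i, (gmat K k m i).det ^ (D - typ e i)) * e.prod fun c s => cof K c ^ s := rfl

lemma prod_add (x : Cell k m) (e : Cell k m →₀ ℕ) :
    ((Finsupp.single x 1 + e : Cell k m →₀ ℕ).prod fun c s => cof K c ^ s) =
      cof K x * e.prod fun c s => cof K c ^ s := by
  classical
  rw [Finsupp.prod_add_index (fun c _ => pow_zero _) (fun c _ s t => pow_add _ s t)]
  rw [Finsupp.prod_single_index (h := fun c s => cof K c ^ s) (pow_zero _), pow_one]

lemma pg_add (D : ℕ) (x : Cell k m) (e : Cell k m →₀ ℕ) :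
    pg K D (Finsupp.single x 1 + e) =
      cof K x * ((∏ i, (gmat K k m i).det ^ (D - (Finsupp.single x.1 1 + typ e : Fin k →₀ ℕ) i)) *
        e.prod fun c s => cof K c ^ s) := by
  rw [pg_eq, typ_add, prod_add]
  ring

/-- products with the same degree, the same type and a smaller measure -/
def smaller (K : Type*) [Field K] {k m : ℕ} (D : ℕ) (ν e : Cell k (m + 1) →₀ ℕ) :
    Set (MvPolynomial (Cell k (m + 1)) K) :=
  {p | ∃ ν' e' : Cell k (m + 1) →₀ ℕ, ν'.degree = ν.degree ∧ e'.degree = e.degree ∧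
    typ e' = typ e ∧ mu ν' e' < mu ν e ∧ p = monomial ν' 1 * pg K D e'}

lemma alg {R ι : Type*} [CommRing R] [Fintype ι] (A C V Q : R) (A' C' : ι → R)
    (h : A * C + ∑ j, A' j * C' j = 0) : A * V * (C * Q) = -∑ j, A' j * V * (C' j * Q) := by
  have h3 := eq_neg_of_add_eq_zero_left h
  calc A * V * (C * Q) = (A * C) * (V * Q) := by ring
    _ = -∑ j, A' j * V * (C' j * Q) := by
      rw [h3, neg_mul, Finset.sum_mul]
      congr 1
      exact Finset.sum_congr rfl fun j _ => by ring

lemma step_of {ι : Type*} [Fintype ι] {x y : Cell k (m + 1)} (x' y' : ι → Cell k (m + 1))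
    (hrel : X y * cof K x + ∑ j, X (y' j) * cof K (x' j) = 0)
    (h1 : ∀ j, (x' j).1 = x.1)
    (h2 : ∀ j, wt (y' j) + dgx (x' j) < wt y + dgx x ∨
      (wt (y' j) + dgx (x' j) = wt y + dgx x ∧ idx (x' j) < idx x))
    (D : ℕ) (v e : Cell k (m + 1) →₀ ℕ) :
    monomial (Finsupp.single y 1 + v) (1 : K) * pg K D (Finsupp.single x 1 + e) ∈
      Submodule.span K (smaller K D (Finsupp.single y 1 + v) (Finsupp.single x 1 + e)) := by
  have e1 : ∀ y : Cell k (m + 1), monomial (Finsupp.single y 1 + v) (1 : K) =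
      X y * monomial v 1 := fun y => by rw [X, monomial_mul, one_mul]
  have key : monomial (Finsupp.single y 1 + v) (1 : K) * pg K D (Finsupp.single x 1 + e) =
      -∑ j, monomial (Finsupp.single (y' j) 1 + v) (1 : K) * pg K D (Finsupp.single (x' j) 1 + e) := by
    simp_rw [e1, pg_add, h1]
    exact alg _ _ _ _ _ _ hrel
  rw [key]
  refine Submodule.neg_mem _ (Submodule.sum_mem _ fun j _ => Submodule.subset_span ?_)
  refine ⟨_, _, ?_, ?_, ?_, ?_, rfl⟩
  · rw [map_add, map_add, Finsupp.degree_single, Finsupp.degree_single]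
  · rw [map_add, map_add, Finsupp.degree_single, Finsupp.degree_single]
  · rw [typ_add, typ_add, h1]
  · unfold mu
    rw [Prod.Lex.toLex_lt_toLex]
    simp only [wsum_add]
    rcases h2 j with h | ⟨h, h'⟩
    · left; omega
    · right; constructor <;> omega

lemma step {x y : Cell k (m + 1)} (hy : y ∈ fb x) (D : ℕ) (v e : Cell k (m + 1) →₀ ℕ) :
    monomial (Finsupp.single y 1 + v) (1 : K) * pg K D (Finsupp.single x 1 + e) ∈
      Submodule.span K (smaller K D (Finsupp.single y 1 + v) (Finsupp.single x 1 + e)) := by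
  obtain ⟨i, a, b⟩ := x
  rw [fb, Finset.mem_union] at hy
  rcases hy with hy | hy
  · by_cases h : a = Fin.last m
    · simp [h] at hy
    · simp only [h, dite_false, Finset.mem_singleton] at hy
      subst hy
      have hrel := rel_row (K := K) i (b := b) (b' := b.succAbove (a.castPred h))
        (Fin.succAbove_ne _ _).symm
      rw [Fin.sum_univ_succAbove _ a] at hrel
      refine step_of (fun r : Fin m => (i, a.succAbove r, b))
        (fun r => (i, a.succAbove r, b.succAbove (a.castPred h))) hrel (fun _ => rfl) (fun r => ?_) D v e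
      have := num_row h b (a.succAbove r) (Fin.succAbove_ne _ _)
      simp only [wt, dgx, idx]
      omega
  · by_cases h : b = Fin.last m
    · simp [h] at hy
    · simp only [h, dite_false, Finset.mem_singleton] at hy
      subst hy
      have hrel := rel_col (K := K) i (a := a) (a' := a.succAbove (b.castPred h))
        (Fin.succAbove_ne _ _)
      rw [Fin.sum_univ_succAbove _ b] at hrel
      refine step_of (fun r : Fin m => (i, a, b.succAbove r))
        (fun r => (i, a.succAbove (b.castPred h), b.succAbove r)) hrel (fun _ => rfl)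
        (fun r => ?_) D v e
      have := num_col h a (b.succAbove r) (Fin.succAbove_ne _ _)
      simp only [wt, dgx, idx]
      omega

lemma exists_single_add {σ : Type*} (u : σ →₀ ℕ) {x : σ} (h : u x ≠ 0) :
    ∃ v, u = Finsupp.single x 1 + v := by
  classical
  refine exists_add_of_le (a := Finsupp.single x 1) (b := u) fun y => ?_
  rcases eq_or_ne y x with rfl | hy
  · simpa using Nat.one_le_iff_ne_zero.2 h
  · simp [Ne.symm hy]

end F3

open F3

/-- **rewriting of products of cofactors** -/
theorem pg_reduces {K : Type*} [Field K] {k m : ℕ} (D : ℕ) (γ : Fin k →₀ ℕ) :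
    Pool.SDD.Reduces (fun e : Idx (k := k) (m := m + 1) D γ => pg K D e.1)
      (fun e => fbs e.1) := by
  classical
  have main : ∀ (z : ℕ ×ₗ ℕ) (ν : Cell k (m + 1) →₀ ℕ) (e : Idx (k := k) (m := m + 1) D γ),
      mu ν e.1 = z → monomial ν (1 : K) * pg K D e.1 ∈ Submodule.span K
        {f | ∃ (ν' : Cell k (m + 1) →₀ ℕ) (j : Idx (k := k) (m := m + 1) D γ),
          ν'.degree = ν.degree ∧ Disjoint ν'.support (fbs j.1) ∧
          f = monomial ν' 1 * pg K D j.1} := by
    intro z
    induction z using WellFoundedLT.induction with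
    | ind z ih =>
      intro ν e hz
      by_cases hred : Disjoint ν.support (fbs e.1)
      · exact Submodule.subset_span ⟨ν, e, rfl, hred, rfl⟩
      · rw [Finset.disjoint_left] at hred
        push Not at hred
        obtain ⟨y, hy1, hy2⟩ := hred
        rw [fbs, Finset.mem_biUnion] at hy2
        obtain ⟨x, hx1, hx2⟩ := hy2
        obtain ⟨v, hv⟩ := exists_single_add ν (Finsupp.mem_support_iff.1 hy1)
        obtain ⟨e1, he1⟩ := exists_single_add e.1 (Finsupp.mem_support_iff.1 hx1)
        have hmem : monomial ν (1 : K) * pg K D e.1 ∈ Submodule.span K (smaller K D ν e.1) := by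
          rw [hv, he1]
          exact step hx2 D v e1
        refine Submodule.span_le.2 ?_ hmem
        rintro p ⟨ν', e', h1, h2, h3, h4, rfl⟩
        have := ih _ (hz ▸ h4) ν' ⟨e', h2.trans e.2.1, h3 ▸ e.2.2⟩ rfl
        rw [h1] at this
        exact this
  intro ν e
  exact main _ ν e rfl

end Pool.FD
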