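import Pool.Agent.FD.F3
import Pool.Agent.FD.Defs2

/-!
Functions of determinants (FD): rewriting for an arbitrary set of types (helper90's proof).
-/

open MvPolynomial Finset
open scoped BigOperators

namespace Pool.FD

open F3

/-- **rewriting of products of cofactors**, arbitrary set of types -/
theorem pg_reduces2 {K : Type*} [Field K] {k m : ℕ} (D : ℕ) (TT : Set (Fin k →₀ ℕ)) :
    Pool.SDD.Reduces (fun e : Idx2 (k := k) (m := m + 1) D TT => pg K D e.1)
      (fun e => fbs e.1) := by
  classical
  have main : ∀ (z : ℕ ×ₗ ℕ) (ν : Cell k (m + 1) →₀ ℕ) (e : Idx2 (k := k) (m := m + 1) D TT),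
      mu ν e.1 = z → monomial ν (1 : K) * pg K D e.1 ∈ Submodule.span K
        {f | ∃ (ν' : Cell k (m + 1) →₀ ℕ) (j : Idx2 (k := k) (m := m + 1) D TT),
          ν'.degree = ν.degree ∧ Disjoint ν'.support (fbs j.1) ∧
          f = monomial ν' 1 * pg K D j.1} := by
    intro z
    induction z using WellFoundedLT.induction with
    | ind z ih =>
      intro ν e hz
      by_cases hred : Disjoint ν.support (fbs e.1)
      · exact Submodule.subset_span ⟨ν, e, rfl, hred, rfl⟩
      · rw [Finset.disjoint_left] at hred
        push Not at hred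
        obtain ⟨y, hy1, hy2⟩ := hred
        rw [fbs, Finset.mem_biUnion] at hy2
        obtain ⟨x, hx1, hx2⟩ := hy2
        obtain ⟨v, hv⟩ := exists_single_add ν (Finsupp.mem_support_iff.1 hy1)
        obtain ⟨e1, he1⟩ := exists_single_add e.1 (Finsupp.mem_support_iff.1 hx1)
        have hmem : monomial ν (1 : K) * pg K D e.1 ∈ Submodule.span K (smaller K D ν e.1) := by
          rw [hv, he1]
          exact step hx2 D v e1
        refine Submodule.span_le.2 ?_ hmem
        rintro p ⟨ν', e', h1, h2, h3, h4, rfl⟩
        have := ih _ (hz ▸ h4) ν' ⟨e', h2.trans e.2.1, h3 ▸ e.2.2⟩ rfl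
        rw [h1] at this
        exact this
  intro ν e
  exact main _ ν e rfl

end Pool.FD
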