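import Pool.Agent.FD.MainAlg
import Pool.Agent.FD.Count2
import Pool.Agent.Helper91.HN.Num6b

/-!
Functions of determinants (FD): assembly.
-/

open MvPolynomial Finset
open scoped BigOperators ENNReal

namespace Pool.FD

/-- a matrix of order at most `m` can be replaced by one of order `m + 1` -/
lemma exists_pad {R : Type*} [CommRing R] {s m : ℕ} (hs : s ≤ m) (A : Matrix (Fin s) (Fin s) R) :
    ∃ B : Matrix (Fin (m + 1)) (Fin (m + 1)) R, B.det = A.det ∧
      ∀ a b, (∃ a' b', B a b = A a' b') ∨ B a b = 0 ∨ B a b = 1 := by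
  let e : Fin s ⊕ Fin (m + 1 - s) ≃ Fin (m + 1) :=
    finSumFinEquiv.trans (finCongr (by omega))
  refine ⟨Matrix.reindex e e (Matrix.fromBlocks A 0 0 1), ?_, ?_⟩
  · rw [Matrix.det_reindex_self, Matrix.det_fromBlocks_zero₂₁, Matrix.det_one, mul_one]
  · intro a b
    rw [Matrix.reindex_apply, Matrix.submatrix_apply]
    rcases e.symm a with a' | a' <;> rcases e.symm b with b' | b'
    · exact Or.inl ⟨a', b', rfl⟩
    · exact Or.inr (Or.inl rfl)
    · exact Or.inr (Or.inl rfl)
    · rw [Matrix.fromBlocks_apply₂₂, Matrix.one_apply]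
      split_ifs
      · exact Or.inr (Or.inr rfl)
      · exact Or.inr (Or.inl rfl)

lemma perm_ne_zero (K : Type*) [Field K] (n : ℕ) :
    (Matrix.of fun i j => (X (i, j) : MvPolynomial (Fin n × Fin n) K)).permanent ≠ 0 := by
  classical
  intro h
  have h1 := congrArg (eval fun p : Fin n × Fin n => if p.1 = p.2 then (1 : K) else 0) h
  rw [map_zero] at h1
  unfold Matrix.permanent at h1
  rw [map_sum, Finset.sum_eq_single (1 : Equiv.Perm (Fin n))] at h1
  · simp at h1
  · intro σ _ hσ
    rw [map_prod]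
    obtain ⟨i, hi⟩ : ∃ i, σ i ≠ i := by
      by_contra hcon
      push Not at hcon
      exact hσ (Equiv.ext hcon)
    refine Finset.prod_eq_zero (Finset.mem_univ i) ?_
    simp [hi]
  · intro h2; exact absurd (Finset.mem_univ _) h2

/-- assembly -/
theorem final :
    ∃ c : ℝ, 0 < c ∧ ∀ (K R E : Type) [Field K] [CharZero K] [CommRing R] [Field E]
      (ev : R →+* K) (j : R →+* E), Function.Surjective ev → Function.Injective j →
      ∀ (n m k T : ℕ), 2 ≤ n → 1 ≤ m → 1 ≤ k →
      ∀ P : MvPolynomial (Fin n × Fin n) R,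
      MvPolynomial.map ev P =
        (Matrix.of fun i j => (X (i, j) : MvPolynomial (Fin n × Fin n) K)).permanent →
      ∀ s : Fin T → Fin k → ℕ, (∀ t i, s t i ≤ m) →
      ∀ A : ∀ t i, Matrix (Fin (s t i)) (Fin (s t i)) (MvPolynomial (Fin n × Fin n) E),
      (∀ t i a b, (A t i a b).totalDegree ≤ 1) →
      ∀ g : Fin T → FractionRing (MvPolynomial (Fin n × Fin n) E),
      (∀ t, IsAlgebraic (Algebra.adjoin E (Set.range fun i =>
        algebraMap (MvPolynomial (Fin n × Fin n) E)
          (FractionRing (MvPolynomial (Fin n × Fin n) E)) (A t i).det)) (g t)) →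
      algebraMap (MvPolynomial (Fin n × Fin n) E)
        (FractionRing (MvPolynomial (Fin n × Fin n) E)) (MvPolynomial.map j P) = ∑ t, g t →
      c * min ((n : ℝ) / ((m : ℝ) ^ (1 / 3 : ℝ) * Real.log n))
        (min (((n : ℝ) ^ 4 / (k * (m : ℝ) ^ 2 * Real.log n ^ 4)) ^ (1 / 3 : ℝ))
          ((n : ℝ) ^ 2 / (k * Real.log n ^ 2))) ≤ Real.log (2 * T) := by
  have hC : (1 : ℝ) ≤ 8 * Real.exp 4 := by
    have : (1 : ℝ) ≤ Real.exp 4 := Real.one_le_exp (by norm_num)
    linarith
  obtain ⟨c, hc, hnum⟩ := Pool.FDN.numerics2 (8 * Real.exp 4) hC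
  refine ⟨c, hc, ?_⟩
  intro K R E _ _ _ _ ev j hev hj n m k T hn hm hk P hP s hs A hA g hg h
  have hT : 1 ≤ T := by
    rcases Nat.eq_zero_or_pos T with h0 | h0
    · exfalso
      subst h0
      rw [Finset.univ_eq_empty, Finset.sum_empty] at h
      have h1 : MvPolynomial.map j P = 0 :=
        IsFractionRing.injective (MvPolynomial (Fin n × Fin n) E)
          (FractionRing (MvPolynomial (Fin n × Fin n) E)) (by rw [h, map_zero])
      have h2 : P = 0 := MvPolynomial.map_injective j hj (by rw [h1, map_zero])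
      rw [h2, map_zero] at hP
      exact perm_ne_zero K n hP.symm
    · exact h0
  refine hnum n m k T hn hm hk hT ?_
  intro D N a d hD hd haN hnD q hq0 hq1
  choose B hB hB2 using fun t i => exists_pad (hs t i) (A t i)
  have hBdeg : ∀ t i a b, (B t i a b).totalDegree ≤ 1 := by
    intro t i a b
    rcases hB2 t i a b with ⟨a', b', h1⟩ | h1 | h1
    · rw [h1]; exact hA t i a' b'
    · rw [h1, totalDegree_zero]; exact Nat.zero_le _
    · rw [h1, totalDegree_one]; exact Nat.zero_le _
  have hg' : ∀ t, IsAlgebraic (Algebra.adjoin E (Set.range fun i =>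
      algebraMap (MvPolynomial (Fin n × Fin n) E) (FF E (Fin n × Fin n)) (B t i).det))
      (g t) := by
    intro t
    have h2 : (fun i => algebraMap (MvPolynomial (Fin n × Fin n) E) (FF E (Fin n × Fin n))
        (B t i).det) = fun i => algebraMap (MvPolynomial (Fin n × Fin n) E)
          (FF E (Fin n × Fin n)) (A t i).det := funext fun i => by rw [hB]
    rw [h2]
    exact hg t
  have h1 := mainAlg_real ev hev j hj hd haN hnD P hP B hBdeg g hg' h q hq0 hq1
  refine h1.trans ?_
  have h2 := count2_explicit k m D d hD hd (1 - q) (by linarith) (by linarith)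
  gcongr

end Pool.FD
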