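import Pool.Agent.FD.Alg

/-!
# Functions of determinants: the main algebraic statement
-/

set_option autoImplicit false

namespace Pool.FD

open Finset Matrix MvPolynomial Pool.SDL Pool.Agent.SDet

variable {K : Type} [Field K] {τ : Type} {r m D : ℕ}

/-- An enumeration of a multiset of size `D`. -/
noncomputable def enum {β : Type} (x : Sym β D) : Fin D → β :=
  Classical.choose (exists_enum x.1 x.2)

theorem enum_spec {β : Type} (x : Sym β D) : (univ : Finset (Fin D)).val.map (enum x) = x.1 :=
  Classical.choose_spec (exists_enum x.1 x.2)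

/-- The exponent vector of an index. -/
noncomputable def expo (x : Sym (Option (Fin r)) D) : Fin r →₀ ℕ :=
  Finsupp.equivFunOnFinite.symm fun i => x.1.count (some i)

/-- The index of an exponent vector. -/
noncomputable def indx (α : Fin r →₀ ℕ) (h : α.degree ≤ D) : Sym (Option (Fin r)) D :=
  ⟨(Finsupp.toMultiset α).map some + Multiset.replicate (D - α.degree) none, by
    rw [Multiset.card_add, Multiset.card_map, Multiset.card_replicate, Finsupp.card_toMultiset]
    have : (α.sum fun _ => id) = α.degree := by
      rw [Finsupp.degree_apply]; rfl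
    omega⟩

theorem expo_indx (α : Fin r →₀ ℕ) (h : α.degree ≤ D) : expo (indx α h) = α := by
  classical
  ext i
  simp only [expo, indx, Finsupp.equivFunOnFinite_symm_apply_apply, Multiset.count_add]
  rw [Multiset.count_map_eq_count' _ _ (Option.some_injective _), Finsupp.count_toMultiset,
    Multiset.count_replicate, if_neg (by simp), add_zero]

theorem prod_enum {S : Type*} [CommRing S] (α : Fin r →₀ ℕ) (h : α.degree ≤ D) (δ : Fin r → S) :
    ∏ l, (enum (indx α h) l).elim 1 δ = ∏ i, δ i ^ α i := by
  classical
  have h1 : ∏ l, (enum (indx α h) l).elim 1 δ =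
      (((univ : Finset (Fin D)).val.map (enum (indx α h))).map
        fun o : Option (Fin r) => o.elim 1 δ).prod := by
    rw [Multiset.map_map]; rfl
  rw [h1, enum_spec]
  simp only [indx, Multiset.map_add, Multiset.prod_add, Multiset.map_replicate,
    Multiset.prod_replicate, Option.elim_none, one_pow, mul_one, Multiset.map_map]
  rw [show ((fun o : Option (Fin r) => o.elim 1 δ) ∘ some) = δ from rfl, Finsupp.toMultiset_map,
    Finsupp.prod_toMultiset, Finsupp.prod_mapDomain_index (fun _ => pow_zero _)
      (fun _ _ _ => pow_add _ _ _), Finsupp.prod_fintype _ _ (fun _ => pow_zero _)]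

/-- The mixed derivative, at `y = 0`, of a polynomial in determinants. -/
theorem cf_fun (P : MvPolynomial (Fin r) K)
    (L : Fin r → Matrix (Fin m) (Fin m) (MvPolynomial τ K))
    (hL : ∀ i p q, (L i p q).totalDegree ≤ 1) :
    ∃ (h : Sym (Option (Fin r)) D → MvPolynomial τ K)
      (B : Sym (Option (Fin r)) D → Matrix (Fin (D * m)) (Fin (D * m)) (MvPolynomial τ K)),
      (∀ x p q, (B x p q).totalDegree ≤ 1) ∧
      ∀ A : Fin r → Matrix (Fin m) (Fin m) (MvPolynomial (τ ⊕ Fin D) K),
        (∀ i p q, (A i p q).totalDegree ≤ 1) → (∀ i, (A i).map (eps K τ D) = L i) →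
        cf K τ D (aeval (fun i => (A i).det) P) ∈
          ⨆ x, Submodule.map (LinearMap.mulLeft K (h x)) (detSpan (B x) (D * m - D)) := by
  classical
  obtain ⟨h, S, hS⟩ := taylor P (fun i => (L i).det) D
  refine ⟨fun x => h (expo x), fun x => bd fun l => blk L (enum x l), ?_, ?_⟩
  · intro x
    refine totalDegree_bd _ fun l p q => ?_
    rcases enum x l with _ | i
    · simp only [blk, Matrix.one_apply]
      split_ifs <;> simp
    · exact hL i p q
  · intro A hA hAL
    rw [hS fun i => (A i).det, map_sum]
    refine Submodule.sum_mem _ fun α _ => ?_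
    rw [cf_mul]
    rcases le_or_gt α.degree D with hα | hα
    · refine Submodule.mem_iSup_of_mem (indx α hα) ?_
      simp only [expo_indx]
      refine Submodule.mem_map.2 ⟨_, ?_, rfl⟩
      rw [← prod_enum α hα]
      exact cf_prod_mem L hL _ A hA hAL
    · have h1 : ∏ i, ((A i).det - rename Sum.inl (L i).det) ^ α i ∈
          (RingHom.ker (eps K τ D)) ^ α.degree := by
        have h2 : α.degree = ∑ i, α i := by
          rw [Finsupp.degree_eq_sum]
        rw [h2, ← Finset.prod_pow_eq_pow_sum]
        refine Ideal.prod_mem_prod fun i _ => Ideal.pow_mem_pow ?_ _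
        rw [RingHom.mem_ker, map_sub, eps_rename, AlgHom.map_det, ← hAL i]
        exact sub_self _
      rw [cf_eq_zero hα h1, mul_zero]
      exact Submodule.zero_mem _

end Pool.FD
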