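import Pool.Agent.FD.Jet
import Pool.Agent.FD.Closure

/-!
Functions of determinants (FD): the rational function field of the shift.
-/

open MvPolynomial Finset
open scoped BigOperators

namespace Pool.FD

lemma isAlgebraic_adjoin_mono {E R : Type*} [Field E] [CommRing R] [Algebra E R] {s s' : Set R}
    (h : Algebra.adjoin E s ≤ Algebra.adjoin E s') {x : R}
    (hx : IsAlgebraic (Algebra.adjoin E s) x) : IsAlgebraic (Algebra.adjoin E s') x := by
  have h1 := IsAlgebraic.ringHom_of_comp_eq (R := Algebra.adjoin E s)
    (S := Algebra.adjoin E s') (A := R) (B := R) (Subalgebra.inclusion h) (AlgHom.id E R) hx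
    (Subalgebra.inclusion_injective h) (by ext; rfl)
  exact h1

lemma isAlgebraic_map {E R S : Type*} [Field E] [CommRing R] [CommRing S] [Algebra E R]
    [Algebra E S] (φ : R →ₐ[E] S) (hφ : Function.Injective φ) {s : Set R} {x : R}
    (hx : IsAlgebraic (Algebra.adjoin E s) x) :
    IsAlgebraic (Algebra.adjoin E (φ '' s)) (φ x) := by
  let ψ : Algebra.adjoin E s →ₐ[E] Algebra.adjoin E (φ '' s) :=
    (φ.comp (Algebra.adjoin E s).val).codRestrict _ (fun y => by
      rw [← AlgHom.map_adjoin]
      exact ⟨y.1, y.2, rfl⟩)
  have h1 := IsAlgebraic.ringHom_of_comp_eq (R := Algebra.adjoin E s)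
    (S := Algebra.adjoin E (φ '' s)) (A := R) (B := S) ψ φ hx (by
      intro y y' h
      apply Subtype.ext
      apply hφ
      exact congrArg Subtype.val h) (by ext; rfl)
  exact h1

section dir

variable {E X₀ : Type*} [Field E]

lemma dirD_of_degree_le_one (u : X₀ → E) (p : MvPolynomial X₀ E) (hp : p.totalDegree ≤ 1) :
    ∃ x : E, dirD u p = C x := by
  classical
  have h1 : ∀ s ∈ p.support, ∃ x : E, dirD u (monomial s (coeff s p)) = C x := by
    intro s hs
    have h2 : s.degree ≤ 1 := (le_totalDegree hs).trans hp
    rcases Nat.le_one_iff_eq_zero_or_eq_one.1 h2 with h3 | h3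
    · rw [Finsupp.degree_eq_zero_iff] at h3
      subst h3
      refine ⟨0, ?_⟩
      change dirD u (C _) = _
      rw [derivation_C, map_zero]
    · obtain ⟨i, rfl⟩ : ∃ i, s = Finsupp.single i 1 := by
        have h4 : s ≠ 0 := by rintro rfl; simp at h3
        obtain ⟨i, hi⟩ := Finsupp.support_nonempty_iff.2 h4
        refine ⟨i, ?_⟩
        have h5 : Finsupp.single i 1 ≤ s := by
          intro j
          rcases eq_or_ne j i with rfl | hj
          · simpa using Nat.one_le_iff_ne_zero.2 (Finsupp.mem_support_iff.1 hi)
          · simp [Ne.symm hj]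
        obtain ⟨t, ht⟩ := exists_add_of_le h5
        have h6 : t.degree = 0 := by
          have := congrArg Finsupp.degree ht
          rw [map_add, Finsupp.degree_single, h3] at this
          omega
        rw [Finsupp.degree_eq_zero_iff] at h6
        rw [ht, h6, add_zero]
      refine ⟨coeff (Finsupp.single i 1) p * u i, ?_⟩
      have h7 : monomial (Finsupp.single i 1) (coeff (Finsupp.single i 1) p) =
          C (coeff (Finsupp.single i 1) p) * (X i : MvPolynomial X₀ E) := by
        rw [C_mul_X_eq_monomial]
      rw [h7, Derivation.leibniz, derivation_C, smul_zero, add_zero, dirD, mkDerivation_X,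
        smul_eq_mul, map_mul]
  choose! x hx using h1
  refine ⟨∑ s ∈ p.support, x s, ?_⟩
  conv_lhs => rw [p.as_sum]
  rw [map_sum, map_sum]
  exact Finset.sum_congr rfl hx

lemma iter_sum {K S U ι : Type*} [Field K] [CommRing S] [Algebra K S] (d : U → Derivation K S S)
    (l : List U) (s : Finset ι) (g : ι → S) :
    iter d l (∑ t ∈ s, g t) = ∑ t ∈ s, iter d l (g t) := by
  induction l with
  | nil => rfl
  | cons u l ih =>
    change d u (iter d l _) = ∑ t ∈ s, d u (iter d l (g t))
    rw [ih, map_sum]

lemma iter_map {K R S U : Type*} [Field K] [CommRing R] [CommRing S] [Algebra K R] [Algebra K S]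
    [Algebra R S]
    (d : U → Derivation K R R) (d' : U → Derivation K S S)
    (h : ∀ u x, d' u (algebraMap R S x) = algebraMap R S (d u x)) (l : List U) (x : R) :
    iter d' l (algebraMap R S x) = algebraMap R S (iter d l x) := by
  induction l with
  | nil => rfl
  | cons u l ih =>
    change d' u (iter d' l _) = algebraMap R S (d u (iter d l x))
    rw [ih, h]

lemma exists_dirL : ∃ d : (X₀ → E) → Derivation E (FractionRing (MvPolynomial X₀ E))
    (FractionRing (MvPolynomial X₀ E)), ∀ u p,
      d u (algebraMap (MvPolynomial X₀ E) (FractionRing (MvPolynomial X₀ E)) p) =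
        algebraMap (MvPolynomial X₀ E) (FractionRing (MvPolynomial X₀ E)) (dirD u p) := by
  have : Algebra.FormallyEtale (MvPolynomial X₀ E) (FractionRing (MvPolynomial X₀ E)) :=
    Algebra.FormallyEtale.of_isLocalization (nonZeroDivisors (MvPolynomial X₀ E))
  choose d hd using fun u : X₀ → E =>
    Jet.extend (T := FractionRing (MvPolynomial X₀ E)) (dirD u)
  exact ⟨d, hd⟩

end dir

section shift

variable {E X₀ Y : Type*} [Field E] (φ : X₀ → MvPolynomial Y E)

lemma shift_X (x : X₀) : shift φ (X x) =
    C (algebraMap (MvPolynomial X₀ E) (FractionRing (MvPolynomial X₀ E)) (X x)) +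
      MvPolynomial.map (algebraMap E (FractionRing (MvPolynomial X₀ E))) (φ x) := by
  unfold shift
  rw [aeval_X]

lemma shift_injective : Function.Injective (shift φ) := by
  -- evaluate at `Y = 0`
  let c : X₀ → E := fun x => eval 0 (φ x)
  let τ : MvPolynomial X₀ E →ₐ[E] MvPolynomial X₀ E := aeval fun x => X x + C (c x)
  let τ' : MvPolynomial X₀ E →ₐ[E] MvPolynomial X₀ E := aeval fun x => X x - C (c x)
  have h1 : ∀ p, τ' (τ p) = p := by
    intro p
    have : τ'.comp τ = AlgHom.id E _ := by
      ext x
      simp [τ, τ']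
    exact DFunLike.congr_fun this p
  let ev : MvPolynomial Y (FractionRing (MvPolynomial X₀ E)) →ₐ[FractionRing (MvPolynomial X₀ E)]
    FractionRing (MvPolynomial X₀ E) := aeval 0
  have h2 : ∀ p, ev (shift φ p) =
      algebraMap (MvPolynomial X₀ E) (FractionRing (MvPolynomial X₀ E)) (τ p) := by
    intro p
    have : (ev.restrictScalars E).comp (shift φ) =
        (IsScalarTower.toAlgHom E (MvPolynomial X₀ E) (FractionRing (MvPolynomial X₀ E))).comp
          τ := by
      ext x
      simp only [AlgHom.comp_apply, shift_X, AlgHom.restrictScalars_apply, map_add, ev, τ,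
        aeval_X, IsScalarTower.toAlgHom_apply]
      congr 1
      · simp
      · rw [aeval_map_algebraMap, aeval_zero]
        simp only [c]
        rw [eval_zero]
        exact (IsScalarTower.algebraMap_apply E (MvPolynomial X₀ E)
          (FractionRing (MvPolynomial X₀ E)) _)
    exact DFunLike.congr_fun this p
  intro p p' h
  have h3 := congrArg ev h
  rw [h2, h2] at h3
  have h4 := IsFractionRing.injective (MvPolynomial X₀ E) (FractionRing (MvPolynomial X₀ E)) h3
  rw [← h1 p, ← h1 p', h4]

lemma totalDegree_shift_le (hφ : ∀ x, (φ x).totalDegree ≤ 1) (p : MvPolynomial X₀ E)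
    (hp : p.totalDegree ≤ 1) : (shift φ p).totalDegree ≤ 1 := by
  have h1 : shift φ p = aeval (fun x => shift φ (X x)) p := by
    have : shift φ = aeval (fun x => shift φ (X x)) := by
      ext x
      rw [aeval_X]
    exact DFunLike.congr_fun this p
  have h2 : ∀ x, (shift φ (X x : MvPolynomial X₀ E)).totalDegree ≤ 1 := by
    intro x
    rw [shift_X]
    refine (totalDegree_add _ _).trans (max_le ?_ ?_)
    · rw [totalDegree_C]; exact Nat.zero_le _
    · exact (Finset.sup_mono (support_map_subset _ _)).trans (hφ x)
  rw [h1, aeval_def, eval₂_eq]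
  refine (totalDegree_finsetSum _ _).trans (Finset.sup_le fun s hs => ?_)
  refine (totalDegree_mul _ _).trans ?_
  have h3 : (algebraMap E (MvPolynomial Y (FractionRing (MvPolynomial X₀ E)))
      (coeff s p)).totalDegree = 0 := by
    rw [IsScalarTower.algebraMap_apply E (FractionRing (MvPolynomial X₀ E))]
    exact totalDegree_C _
  rw [h3, zero_add]
  refine (totalDegree_finsetProd _ _).trans ?_
  calc ∑ i ∈ s.support, (shift φ (X i : MvPolynomial X₀ E) ^ s i).totalDegree
      ≤ ∑ i ∈ s.support, s i * 1 :=
        Finset.sum_le_sum fun i _ => (totalDegree_pow _ _).trans (Nat.mul_le_mul_left _ (h2 i))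
    _ = s.sum fun _ e => e := by simp [Finsupp.sum]
    _ ≤ p.totalDegree := le_totalDegree hs
    _ ≤ 1 := hp

/-- the extension of the shift to the rational functions -/
theorem exists_shiftLift : ∃ Ψ : FractionRing (MvPolynomial X₀ E) →+*
    FractionRing (MvPolynomial Y (FractionRing (MvPolynomial X₀ E))),
    ∀ p, Ψ (algebraMap (MvPolynomial X₀ E) _ p) = algebraMap _ _ (shift φ p) := by
  let g : MvPolynomial X₀ E →+*
      FractionRing (MvPolynomial Y (FractionRing (MvPolynomial X₀ E))) :=
    (algebraMap (MvPolynomial Y (FractionRing (MvPolynomial X₀ E))) _).comp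
      (shift φ).toRingHom
  have hg : Function.Injective g := by
    intro p p' h
    exact shift_injective φ (IsFractionRing.injective
      (MvPolynomial Y (FractionRing (MvPolynomial X₀ E)))
      (FractionRing (MvPolynomial Y (FractionRing (MvPolynomial X₀ E)))) h)
  exact ⟨IsFractionRing.lift hg, fun p => IsFractionRing.lift_algebraMap hg p⟩

end shift

end Pool.FD
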