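import Pool.Agent.FD.Defs

/-!
FD, row F5: algebraic elements have jets.
-/

open MvPolynomial Finset

namespace Pool.FD

namespace Jet

/-- extension of a derivation to a formally etale algebra -/
theorem extend {R S T : Type*} [CommRing R] [CommRing S] [CommRing T] [Algebra R S]
    [Algebra R T] [Algebra S T] [IsScalarTower R S T] [Algebra.FormallyEtale S T]
    (d : Derivation R S S) :
    ∃ d' : Derivation R T T, ∀ s, d' (algebraMap S T s) = algebraMap S T (d s) := by
  let e := KaehlerDifferential.tensorKaehlerEquivOfFormallyEtale R S T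
  let l : KaehlerDifferential R S →ₗ[S] T := (Algebra.linearMap S T) ∘ₗ d.liftKaehlerDifferential
  let L : TensorProduct S T (KaehlerDifferential R S) →ₗ[T] T := LinearMap.liftBaseChange T l
  let M : KaehlerDifferential R T →ₗ[T] T := L ∘ₗ e.symm.toLinearMap
  refine ⟨M.compDer (KaehlerDifferential.D R T), fun s => ?_⟩
  have h1 : e.symm (KaehlerDifferential.D R T (algebraMap S T s)) =
      TensorProduct.tmul S 1 (KaehlerDifferential.D R S s) :=
    KaehlerDifferential.tensorKaehlerEquivOfFormallyEtale_symm_D_algebraMap R S T s
  show L (e.symm (KaehlerDifferential.D R T (algebraMap S T s))) = _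
  rw [h1]
  simp [L, l]

/-- a derivation of an unramified algebra which vanishes on the base is zero -/
theorem der_zero {K A F M : Type*} [CommRing K] [CommRing A] [CommRing F] [Algebra K A]
    [Algebra K F] [Algebra A F] [IsScalarTower K A F] [Algebra.FormallyUnramified A F]
    [AddCommGroup M] [Module F M] [Module K M] (D : Derivation K F M)
    (h : ∀ a : A, D (algebraMap A F a) = 0) (x : F) : D x = 0 := by
  let _ : Module A M := Module.compHom M (algebraMap A F)
  have : IsScalarTower A F M := ⟨fun a x m => by
    rw [Algebra.smul_def, mul_smul]; rfl⟩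
  let D' : Derivation A F M :=
    { toFun := D
      map_add' := D.map_add
      map_smul' := fun a x => by
        rw [Algebra.smul_def, D.leibniz, h, smul_zero, add_zero]; rfl
      map_one_eq_zero' := D.map_one_eq_zero
      leibniz' := D.leibniz }
  have h2 : D'.liftKaehlerDifferential (KaehlerDifferential.D A F x) = D' x :=
    Derivation.liftKaehlerDifferential_comp_D D' x
  have : Subsingleton (KaehlerDifferential A F) :=
    Algebra.FormallyUnramified.subsingleton_kaehlerDifferential
  rw [Subsingleton.elim (KaehlerDifferential.D A F x) 0, map_zero] at h2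
  exact h2.symm

/-- maximal algebraically independent subfamily -/
theorem exists_basis {K S : Type*} [Field K] [Field S] [Algebra K S] {k : ℕ} (f : Fin k → S) :
    ∃ I : Set (Fin k), AlgebraicIndepOn K f I ∧
      ∀ j, IsAlgebraic (Algebra.adjoin K (f '' I)) (f j) := by
  classical
  obtain ⟨I, hI⟩ : ∃ I, Maximal (fun I : Set (Fin k) => AlgebraicIndepOn K f I) I := by
    have hfin : {I : Set (Fin k) | AlgebraicIndepOn K f I}.Finite := Set.toFinite _
    refine hfin.exists_maximal ⟨∅, ?_⟩
    show AlgebraicIndepOn K f ∅
    have : IsEmpty (↥(∅ : Set (Fin k))) := inferInstance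
    rw [AlgebraicIndepOn, algebraicIndependent_empty_type_iff]
    exact (algebraMap K S).injective
  refine ⟨I, hI.1, fun j => ?_⟩
  by_cases hj : j ∈ I
  · have h1 : f j ∈ Algebra.adjoin K (f '' I) := Algebra.subset_adjoin ⟨j, hj, rfl⟩
    exact isAlgebraic_algebraMap (A := S) (⟨f j, h1⟩ : Algebra.adjoin K (f '' I))
  · by_contra hc
    have h2 : AlgebraicIndepOn K f (insert j I) :=
      (AlgebraicIndepOn.insert_iff hj).2 ⟨hI.1, hc⟩
    exact hj (hI.2 h2 (Set.subset_insert j I) (Set.mem_insert j I))

/-- the partial derivatives on the algebraic closure of the field generated by an algebraically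
independent family: they commute and satisfy the chain rule -/
theorem core {K Q S : Type*} [Field K] [CharZero K] [Field Q] [Field S] [Algebra K Q]
    [Algebra Q S] [Algebra K S] [IsScalarTower K Q S] {k : ℕ} (I : Set (Fin k))
    [Algebra (MvPolynomial I K) Q] [IsFractionRing (MvPolynomial I K) Q]
    [IsScalarTower K (MvPolynomial I K) Q] (f : Fin k → S)
    (hX : ∀ i : I, algebraMap Q S (algebraMap (MvPolynomial I K) Q (X i)) = f i) :
    ∃ e : Fin k → Derivation K (algebraicClosure Q S) (algebraicClosure Q S),
      (∀ i j x, e i (e j x) = e j (e i x)) ∧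
      ∀ (d : Derivation K S S) (x : algebraicClosure Q S),
        d (algebraMap (algebraicClosure Q S) S x) =
          ∑ i, algebraMap (algebraicClosure Q S) S (e i x) * d (f i) := by
  classical
  set F := algebraicClosure Q S with hF
  have hQ : CharZero Q := charZero_of_injective_algebraMap (algebraMap K Q).injective
  let _ : Algebra (MvPolynomial I K) F := ((algebraMap Q F).comp (algebraMap (MvPolynomial I K) Q)).toAlgebra
  have t1 : IsScalarTower (MvPolynomial I K) Q F := IsScalarTower.of_algebraMap_eq fun _ => rfl
  have t0 : IsScalarTower K Q F := inferInstance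
  have t2 : IsScalarTower K (MvPolynomial I K) F := IsScalarTower.of_algebraMap_eq fun x => by
    rw [IsScalarTower.algebraMap_apply K Q F, IsScalarTower.algebraMap_apply K (MvPolynomial I K) Q]
    rfl
  have e1 : Algebra.FormallyEtale (MvPolynomial I K) Q :=
    Algebra.FormallyEtale.of_isLocalization (nonZeroDivisors (MvPolynomial I K))
  have e2 : Algebra.FormallyEtale Q F := Algebra.FormallyEtale.of_isSeparable Q F
  have e3 : Algebra.FormallyEtale (MvPolynomial I K) F :=
    Algebra.FormallyEtale.comp (MvPolynomial I K) Q F
  have t3 : IsScalarTower K F S := IsScalarTower.of_algebraMap_eq fun x => by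
    rw [IsScalarTower.algebraMap_apply K Q F, ← IsScalarTower.algebraMap_apply Q F S,
      ← IsScalarTower.algebraMap_apply K Q S]
  have hex : ∀ i : I, ∃ d' : Derivation K F F, ∀ s, d' (algebraMap (MvPolynomial I K) F s) =
      algebraMap (MvPolynomial I K) F (pderiv i s) := fun i => extend (pderiv i)
  choose p hp using hex
  let e : Fin k → Derivation K F F := fun i => if h : i ∈ I then p ⟨i, h⟩ else 0
  have hcomm : ∀ (i j : I) (a : MvPolynomial I K),
      (pderiv i : Derivation K (MvPolynomial I K) (MvPolynomial I K)) (pderiv j a) =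
        pderiv j (pderiv i a) := by
    intro i j a
    have h1 : (⁅(pderiv i : Derivation K (MvPolynomial I K) (MvPolynomial I K)),
        (pderiv j : Derivation K (MvPolynomial I K) (MvPolynomial I K))⁆ :
          Derivation K (MvPolynomial I K) (MvPolynomial I K)) = 0 := by
      refine MvPolynomial.derivation_ext fun l => ?_
      rw [Derivation.commutator_apply, pderiv_X, pderiv_X, Derivation.zero_apply]
      simp only [Pi.single_apply]
      split_ifs <;> simp
    have h2 := congrArg (fun D => D a) h1
    simp only [Derivation.commutator_apply, Derivation.zero_apply] at h2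
    exact sub_eq_zero.1 h2
  refine ⟨e, ?_, ?_⟩
  · intro i j x
    by_cases hi : i ∈ I
    · by_cases hj : j ∈ I
      · simp only [e, hi, hj, dif_pos]
        have h1 := der_zero (A := MvPolynomial I K) (⁅p ⟨i, hi⟩, p ⟨j, hj⟩⁆) (fun a => by
          rw [Derivation.commutator_apply, hp, hp, hp, hp, hcomm, sub_self]) x
        rw [Derivation.commutator_apply] at h1
        exact sub_eq_zero.1 h1
      · simp [e, hi, hj]
    · simp [e, hi]
  · intro d x
    let D : Derivation K F S := d.compAlgebraMap F -
      ∑ i, (d (f i)) • ((Algebra.linearMap F S).compDer (e i))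
    have hD : ∀ y, D y = d (algebraMap F S y) - ∑ i, d (f i) * algebraMap F S (e i y) := by
      intro y
      have h1 : (∑ i, (d (f i)) • ((Algebra.linearMap F S).compDer (e i))) y =
          ∑ i, d (f i) * algebraMap F S (e i y) := by
        have h2 := map_sum (Derivation.coeFnAddMonoidHom (R := K) (A := F) (M := S))
          (fun i => (d (f i)) • ((Algebra.linearMap F S).compDer (e i))) Finset.univ
        have h3 := congrFun h2 y
        rw [Finset.sum_apply] at h3
        exact h3
      show d (algebraMap F S y) - (∑ i, (d (f i)) • ((Algebra.linearMap F S).compDer (e i))) y = _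
      rw [h1]
    have hA : ∀ a : MvPolynomial I K, D (algebraMap (MvPolynomial I K) F a) = 0 := by
      let _ : Module (MvPolynomial I K) S := Module.compHom S (algebraMap (MvPolynomial I K) F)
      have t4 : IsScalarTower (MvPolynomial I K) F S := ⟨fun a x m => by
        have h := mul_smul (algebraMap (MvPolynomial I K) F a) x m
        rw [← Algebra.smul_def] at h
        exact h⟩
      have t5 : IsScalarTower K (MvPolynomial I K) S := ⟨fun c a m => by
        have h := smul_assoc c (algebraMap (MvPolynomial I K) F a) m
        have h2 : c • algebraMap (MvPolynomial I K) F a = algebraMap (MvPolynomial I K) F (c • a) := by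
          rw [Algebra.smul_def, Algebra.smul_def, map_mul, ← IsScalarTower.algebraMap_apply]
        rw [h2] at h
        exact h⟩
      have h2 : D.compAlgebraMap (MvPolynomial I K) = 0 := by
        refine MvPolynomial.derivation_ext fun i => ?_
        rw [Derivation.zero_apply]
        show D (algebraMap (MvPolynomial I K) F (X i)) = 0
        rw [hD]
        have h3 : algebraMap F S (algebraMap (MvPolynomial I K) F (X i)) = f i := hX i
        rw [h3, sub_eq_zero, Finset.sum_eq_single_of_mem (i : Fin k) (Finset.mem_univ _)]
        · have h4 : e i = p i := by simp [e]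
          rw [h4, hp, pderiv_X_self, map_one, map_one, mul_one]
        · intro b _ hb
          by_cases hbI : b ∈ I
          · have h4 : e b = p ⟨b, hbI⟩ := by simp [e, hbI]
            have h5 : i ≠ ⟨b, hbI⟩ := fun h => hb (by rw [h])
            rw [h4, hp, pderiv_X_of_ne h5, map_zero, map_zero, mul_zero]
          · have h4 : e b = 0 := by simp [e, hbI]
            rw [h4, Derivation.zero_apply, map_zero, mul_zero]
      intro a
      exact congrArg (fun E : Derivation K (MvPolynomial I K) S => E a) h2
    have h1 := der_zero (A := MvPolynomial I K) D hA x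
    rw [hD, sub_eq_zero] at h1
    rw [h1]
    exact Finset.sum_congr rfl fun i _ => mul_comm _ _

theorem mem_closure {K Q S : Type*} [Field K] [Field Q] [Field S] [Algebra Q S] [Algebra K S]
    (B : Subalgebra K S) (hB : ∀ x ∈ B, x ∈ algebraicClosure Q S) (x : S) (hx : IsAlgebraic B x) :
    x ∈ algebraicClosure Q S := by
  let φ : B →+* algebraicClosure Q S :=
    { toFun := fun b => ⟨b, hB b b.2⟩
      map_one' := rfl
      map_mul' := fun _ _ => rfl
      map_zero' := rfl
      map_add' := fun _ _ => rfl }
  let _ : Algebra B (algebraicClosure Q S) := φ.toAlgebra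
  have t : IsScalarTower B (algebraicClosure Q S) S := IsScalarTower.of_algebraMap_eq fun _ => rfl
  have hinj : Function.Injective (algebraMap B (algebraicClosure Q S)) := by
    intro a b hab
    exact Subtype.ext (congrArg (fun y : algebraicClosure Q S => (y : S)) hab)
  have h1 : IsAlgebraic (algebraicClosure Q S) x := hx.extendScalars hinj
  have h2 : IsAlgebraic Q x := h1.restrictScalars Q
  exact (mem_algebraicClosure_iff).2 h2

/-- powers of commuting operators -/
theorem exists_ops {K F : Type*} [Field K] [AddCommGroup F] [Module K F] {k : ℕ}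
    (E : Fin k → Module.End K F) (hE : ∀ i j, E i * E j = E j * E i) :
    ∃ P : (Fin k →₀ ℕ) → Module.End K F, P 0 = 1 ∧
      ∀ γ i, P (γ + Finsupp.single i 1) = E i * P γ := by
  classical
  let _ : CommRing (Algebra.adjoin K (Set.range E)) := Algebra.adjoinCommRingOfComm K (by
    rintro _ ⟨i, rfl⟩ _ ⟨j, rfl⟩
    exact hE i j)
  let E' : Fin k → Algebra.adjoin K (Set.range E) := fun i => ⟨E i, Algebra.subset_adjoin ⟨i, rfl⟩⟩
  refine ⟨fun γ => ((∏ i, E' i ^ γ i : Algebra.adjoin K (Set.range E)) : Module.End K F), ?_, ?_⟩
  · simp
  · intro γ i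
    have h : ∏ j, E' j ^ (γ + Finsupp.single i 1 : Fin k →₀ ℕ) j = E' i * ∏ j, E' j ^ γ j := by
      simp only [Finsupp.add_apply, pow_add, Finset.prod_mul_distrib]
      rw [mul_comm, Finset.prod_eq_single_of_mem (f := fun j => E' j ^ (Finsupp.single i 1) j) i
        (Finset.mem_univ _), Finsupp.single_eq_same, pow_one]
      intro b _ hb
      rw [Finsupp.single_eq_of_ne (by exact hb), pow_zero]
    show ((∏ j, E' j ^ (γ + Finsupp.single i 1 : Fin k →₀ ℕ) j : Algebra.adjoin K (Set.range E)) :
      Module.End K F) = _
    rw [h]
    rfl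

end Jet

/-- F5: algebraic elements have jets -/
theorem exists_jet {K S U : Type*} [Field K] [CharZero K] [Field S] [Algebra K S] {k : ℕ}
    (d : U → Derivation K S S) (f : Fin k → S) (g : S)
    (hg : IsAlgebraic (Algebra.adjoin K (Set.range f)) g) :
    ∃ c : (Fin k →₀ ℕ) → S, c 0 = g ∧ IsJet d f c := by
  classical
  obtain ⟨I, hI, hf⟩ := Jet.exists_basis (K := K) f
  have hinj : Function.Injective (aeval (fun i : I => f i) : MvPolynomial I K →ₐ[K] S) := hI
  let φ : FractionRing (MvPolynomial I K) →+* S :=
    IsFractionRing.lift (A := MvPolynomial I K)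
      (g := (aeval (fun i : I => f i) : MvPolynomial I K →ₐ[K] S).toRingHom) hinj
  have hφ : ∀ a, φ (algebraMap (MvPolynomial I K) _ a) = aeval (fun i : I => f i) a := fun a =>
    IsFractionRing.lift_algebraMap _ a
  let _ : Algebra (FractionRing (MvPolynomial I K)) S := φ.toAlgebra
  have t : IsScalarTower K (FractionRing (MvPolynomial I K)) S :=
    IsScalarTower.of_algebraMap_eq fun x => by
      rw [IsScalarTower.algebraMap_apply K (MvPolynomial I K) (FractionRing (MvPolynomial I K))]
      show _ = φ (algebraMap _ _ (algebraMap K (MvPolynomial I K) x))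
      rw [hφ, AlgHom.commutes]
  have hX : ∀ i : I, algebraMap (FractionRing (MvPolynomial I K)) S
      (algebraMap (MvPolynomial I K) (FractionRing (MvPolynomial I K)) (X i)) = f i := fun i => by
    show φ _ = _
    rw [hφ, aeval_X]
  obtain ⟨e, hcomm, hchain⟩ := Jet.core I f hX
  let T : Subalgebra K S :=
    { carrier := {x | x ∈ algebraicClosure (FractionRing (MvPolynomial I K)) S}
      mul_mem' := fun ha hb =>
        (algebraicClosure (FractionRing (MvPolynomial I K)) S).mul_mem ha hb
      add_mem' := fun ha hb =>
        (algebraicClosure (FractionRing (MvPolynomial I K)) S).add_mem ha hb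
      algebraMap_mem' := fun r => by
        show algebraMap K S r ∈ algebraicClosure (FractionRing (MvPolynomial I K)) S
        rw [IsScalarTower.algebraMap_apply K (FractionRing (MvPolynomial I K)) S]
        exact (algebraicClosure (FractionRing (MvPolynomial I K)) S).algebraMap_mem _ }
  have h1 : ∀ x ∈ Algebra.adjoin K (f '' I),
      x ∈ algebraicClosure (FractionRing (MvPolynomial I K)) S := by
    have h : Algebra.adjoin K (f '' I) ≤ T := by
      refine Algebra.adjoin_le ?_
      rintro _ ⟨i, hi, rfl⟩
      show f i ∈ algebraicClosure (FractionRing (MvPolynomial I K)) S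
      rw [← hX ⟨i, hi⟩]
      exact (algebraicClosure (FractionRing (MvPolynomial I K)) S).algebraMap_mem _
    exact fun x hx => h hx
  have h2 : ∀ j, f j ∈ algebraicClosure (FractionRing (MvPolynomial I K)) S := fun j =>
    Jet.mem_closure _ h1 _ (hf j)
  have h3 : ∀ x ∈ Algebra.adjoin K (Set.range f),
      x ∈ algebraicClosure (FractionRing (MvPolynomial I K)) S := by
    have h : Algebra.adjoin K (Set.range f) ≤ T := by
      refine Algebra.adjoin_le ?_
      rintro _ ⟨i, rfl⟩
      exact h2 i
    exact fun x hx => h hx
  have h4 : g ∈ algebraicClosure (FractionRing (MvPolynomial I K)) S :=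
    Jet.mem_closure _ h3 _ hg
  obtain ⟨P, hP0, hP⟩ := Jet.exists_ops (K := K) (fun i => ((e i : Derivation K _ _) :
    algebraicClosure (FractionRing (MvPolynomial I K)) S →ₗ[K]
      algebraicClosure (FractionRing (MvPolynomial I K)) S)) (by
        intro i j
        ext1 x
        exact hcomm i j x)
  refine ⟨fun γ => algebraMap (algebraicClosure (FractionRing (MvPolynomial I K)) S) S
    (P γ ⟨g, h4⟩), ?_, ?_⟩
  · simp only [hP0]
    rfl
  · intro γ u
    simp only [hP]
    exact hchain (d u) (P γ ⟨g, h4⟩)

end Pool.FD
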