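import Pool.Agent.FD.DegMain
import Pool.Agent.ZTS.Spec

/-!
Functions of determinants, zero tests: the lower side from a lower bound at the generic point, and
the general form of the main inequality.
-/

set_option autoImplicit false

open MvPolynomial Finset
open scoped BigOperators ENNReal

namespace Pool.FDP

open Pool.FD

/-- specialisation of the shift at the point `x0` -/
lemma map_shR_pt {K R X₀ Y : Type*} [CommRing R] [CommRing K] (ev : R →+* K)
    (φ : X₀ → MvPolynomial Y R) (φ0 : X₀ → MvPolynomial Y K)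
    (hφ : ∀ x, MvPolynomial.map ev (φ x) = φ0 x) (x0 : X₀ → K) (p : MvPolynomial X₀ R) :
    MvPolynomial.map (eval₂Hom ev x0) (shR φ p) =
      aeval (fun x => C (x0 x) + φ0 x) (MvPolynomial.map ev p) := by
  have h : (MvPolynomial.map (eval₂Hom ev x0)).comp (shR φ) =
      ((aeval (fun x => C (x0 x) + φ0 x) : MvPolynomial X₀ K →ₐ[K] MvPolynomial Y K) :
        MvPolynomial X₀ K →+* MvPolynomial Y K).comp (MvPolynomial.map ev) := by
    apply MvPolynomial.ringHom_ext
    · intro r
      simp [shR, algebraMap_eq]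
    · intro x
      have h1 : (eval₂Hom ev x0).comp C = ev := by
        ext r
        simp
      have h2 : MvPolynomial.map (eval₂Hom ev x0) (MvPolynomial.map C (φ x)) = φ0 x := by
        rw [MvPolynomial.map_map, h1, hφ]
      rw [RingHom.comp_apply, RingHom.comp_apply, shR, eval₂Hom_X', map_add, h2, map_C, map_X,
        RingHom.coe_coe, aeval_X, eval₂Hom_X']
  exact RingHom.congr_fun h p

/-- the lower side in the ring `R` from a lower bound at the generic point over `K` -/
theorem lower_of_generic {K R E : Type} [Field K] [Infinite K] [CommRing R] [Field E]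
    (ev : R →+* K) (hev : Function.Surjective ev) (j : R →+* E) (hj : Function.Injective j)
    {X₀ Y C : Type} [Finite Y] [Finite C] {D : ℕ} (φ0 : X₀ → MvPolynomial Y K)
    (hφ0 : ∀ x, (φ0 x).totalDegree ≤ 1) (u : C → Fin D → X₀ → K) (F : MvPolynomial X₀ K)
    (P : MvPolynomial X₀ R) (hP : MvPolynomial.map ev P = F) (low : ℕ → ℕ)
    (hlow : ∀ l, low l ≤ Module.finrank (FractionRing (MvPolynomial X₀ K))
      (Submodule.span (FractionRing (MvPolynomial X₀ K))
        (Set.range fun i : {μ : Y →₀ ℕ // μ.degree ≤ l} × C =>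
          (monomial i.1.1 1 : MvPolynomial Y (FractionRing (MvPolynomial X₀ K))) *
            shift φ0 (itd ((List.finRange D).map (u i.2)) F)))) :
    ∃ φ : X₀ → MvPolynomial Y E, (∀ x, (φ x).totalDegree ≤ 1) ∧
      ∀ (l : ℕ) (W : Submodule (FF E X₀) (F2 E X₀ Y)) [Module.Finite (FF E X₀) W],
        (∀ (μ : Y →₀ ℕ) (U : List (X₀ → E)), μ.degree ≤ l → U.length = D →
          algebraMap (MvPolynomial Y (FF E X₀)) (F2 E X₀ Y)
            (monomial μ 1 * shift φ (iter dirD U (MvPolynomial.map j P))) ∈ W) →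
        low l ≤ Module.finrank (FF E X₀) W := by
  classical
  choose φ hφ1 hφ2 using fun x => exists_lift ev hev (φ0 x) (hφ0 x)
  have hev' := hev
  choose lift hlift using hev'
  refine ⟨fun x => MvPolynomial.map j (φ x), fun x => ?_, ?_⟩
  · refine le_trans ?_ (hφ2 x)
    exact totalDegree_map_le' j (φ x)
  intro l W _ hW
  have := Pool.SDD.finite_degree_le Y l
  obtain ⟨x0, hx0⟩ := Pool.ZTS.exists_point_one φ0 u F l (low l) (hlow l)
  -- the finite family
  let κ := {μ : Y →₀ ℕ // μ.degree ≤ l} × C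
  let Ul : C → List (X₀ → R) := fun k =>
    (List.finRange D).map fun b x => lift (u k b x)
  let w : κ → MvPolynomial Y (MvPolynomial X₀ R) := fun i =>
    monomial i.1.1 1 * shR φ (itd (Ul i.2) P)
  have hevs : Function.Surjective (eval₂Hom ev x0) := by
    intro c
    obtain ⟨r, rfl⟩ := hev c
    exact ⟨MvPolynomial.C r, by simp⟩
  have hjs : Function.Injective ((algebraMap (MvPolynomial X₀ E)
      (FractionRing (MvPolynomial X₀ E))).comp (MvPolynomial.map j)) := by
    rw [RingHom.coe_comp]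
    exact (IsFractionRing.injective _ _).comp (map_injective j hj)
  have key := finrank_span_map_le (eval₂Hom ev x0) hevs
    ((algebraMap (MvPolynomial X₀ E)
      (FractionRing (MvPolynomial X₀ E))).comp (MvPolynomial.map j)) hjs w
  -- the specialised family
  have h1 : (fun i : κ => MvPolynomial.map (eval₂Hom ev x0) (w i)) = fun i : κ =>
      (monomial i.1.1 1 : MvPolynomial Y K) * aeval (fun x => MvPolynomial.C (x0 x) + φ0 x)
        (itd ((List.finRange D).map (u i.2)) F) := by
    funext i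
    have h2 : MvPolynomial.map (eval₂Hom ev x0)
        (shR φ (itd (Ul i.2) P)) = _ := map_shR_pt ev φ φ0 hφ1 x0 (itd (Ul i.2) P)
    have h3 : (Ul i.2).map (fun u x => ev (u x)) = (List.finRange D).map (u i.2) := by
      simp only [Ul, List.map_map]
      refine List.map_congr_left fun b _ => ?_
      funext x
      exact hlift _
    rw [map_mul, h2, map_monomial, map_one, map_itd, h3, hP]
  rw [h1] at key
  refine hx0.trans (key.trans ?_)
  -- the generic family lies in `W`
  have h4 : ∀ i : κ, MvPolynomial.map ((algebraMap (MvPolynomial X₀ E)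
      (FractionRing (MvPolynomial X₀ E))).comp (MvPolynomial.map j)) (w i) =
      monomial i.1.1 1 * shift (fun x => MvPolynomial.map j (φ x))
        (iter dirD ((Ul i.2).map fun u x => j (u x)) (MvPolynomial.map j P)) := by
    intro i
    have h2 := map_shR_io j φ (itd (Ul i.2) P)
    rw [map_mul, map_monomial, map_one]
    erw [h2]
    rw [map_itd]
    rfl
  let ι : MvPolynomial Y (FF E X₀) →ₗ[FF E X₀] F2 E X₀ Y :=
    (IsScalarTower.toAlgHom (FF E X₀) (MvPolynomial Y (FF E X₀)) (F2 E X₀ Y)).toLinearMap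
  have hι : Function.Injective ι := IsFractionRing.injective (MvPolynomial Y (FF E X₀)) _
  have h5 : (Submodule.span (FF E X₀) (Set.range fun i => MvPolynomial.map
      ((algebraMap (MvPolynomial X₀ E)
      (FractionRing (MvPolynomial X₀ E))).comp (MvPolynomial.map j)) (w i))).map ι
      ≤ W := by
    rw [Submodule.map_le_iff_le_comap, Submodule.span_le]
    rintro _ ⟨i, rfl⟩
    have h6 := hW i.1.1 ((Ul i.2).map fun u x => j (u x)) i.1.2 (by simp [Ul])
    rw [← h4 i] at h6
    exact h6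
  have h7 := Submodule.finrank_mono h5
  rwa [← (Submodule.equivMapOfInjective ι hι _).finrank_eq] at h7

/-- the main inequality, general form: `low` is a lower bound for the ranks -/
theorem main_general {E X₀ Y : Type} [Field E] [CharZero E] [Fintype Y]
    {T k m d D δ : ℕ} (hk : 0 < k) (hd1 : 1 ≤ d) (hδ : 1 ≤ δ)
    (φ : X₀ → MvPolynomial Y E) (hφ : ∀ x, (φ x).totalDegree ≤ 1) (P : MvPolynomial X₀ E)
    (low : ℕ → ℕ)
    (hlow : ∀ (l : ℕ) (W : Submodule (FF E X₀) (F2 E X₀ Y)) [Module.Finite (FF E X₀) W],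
        (∀ (μ : Y →₀ ℕ) (U : List (X₀ → E)), μ.degree ≤ l → U.length = D →
          algebraMap (MvPolynomial Y (FF E X₀)) (F2 E X₀ Y)
            (monomial μ 1 * shift φ (iter dirD U P)) ∈ W) →
        low l ≤ Module.finrank (FF E X₀) W)
    (A : Fin T → Fin k → Matrix (Fin (m + 1)) (Fin (m + 1)) (MvPolynomial X₀ E))
    (hA : ∀ t i a b, (A t i a b).totalDegree ≤ δ) (hdet : ∀ t i, (A t i).det ≠ 0)
    (g : Fin T → FF E X₀)
    (hg : ∀ t, IsAlgebraic (Algebra.adjoin E (Set.range fun i =>
      algebraMap (MvPolynomial X₀ E) (FF E X₀) (A t i).det)) (g t))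
    (h : algebraMap (MvPolynomial X₀ E) (FF E X₀) P = ∑ t, g t) (Q : ℝ≥0∞) (hQ : Q < 1) :
    Q ^ (D * (δ - 1)) * ((1 - Q) ^ (Fintype.card Y + 1) * ∑' l, Q ^ l * (low l : ℝ≥0∞)) ≤
      T * ∑ γ ∈ GG k D, ∑ e : Idx2 (m := m + 1) D (TG d D γ),
        (1 - Q ^ δ) ^ (fbs e.1).card := by
  classical
  obtain ⟨dL, hdL⟩ := exists_dirL (E := E) (X₀ := X₀)
  obtain ⟨Ψ, hΨ⟩ := exists_shiftLift φ
  choose α hα using fun t =>
    term_mem_deg (D := D) hk hd1 hδ φ hφ dL hdL Ψ hΨ (A t) (hA t) (hdet t) (g t) (hg t)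
  set M := Fintype.card Y + 1 with hM
  set s := D * (δ - 1) with hs
  have hfin : ∀ l, low l ≤
      ∑ t, ∑ γ : GG k D, Module.finrank (FF E X₀)
        (Pool.SDD.Wl (fam φ (A t) d D γ.1) (l + s)) := by
    intro l
    let W : Fin T → Submodule (FF E X₀) (F2 E X₀ Y) := fun t =>
      ⨆ γ : GG k D, (Pool.SDD.Wl (fam φ (A t) d D γ.1) (l + s)).map (mulMap (α t γ.1))
    have hWf : ∀ t, Module.Finite (FF E X₀) (W t) := fun t =>
      Submodule.finite_iSup _
    have hWf2 : Module.Finite (FF E X₀) (⨆ t, W t : Submodule _ _) :=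
      Submodule.finite_iSup _
    refine (hlow l (⨆ t, W t) ?_).trans ?_
    · intro μ U hμ hU
      rw [map_mul, ← hΨ, ← iter_map (S := FF E X₀) dirD dL hdL, h, iter_sum, map_sum,
        Finset.mul_sum]
      refine Submodule.sum_mem _ fun t _ => ?_
      exact Submodule.mem_iSup_of_mem t (hα t l μ U hμ hU)
    · refine (finrank_iSup_le' W).trans (Finset.sum_le_sum fun t _ => ?_)
      refine (finrank_iSup_le' _).trans (Finset.sum_le_sum fun γ _ => ?_)
      exact Submodule.finrank_map_le _ _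
  rw [mul_left_comm]
  calc (1 - Q) ^ M * (Q ^ s * ∑' l, Q ^ l * (low l : ℝ≥0∞))
      ≤ (1 - Q) ^ M * (Q ^ s * ∑' l, Q ^ l *
        ((∑ t, ∑ γ : GG k D, Module.finrank (FF E X₀)
        (Pool.SDD.Wl (fam φ (A t) d D γ.1) (l + s)) : ℕ) : ℝ≥0∞)) := by
        gcongr with l
        exact_mod_cast hfin l
    _ ≤ (1 - Q) ^ M * (∑' l, Q ^ l *
        ((∑ t, ∑ γ : GG k D, Module.finrank (FF E X₀)
        (Pool.SDD.Wl (fam φ (A t) d D γ.1) l) : ℕ) : ℝ≥0∞)) :=
        mul_le_mul' le_rfl (tsum_shift_le Q s fun l =>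
          ((∑ t, ∑ γ : GG k D, Module.finrank (FF E X₀)
            (Pool.SDD.Wl (fam φ (A t) d D γ.1) l) : ℕ) : ℝ≥0∞))
    _ = ∑ t, ∑ γ : GG k D, (1 - Q) ^ M * ∑' l, Q ^ l * (Module.finrank (FF E X₀)
        (Pool.SDD.Wl (fam φ (A t) d D γ.1) l) : ℝ≥0∞) := by
        push_cast
        simp_rw [Finset.mul_sum]
        rw [Summable.tsum_finsetSum (fun _ _ => ENNReal.summable), Finset.mul_sum]
        refine Finset.sum_congr rfl fun t _ => ?_
        rw [Summable.tsum_finsetSum (fun _ _ => ENNReal.summable), Finset.mul_sum]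
    _ ≤ ∑ t : Fin T, ∑ γ : GG k D, ∑ e : Idx2 (m := m + 1) D (TG d D γ.1),
        (1 - Q ^ δ) ^ (fbs e.1).card :=
        Finset.sum_le_sum fun t _ => Finset.sum_le_sum fun γ _ =>
          fam_bound_deg hδ φ hφ (A t) (hA t) γ.1 Q hQ
    _ = T * ∑ γ ∈ GG k D, ∑ e : Idx2 (m := m + 1) D (TG d D γ),
        (1 - Q ^ δ) ^ (fbs e.1).card := by
        rw [Finset.sum_const, Finset.card_univ, Fintype.card_fin, nsmul_eq_mul]
        congr 1
        exact Finset.sum_coe_sort (GG k D) (fun γ =>
          ∑ e : Idx2 (m := m + 1) D (TG d D γ), (1 - Q ^ δ) ^ (fbs e.1).card)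

end Pool.FDP
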