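import Pool.Agent.FD.Defs
import Pool.Agent.SDD.Main
import Pool.Agent.Helper69.SDD.R2
import Pool.Agent.Helper69.FD.Spec

/-!
Functions of determinants (FD), row F1: the lower side for the shifted substitution.
-/

set_option autoImplicit false

open MvPolynomial Finset
open scoped BigOperators ENNReal

namespace Pool.FD

lemma iter_cons {K S U : Type*} [Field K] [CommRing S] [Algebra K S] (d : U → Derivation K S S)
    (u : U) (l : List U) (x : S) : iter d (u :: l) x = d u (iter d l x) := rfl

/-- iterated directional derivative, over a ring -/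
noncomputable def itd {A X₀ : Type*} [CommRing A] (l : List (X₀ → A)) (x : MvPolynomial X₀ A) :
    MvPolynomial X₀ A :=
  l.foldr (fun u y => dirD u y) x

lemma dirD_X {A X₀ : Type*} [CommRing A] (u : X₀ → A) (x : X₀) :
    dirD u (X x : MvPolynomial X₀ A) = C (u x) := by
  unfold dirD
  rw [mkDerivation_X]

lemma dirD_C {A X₀ : Type*} [CommRing A] (u : X₀ → A) (a : A) :
    dirD u (C a : MvPolynomial X₀ A) = 0 := by
  unfold dirD
  rw [derivation_C]

/-- naturality -/
lemma map_dirD {A B X₀ : Type*} [CommRing A] [CommRing B] (f : A →+* B) (u : X₀ → A)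
    (p : MvPolynomial X₀ A) :
    MvPolynomial.map f (dirD u p) = dirD (fun x => f (u x)) (MvPolynomial.map f p) := by
  induction p using MvPolynomial.induction_on with
  | C a => rw [dirD_C, map_C, dirD_C, map_zero]
  | add p q hp hq => rw [map_add, map_add, map_add, hp, hq, map_add]
  | mul_X p n hp =>
    rw [Derivation.leibniz, map_add, smul_eq_mul, smul_eq_mul, map_mul, map_mul, hp, map_mul,
      Derivation.leibniz, smul_eq_mul, smul_eq_mul, dirD_X, map_C, map_X, dirD_X]

lemma map_itd {A B X₀ : Type*} [CommRing A] [CommRing B] (f : A →+* B) (l : List (X₀ → A))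
    (p : MvPolynomial X₀ A) :
    MvPolynomial.map f (itd l p) = itd (l.map fun u x => f (u x)) (MvPolynomial.map f p) := by
  induction l with
  | nil => rfl
  | cons u l ih =>
    change MvPolynomial.map f (dirD u (itd l p)) =
      dirD (fun x => f (u x)) (itd (l.map fun u x => f (u x)) (MvPolynomial.map f p))
    rw [map_dirD, ih]

/-- chain rule for a substitution whose derivative in the new variable is constant -/
lemma pderiv_aeval {K X₀ Z : Type*} [CommRing K] (φ : X₀ → MvPolynomial Z K) (z : Z) (u : X₀ → K)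
    (hu : ∀ x, pderiv z (φ x) = C (u x)) (p : MvPolynomial X₀ K) :
    pderiv z (aeval φ p) = aeval φ (dirD u p) := by
  induction p using MvPolynomial.induction_on with
  | C a =>
    rw [dirD_C, map_zero, aeval_C, algebraMap_eq, pderiv_C]
  | add p q hp hq => rw [map_add, map_add, map_add, hp, hq, map_add]
  | mul_X p n hp =>
    rw [map_mul, aeval_X, Derivation.leibniz, Derivation.leibniz, map_add, smul_eq_mul,
      smul_eq_mul, smul_eq_mul, smul_eq_mul, map_mul, map_mul, hp, hu, dirD_X, aeval_X, aeval_C,
      algebraMap_eq]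

lemma iterD_aeval {K X₀ Y : Type*} [Field K] {D : ℕ} (φ : X₀ → MvPolynomial (Y ⊕ Fin D) K)
    (u : Fin D → X₀ → K) (hu : ∀ b x, pderiv (Sum.inr b) (φ x) = C (u b x)) (l : List (Fin D))
    (p : MvPolynomial X₀ K) :
    Pool.SDD.iterD l (aeval φ p) = aeval φ (itd (l.map u) p) := by
  induction l with
  | nil => rfl
  | cons b l ih =>
    rw [Pool.SDD.iterD_cons, ih, pderiv_aeval φ (Sum.inr b) (u b) (hu b)]
    rfl

/-- derivatives of affine polynomials are constant -/
lemma exists_const {K Z : Type*} [Field K] (z : Z) (q : MvPolynomial Z K)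
    (hq : q.totalDegree ≤ 1) : ∃ c : K, pderiv z q = C c := by
  have h := Pool.SDD.pderiv_totalDegree z q
  have h0 : (pderiv z q).totalDegree = 0 := by omega
  exact ⟨_, totalDegree_eq_zero_iff_eq_C.mp h0⟩

/-- the block products are derivatives of the permanent in constant directions -/
theorem exists_dirs {K : Type} [Field K] {n D N a : ℕ} (hn : D * (2 * (N + a) + 1) ≤ n) :
    ∃ (φ0 : Fin n × Fin n → MvPolynomial ((Fin D ⊕ Fin D) × Option (Fin N)) K)
      (u : ((Fin D ⊕ Fin D) → Fin (a + 1)) → Fin D → Fin n × Fin n → K),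
      (∀ x, (φ0 x).totalDegree ≤ 1) ∧
      ∀ k, aeval φ0 (itd ((List.finRange D).map (u k))
        (Matrix.of fun i j => (X (i, j) : MvPolynomial (Fin n × Fin n) K)).permanent) =
        ∏ b, rename (fun v => (b, v)) (Pool.SDL.bp K N a (k b)) := by
  classical
  obtain ⟨φ0, φ, hφ1, hφ2, hφ3⟩ := Pool.SDD.R1 (K := K) hn
  choose u hu using fun k (b : Fin D) x =>
    exists_const (Sum.inr b : ((Fin D ⊕ Fin D) × Option (Fin N)) ⊕ Fin D) (φ k x) (hφ1 k x)
  refine ⟨φ0, u, ?_, ?_⟩
  · intro x
    rw [← hφ2 (fun _ => 0) x]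
    have h1 := Pool.SDD.totalDegree_aeval_le_mul (K := K)
      (Sum.elim X 0 : _ → MvPolynomial ((Fin D ⊕ Fin D) × Option (Fin N)) K) 1 (by
        rintro (y | y)
        · simp
        · simp) (φ (fun _ => 0) x)
    rw [mul_one] at h1
    exact h1.trans (hφ1 _ _)
  · intro k
    set Pm : MvPolynomial (Fin n × Fin n) K :=
      (Matrix.of fun i j => (X (i, j) : MvPolynomial (Fin n × Fin n) K)).permanent with hPm
    have hcomp0 : ∀ q : MvPolynomial (Fin n × Fin n) K,
        Pool.SDD.epsD K ((Fin D ⊕ Fin D) × Option (Fin N)) D (aeval (φ k) q) = aeval φ0 q := by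
      intro q
      unfold Pool.SDD.epsD
      rw [comp_aeval_apply]
      congr 2
      funext x
      exact hφ2 k x
    rw [← hcomp0, ← iterD_aeval (φ k) (u k) (fun b x => hu k b x)]
    ext m
    rw [Pool.SDD.coeff_epsD, Pool.SDD.coeff_iterD _ (List.nodup_finRange D), ← Fin.sum_univ_def,
      hφ3]
    · have h2 : (∏ i : Fin D, X (Sum.inr i) :
          MvPolynomial (((Fin D ⊕ Fin D) × Option (Fin N)) ⊕ Fin D) K) =
          monomial (∑ b : Fin D, Finsupp.single (Sum.inr b) 1) 1 := by
        rw [monomial_sum_one]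
        rfl
      rw [h2, coeff_mul_monomial, mul_one]
      exact coeff_rename_embDomain (R := K)
        (⟨Sum.inl, Sum.inl_injective⟩ : (Fin D ⊕ Fin D) × Option (Fin N) ↪
          ((Fin D ⊕ Fin D) × Option (Fin N)) ⊕ Fin D)
        (∏ b, rename (fun v => (b, v)) (Pool.SDL.bp K N a (k b))) m
    · intro b _
      apply Finsupp.embDomain_of_notMem_range
      simp

/-- lifting a polynomial without raising the degree -/
lemma exists_lift {K R Z : Type*} [CommRing K] [CommRing R] (ev : R →+* K)
    (hev : Function.Surjective ev) (q : MvPolynomial Z K) {d : ℕ} (hq : q.totalDegree ≤ d) :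
    ∃ p : MvPolynomial Z R, MvPolynomial.map ev p = q ∧ p.totalDegree ≤ d := by
  classical
  choose lift hlift using hev
  refine ⟨∑ m ∈ q.support, monomial m (lift (coeff m q)), ?_, ?_⟩
  · rw [map_sum]
    conv_rhs => rw [q.as_sum]
    refine Finset.sum_congr rfl fun m _ => ?_
    rw [map_monomial, hlift]
  · refine (totalDegree_finsetSum _ _).trans (Finset.sup_le fun m hm => ?_)
    refine (totalDegree_monomial_le _ _).trans ?_
    exact (le_totalDegree hm).trans hq

/-- the shifted substitution, over a ring -/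
noncomputable def shR {R X₀ Y : Type*} [CommRing R] (φ : X₀ → MvPolynomial Y R) :
    MvPolynomial X₀ R →+* MvPolynomial Y (MvPolynomial X₀ R) :=
  eval₂Hom ((C : MvPolynomial X₀ R →+* MvPolynomial Y (MvPolynomial X₀ R)).comp C)
    fun x => C (X x) + MvPolynomial.map C (φ x)

lemma totalDegree_map_le' {A B Z : Type*} [CommRing A] [CommRing B] (f : A →+* B)
    (p : MvPolynomial Z A) : (MvPolynomial.map f p).totalDegree ≤ p.totalDegree :=
  Finset.sup_mono (support_map_subset f p)

/-- specialisation of the shift at zero -/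
lemma map_shR_ev {K R X₀ Y : Type*} [CommRing R] [CommRing K] (ev : R →+* K)
    (φ : X₀ → MvPolynomial Y R) (φ0 : X₀ → MvPolynomial Y K)
    (hφ : ∀ x, MvPolynomial.map ev (φ x) = φ0 x) (p : MvPolynomial X₀ R) :
    MvPolynomial.map (eval₂Hom ev (fun _ : X₀ => (0 : K))) (shR φ p) =
      aeval φ0 (MvPolynomial.map ev p) := by
  have h : (MvPolynomial.map (eval₂Hom ev (fun _ : X₀ => (0 : K)))).comp (shR φ) =
      ((aeval φ0 : MvPolynomial X₀ K →ₐ[K] MvPolynomial Y K) :
        MvPolynomial X₀ K →+* MvPolynomial Y K).comp (MvPolynomial.map ev) := by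
    apply MvPolynomial.ringHom_ext
    · intro r
      simp [shR, algebraMap_eq]
    · intro x
      have h1 : (eval₂Hom ev (fun _ : X₀ => (0 : K))).comp C = ev := by
        ext r
        simp
      have h2 : MvPolynomial.map (eval₂Hom ev (fun _ : X₀ => (0 : K)))
          (MvPolynomial.map C (φ x)) = φ0 x := by
        rw [MvPolynomial.map_map, h1, hφ]
      rw [RingHom.comp_apply, RingHom.comp_apply, shR, eval₂Hom_X', map_add, h2, map_C, map_X,
        RingHom.coe_coe, aeval_X, eval₂Hom_X', C_0, zero_add]
  exact RingHom.congr_fun h p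

/-- the shift over the field of rational functions -/
lemma map_shR_io {E R X₀ Y : Type*} [CommRing R] [Field E] (j : R →+* E)
    (φ : X₀ → MvPolynomial Y R) (p : MvPolynomial X₀ R) :
    MvPolynomial.map ((algebraMap (MvPolynomial X₀ E) (FractionRing (MvPolynomial X₀ E))).comp
        (MvPolynomial.map j)) (shR φ p) =
      shift (fun x => MvPolynomial.map j (φ x)) (MvPolynomial.map j p) := by
  have h : (MvPolynomial.map ((algebraMap (MvPolynomial X₀ E)
        (FractionRing (MvPolynomial X₀ E))).comp (MvPolynomial.map j))).comp (shR φ) =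
      ((shift (fun x => MvPolynomial.map j (φ x)) : MvPolynomial X₀ E →ₐ[E] _) :
        MvPolynomial X₀ E →+* MvPolynomial Y (FractionRing (MvPolynomial X₀ E))).comp
          (MvPolynomial.map j) := by
    apply MvPolynomial.ringHom_ext
    · intro r
      simp only [shR, shift, RingHom.comp_apply, eval₂Hom_C, map_C, RingHom.coe_coe, aeval_C]
      rw [MvPolynomial.algebraMap_apply, IsScalarTower.algebraMap_apply E (MvPolynomial X₀ E)
        (FractionRing (MvPolynomial X₀ E)), MvPolynomial.algebraMap_eq]
    · intro x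
      have h1 : ((algebraMap (MvPolynomial X₀ E) (FractionRing (MvPolynomial X₀ E))).comp
          (MvPolynomial.map j)).comp C =
          (algebraMap E (FractionRing (MvPolynomial X₀ E))).comp j := by
        ext r
        rw [RingHom.comp_apply, RingHom.comp_apply, RingHom.comp_apply, map_C,
          IsScalarTower.algebraMap_apply E (MvPolynomial X₀ E) (FractionRing (MvPolynomial X₀ E)),
          MvPolynomial.algebraMap_eq]
      simp only [shR, shift, RingHom.comp_apply, eval₂Hom_X', map_add, map_C, map_X,
        RingHom.coe_coe, aeval_X, MvPolynomial.map_map, h1]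
  exact RingHom.congr_fun h p

/-- variables of the blocks -/
abbrev YY (D N : ℕ) := (Fin D ⊕ Fin D) × Option (Fin N)

/-- the field of rational functions in the entries -/
abbrev LL (E : Type) [Field E] (n : ℕ) := FractionRing (MvPolynomial (Fin n × Fin n) E)

/-- F1: lower side -/
theorem lower {K R E : Type} [Field K] [CommRing R] [Field E] (ev : R →+* K)
    (hev : Function.Surjective ev) (j : R →+* E) (hj : Function.Injective j) {n D N a : ℕ}
    (hn : D * (2 * (N + a) + 1) ≤ n) (P : MvPolynomial (Fin n × Fin n) R)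
    (hP : MvPolynomial.map ev P =
      (Matrix.of fun i j => (X (i, j) : MvPolynomial (Fin n × Fin n) K)).permanent) :
    ∃ φ : Fin n × Fin n → MvPolynomial ((Fin D ⊕ Fin D) × Option (Fin N)) E,
      (∀ x, (φ x).totalDegree ≤ 1) ∧
      ∀ (l : ℕ) (W : Submodule (FractionRing (MvPolynomial (Fin n × Fin n) E))
          (FractionRing (MvPolynomial ((Fin D ⊕ Fin D) × Option (Fin N))
            (FractionRing (MvPolynomial (Fin n × Fin n) E)))))
        [Module.Finite (FractionRing (MvPolynomial (Fin n × Fin n) E)) W],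
        (∀ (μ : ((Fin D ⊕ Fin D) × Option (Fin N)) →₀ ℕ) (U : List (Fin n × Fin n → E)),
          μ.degree ≤ l → U.length = D →
          algebraMap (MvPolynomial ((Fin D ⊕ Fin D) × Option (Fin N))
              (FractionRing (MvPolynomial (Fin n × Fin n) E))) _
            (monomial μ 1 * shift φ (iter dirD U (MvPolynomial.map j P))) ∈ W) →
        Module.finrank K (Pool.SDD.V0 (Fin D ⊕ Fin D) (Pool.SDL.bp K N a) l) ≤
          Module.finrank (FractionRing (MvPolynomial (Fin n × Fin n) E)) W := by
  classical
  obtain ⟨φ0, u, hφ0, hu⟩ := exists_dirs (K := K) hn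
  choose φ hφ1 hφ2 using fun x => exists_lift ev hev (φ0 x) (hφ0 x)
  have hev' := hev
  choose lift hlift using hev'
  refine ⟨fun x => MvPolynomial.map j (φ x), fun x => ?_, ?_⟩
  · refine le_trans ?_ (hφ2 x)
    exact totalDegree_map_le' j (φ x)
  intro l W _ hW
  have := Pool.SDD.finite_degree_le (YY D N) l
  -- the finite family
  let κ := {μ : YY D N →₀ ℕ // μ.degree ≤ l} × ((Fin D ⊕ Fin D) → Fin (a + 1))
  let Ul : ((Fin D ⊕ Fin D) → Fin (a + 1)) → List (Fin n × Fin n → R) := fun k =>
    (List.finRange D).map fun b x => lift (u k b x)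
  let w : κ → MvPolynomial (YY D N) (MvPolynomial (Fin n × Fin n) R) := fun i =>
    monomial i.1.1 1 * shR φ (itd (Ul i.2) P)
  have hevs : Function.Surjective (eval₂Hom ev (fun _ : Fin n × Fin n => (0 : K))) := by
    intro c
    obtain ⟨r, rfl⟩ := hev c
    exact ⟨C r, by simp⟩
  have hjs : Function.Injective ((algebraMap (MvPolynomial (Fin n × Fin n) E)
      (FractionRing (MvPolynomial (Fin n × Fin n) E))).comp (MvPolynomial.map j)) := by
    rw [RingHom.coe_comp]
    exact (IsFractionRing.injective _ _).comp (map_injective j hj)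
  have key := finrank_span_map_le (eval₂Hom ev (fun _ : Fin n × Fin n => (0 : K))) hevs
    ((algebraMap (MvPolynomial (Fin n × Fin n) E)
      (FractionRing (MvPolynomial (Fin n × Fin n) E))).comp (MvPolynomial.map j)) hjs w
  -- the specialised family spans `V0`
  have h1 : ∀ i : κ, MvPolynomial.map (eval₂Hom ev (fun _ : Fin n × Fin n => (0 : K))) (w i) =
      monomial i.1.1 1 * ∏ b, rename (fun v => (b, v)) (Pool.SDL.bp K N a (i.2 b)) := by
    intro i
    have h2 : MvPolynomial.map (eval₂Hom ev (fun _ : Fin n × Fin n => (0 : K)))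
        (shR φ (itd (Ul i.2) P)) = _ := map_shR_ev ev φ φ0 hφ1 (itd (Ul i.2) P)
    have h3 : (Ul i.2).map (fun u x => ev (u x)) = (List.finRange D).map (u i.2) := by
      simp only [Ul, List.map_map]
      refine List.map_congr_left fun b _ => ?_
      funext x
      exact hlift _
    rw [map_mul, h2, map_monomial, map_one, map_itd, h3, hP, hu]
  have hV0 : Pool.SDD.V0 (Fin D ⊕ Fin D) (Pool.SDL.bp K N a) l ≤
      Submodule.span K (Set.range fun i =>
        MvPolynomial.map (eval₂Hom ev (fun _ : Fin n × Fin n => (0 : K))) (w i)) := by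
    unfold Pool.SDD.V0
    refine Submodule.span_mono ?_
    rintro _ ⟨μ, k, hμ, rfl⟩
    exact ⟨(⟨μ, hμ⟩, k), h1 _⟩
  have hfin : Module.Finite K (Submodule.span K (Set.range fun i =>
      MvPolynomial.map (eval₂Hom ev (fun _ : Fin n × Fin n => (0 : K))) (w i))) :=
    FiniteDimensional.span_of_finite K (Set.finite_range _)
  refine (Submodule.finrank_mono hV0).trans (key.trans ?_)
  -- the generic family lies in `W`
  have h4 : ∀ i : κ, MvPolynomial.map ((algebraMap (MvPolynomial (Fin n × Fin n) E)
      (FractionRing (MvPolynomial (Fin n × Fin n) E))).comp (MvPolynomial.map j)) (w i) =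
      monomial i.1.1 1 * shift (fun x => MvPolynomial.map j (φ x))
        (iter dirD ((Ul i.2).map fun u x => j (u x)) (MvPolynomial.map j P)) := by
    intro i
    have h2 := map_shR_io j φ (itd (Ul i.2) P)
    rw [map_mul, map_monomial, map_one]
    erw [h2]
    rw [map_itd]
    rfl
  let ι : MvPolynomial (YY D N) (LL E n) →ₗ[LL E n] FractionRing (MvPolynomial (YY D N) (LL E n)) :=
    (IsScalarTower.toAlgHom (LL E n) (MvPolynomial (YY D N) (LL E n))
      (FractionRing (MvPolynomial (YY D N) (LL E n)))).toLinearMap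
  have hι : Function.Injective ι := IsFractionRing.injective (MvPolynomial (YY D N) (LL E n)) _
  have h5 : (Submodule.span (LL E n) (Set.range fun i => MvPolynomial.map
      ((algebraMap (MvPolynomial (Fin n × Fin n) E)
      (FractionRing (MvPolynomial (Fin n × Fin n) E))).comp (MvPolynomial.map j)) (w i))).map ι
      ≤ W := by
    rw [Submodule.map_le_iff_le_comap, Submodule.span_le]
    rintro _ ⟨i, rfl⟩
    have h6 := hW i.1.1 ((Ul i.2).map fun u x => j (u x)) i.1.2 (by simp [Ul])
    rw [← h4 i] at h6
    exact h6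
  have h7 := Submodule.finrank_mono h5
  rwa [← (Submodule.equivMapOfInjective ι hι _).finrank_eq] at h7

end Pool.FD
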