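import Pool.Agent.FD.Fun
import Pool.Agent.SDet.Final

/-!
# Functions of determinants: the main inequality
-/

set_option autoImplicit false

open MvPolynomial Finset Pool.SDL Pool.Agent.SDet
open scoped BigOperators ENNReal

namespace Pool.FD

variable {K : Type} [Field K]

/-- The reduction. -/
theorem R_fun {n m r T D N a : ℕ} (P : Fin T → MvPolynomial (Fin r) K)
    (A : Fin T → Fin r → Matrix (Fin m) (Fin m) (MvPolynomial (Fin n × Fin n) K))
    (hA : ∀ j i p q, (A j i p q).totalDegree ≤ 1)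
    (h : (Matrix.of fun i j => (X (i, j) : MvPolynomial (Fin n × Fin n) K)).permanent =
      ∑ j, aeval (fun i => (A j i).det) (P j))
    (hn : D * (2 * (N + a) + 1) ≤ n) :
    ∃ (g : Fin T × Sym (Option (Fin r)) D →
          MvPolynomial ((Fin D ⊕ Fin D) × Option (Fin N)) K)
      (B : Fin T × Sym (Option (Fin r)) D → Matrix (Fin (D * m)) (Fin (D * m))
        (MvPolynomial ((Fin D ⊕ Fin D) × Option (Fin N)) K)),
      (∀ x p q, (B x p q).totalDegree ≤ 1) ∧
      ∀ k : (Fin D ⊕ Fin D) → Fin (a + 1),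
        ∏ b, rename (fun v => (b, v)) (bp K N a (k b)) ∈
          ⨆ x, Submodule.map (LinearMap.mulLeft K (g x)) (detSpan (B x) (D * m - D)) := by
  classical
  obtain ⟨k0, hk0⟩ := Nat.exists_eq_add_of_le hn
  have hcard : Fintype.card (Fin n) = Fintype.card
      ((((Fin N ⊕ Fin (a + 1)) ⊕ (Fin N ⊕ Fin a)) × Fin D) ⊕ Fin k0) := by
    simp only [Fintype.card_fin, Fintype.card_sum, Fintype.card_prod]
    rw [hk0]
    ring
  let E := Fintype.equivOfCardEq hcard
  have hT : ∀ b i j, (TT K D N a b i j).totalDegree ≤ 1 :=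
    fun _ _ _ => (totalDegree_rename_le _ _).trans (tall_totalDegree _ _ _ _)
  have hW : ∀ b i j, (WW K D N a b i j).totalDegree ≤ 1 :=
    fun _ _ _ => (totalDegree_rename_le _ _).trans (tall_totalDegree _ _ _ _)
  choose g B hB1 hB2 using fun j => cf_fun (D := D) (P j)
    (fun i => resM E (TT K D N a) (WW K D N a) (A j i))
    (fun i p q => resM_totalDegree E _ _ hT hW (A j i) (hA j i) p q)
  refine ⟨fun x => g x.1 x.2, fun x => B x.1 x.2, fun x => hB1 x.1 x.2, fun k => ?_⟩
  rw [← GG_perm E k, h, map_sum]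
  refine Submodule.sum_mem _ fun j _ => ?_
  set f1 : Fin n × Fin n → MvPolynomial (((Fin D ⊕ Fin D) × Option (Fin N)) ⊕ Fin D) K :=
    fun p => bigX (k := k0) (fun b => eK N a (k (Sum.inl b)) none)
      (fun b => eK N a (k (Sum.inr b)) none) (TT K D N a) (WW K D N a) (E p.1) (E p.2) with hf1
  have e1 : GG E k (aeval (fun i => (A j i).det) (P j)) =
      cf K ((Fin D ⊕ Fin D) × Option (Fin N)) D
        (aeval (fun i => ((A j i).map (aeval f1)).det) (P j)) := by
    change eps K _ D (iter (List.finRange D) (aeval f1 (aeval (fun i => (A j i).det) (P j)))) = _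
    rw [cf, LinearMap.comp_apply, AlgHom.toLinearMap_apply]
    congr 2
    have h2 : ∀ Q : MvPolynomial (Fin r) K, aeval f1 (aeval (fun i => (A j i).det) Q) =
        aeval (fun i => ((A j i).map (aeval f1)).det) Q := by
      intro Q
      have h3 : (aeval f1).comp (aeval (fun i => (A j i).det)) =
          aeval (R := K) (fun i => ((A j i).map (aeval f1)).det) := by
        refine MvPolynomial.algHom_ext fun i => ?_
        rw [AlgHom.comp_apply, aeval_X, aeval_X, AlgHom.map_det]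
        rfl
      exact congrArg (fun φ => φ Q) h3
    exact h2 (P j)
  have e2 := hB2 j (fun i => (A j i).map (aeval f1))
    (fun i p q => (totalDegree_aeval_le' _ (fun _ => bigX_totalDegree _ _ _ _ hT hW _ _) _).trans
      (hA j i p q)) (fun i => by
        ext1 p q
        simp only [Matrix.map_apply, resM]
        have h3 : (eps K ((Fin D ⊕ Fin D) × Option (Fin N)) D).comp (aeval f1) =
            aeval (R := K) (fun p : Fin n × Fin n =>
              big0 (k := k0) (TT K D N a) (WW K D N a) (E p.1) (E p.2)) := by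
          refine MvPolynomial.algHom_ext fun x => ?_
          rw [AlgHom.comp_apply, aeval_X, aeval_X, hf1]
          exact eps_bigX _ _ _ _ _ _
        exact congrArg (fun φ => φ (A j i p q)) h3)
  rw [e1]
  have h4 : ∀ (x : Sym (Option (Fin r)) D),
      Submodule.map (LinearMap.mulLeft K (g j x)) (detSpan (B j x) (D * m - D)) ≤
      ⨆ x : Fin T × Sym (Option (Fin r)) D, Submodule.map (LinearMap.mulLeft K (g x.1 x.2))
        (detSpan (B x.1 x.2) (D * m - D)) := fun x =>
    le_iSup (fun x : Fin T × Sym (Option (Fin r)) D =>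
      Submodule.map (LinearMap.mulLeft K (g x.1 x.2)) (detSpan (B x.1 x.2) (D * m - D))) (j, x)
  exact (iSup_le h4) e2

theorem Vl_le_iSup' {B : Type} [Fintype B] {σ κ ι : Type} {m k l : ℕ}
    (g : κ → MvPolynomial σ K) (h : ι → MvPolynomial (B × σ) K)
    (L : ι → Matrix (Fin m) (Fin m) (MvPolynomial (B × σ) K))
    (hL : ∀ kk : B → κ, ∏ b, rename (fun v => (b, v)) (g (kk b)) ∈
      ⨆ i, Submodule.map (LinearMap.mulLeft K (h i)) (detSpan (L i) k)) :
    Vl B (Fin m × Fin m) g l ≤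
      ⨆ i, Submodule.map (LinearMap.mulLeft K (rename Sum.inl (h i))) (Ml (L i) k l) := by
  classical
  unfold Vl
  rw [Submodule.span_le]
  rintro f ⟨μ, kk, hμ, rfl⟩
  have h1 : (∏ b, rename (fun v => (Sum.inl (b, v) : (B × σ) ⊕ (Fin m × Fin m))) (g (kk b))) =
      rename Sum.inl (∏ b, rename (fun v => (b, v)) (g (kk b))) := by
    rw [map_prod]
    apply Finset.prod_congr rfl
    intro b _
    rw [rename_rename]
    rfl
  rw [h1]
  set T : MvPolynomial (B × σ) K →ₗ[K] MvPolynomial ((B × σ) ⊕ (Fin m × Fin m)) K :=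
    (LinearMap.mulLeft K (monomial μ (1:K))).comp
      (rename (Sum.inl : (B × σ) → (B × σ) ⊕ (Fin m × Fin m))).toLinearMap with hT
  have h2 : T (∏ b, rename (fun v => (b, v)) (g (kk b))) ∈
      Submodule.map T (⨆ i, Submodule.map (LinearMap.mulLeft K (h i)) (detSpan (L i) k)) :=
    Submodule.mem_map_of_mem (hL kk)
  rw [Submodule.map_iSup] at h2
  refine (iSup_mono fun i => ?_ : (⨆ i, Submodule.map T (Submodule.map
    (LinearMap.mulLeft K (h i)) (detSpan (L i) k))) ≤ _) h2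
  unfold detSpan
  rw [Submodule.map_span, Submodule.map_span, Submodule.span_le]
  rintro _ ⟨_, ⟨f, ⟨r, c, hr, hc, rfl⟩, rfl⟩, rfl⟩
  refine Submodule.mem_map.2 ⟨monomial μ 1 * rename Sum.inl ((L i).submatrix r c).det,
    Submodule.subset_span ⟨μ, r, c, hμ, hr, hc, rfl⟩, ?_⟩
  simp only [hT, LinearMap.comp_apply, LinearMap.mulLeft_apply, AlgHom.toLinearMap_apply, map_mul]
  ring

theorem finrank_iSup_le' {V : Type} [AddCommGroup V] [Module K V] {ι : Type} [Fintype ι]
    (W : ι → Submodule K V) [∀ i, Module.Finite K (W i)] :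
    Module.finrank K (⨆ i, W i : Submodule K V) ≤ ∑ i, Module.finrank K (W i) := by
  classical
  have key : ∀ s : Finset ι, Module.Finite K (s.sup W : Submodule K V) ∧
      Module.finrank K (s.sup W : Submodule K V) ≤ ∑ i ∈ s, Module.finrank K (W i) := by
    intro s
    induction s using Finset.induction_on with
    | empty =>
      simp only [Finset.sum_empty]
      exact ⟨by rw [Finset.sup_empty]; infer_instance, by simp⟩
    | insert a s ha ih =>
      obtain ⟨ih1, ih2⟩ := ih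
      rw [Finset.sup_insert, Finset.sum_insert ha]
      have := ih1
      refine ⟨inferInstance, ?_⟩
      have := Submodule.finrank_add_le_finrank_add_finrank (W a) (s.sup W)
      omega
  have h := (key Finset.univ).2
  rwa [Finset.sup_univ_eq_iSup] at h

theorem finrank_Vl_le' [Infinite K] {B : Type} [Fintype B] {σ κ ι : Type} [Fintype σ] [Fintype ι]
    {m k l : ℕ} (g : κ → MvPolynomial σ K) (h : ι → MvPolynomial (B × σ) K)
    (L : ι → Matrix (Fin m) (Fin m) (MvPolynomial (B × σ) K))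
    (hA : ∀ i p q, (L i p q).totalDegree ≤ 1)
    (hL : ∀ kk : B → κ, ∏ b, rename (fun v => (b, v)) (g (kk b)) ∈
      ⨆ i, Submodule.map (LinearMap.mulLeft K (h i)) (detSpan (L i) k)) :
    Module.finrank K (Vl B (Fin m × Fin m) g l) ≤ Fintype.card ι *
      ∑ f : Fin k ↪o Fin m, ∑ g : Fin k ↪o Fin m,
        Nat.multichoose (Fintype.card (B × σ) + m * m + 1 - rho f - rho g) l := by
  classical
  have hfin' : ∀ i, Module.Finite K (Submodule.map (LinearMap.mulLeft K (rename Sum.inl (h i)))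
      (Ml (L i) k l) : Submodule K (MvPolynomial ((B × σ) ⊕ (Fin m × Fin m)) K)) := fun i =>
    inferInstance
  have hfin : Module.Finite K (⨆ i, Submodule.map (LinearMap.mulLeft K (rename Sum.inl (h i)))
      (Ml (L i) k l) : Submodule K (MvPolynomial ((B × σ) ⊕ (Fin m × Fin m)) K)) := inferInstance
  calc Module.finrank K (Vl B (Fin m × Fin m) g l)
      ≤ Module.finrank K (⨆ i, Submodule.map (LinearMap.mulLeft K (rename Sum.inl (h i)))
        (Ml (L i) k l) : Submodule K (MvPolynomial ((B × σ) ⊕ (Fin m × Fin m)) K)) :=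
        Submodule.finrank_mono (Vl_le_iSup' g h L hL)
    _ ≤ ∑ i, Module.finrank K (Submodule.map (LinearMap.mulLeft K (rename Sum.inl (h i)))
        (Ml (L i) k l) : Submodule K (MvPolynomial ((B × σ) ⊕ (Fin m × Fin m)) K)) :=
        finrank_iSup_le' _
    _ ≤ ∑ _i : ι, ∑ f : Fin k ↪o Fin m, ∑ g : Fin k ↪o Fin m,
        Nat.multichoose (Fintype.card (B × σ) + m * m + 1 - rho f - rho g) l := by
        apply Finset.sum_le_sum
        intro i _
        exact (Submodule.finrank_map_le _ _).trans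
          ((Pool.Agent.Helper41.SD.U2_affine (L i) (hA i)).trans
            Pool.Agent.Helper90.SD.U1_generic)
    _ = _ := by simp

theorem series_le {M D t N a : ℕ} (hDM : D < M) (Q : ℝ≥0∞) (hQ : Q < 1)
    (H : ∀ l, Module.finrank K (Vl (Fin D ⊕ Fin D) (Fin M × Fin M) (bp K N a) l) ≤ t *
      ∑ f : Fin (M - D) ↪o Fin M, ∑ g : Fin (M - D) ↪o Fin M,
        Nat.multichoose (Fintype.card ((Fin D ⊕ Fin D) × Option (Fin N)) + M * M + 1 -
          rho f - rho g) l) :
    (1 - Q) ^ (Fintype.card (((Fin D ⊕ Fin D) × Option (Fin N)) ⊕ (Fin M × Fin M)) + 1) *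
        ∑' l, Q ^ l *
        (Module.finrank K (Vl (Fin D ⊕ Fin D) (Fin M × Fin M) (bp K N a) l) : ℝ≥0∞) ≤
      (t : ℝ≥0∞) * (∑ j ∈ Finset.range (D + 1), (Nat.choose (M - D - 1 + j) j : ℝ≥0∞) *
          (1 - Q) ^ j) ^ 2 := by
  classical
  have hk1 : 1 ≤ M - D := by omega
  have hc2 : Fintype.card (((Fin D ⊕ Fin D) × Option (Fin N)) ⊕ (Fin M × Fin M)) + 1 =
      Fintype.card ((Fin D ⊕ Fin D) × Option (Fin N)) + M * M + 1 := by
    simp [Fintype.card_sum, Fintype.card_prod]
  rw [hc2]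
  set c0 := Fintype.card ((Fin D ⊕ Fin D) × Option (Fin N)) with hc0
  set cnt : ℕ → ℕ := fun l => ∑ f : Fin (M - D) ↪o Fin M, ∑ g : Fin (M - D) ↪o Fin M,
        Nat.multichoose (c0 + M * M + 1 - rho f - rho g) l with hcnt
  have h1 : ∀ l, (Module.finrank K (Vl (Fin D ⊕ Fin D) (Fin M × Fin M) (bp K N a) l) : ℝ≥0∞) ≤
      t * (cnt l : ℝ≥0∞) := by
    intro l
    have := H l
    calc (Module.finrank K (Vl (Fin D ⊕ Fin D) (Fin M × Fin M) (bp K N a) l) : ℝ≥0∞)
        ≤ ((t * cnt l : ℕ) : ℝ≥0∞) := by exact_mod_cast this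
      _ = t * (cnt l : ℝ≥0∞) := by push_cast; ring
  calc (1 - Q) ^ (c0 + M * M + 1) * ∑' l, Q ^ l *
        (Module.finrank K (Vl (Fin D ⊕ Fin D) (Fin M × Fin M) (bp K N a) l) : ℝ≥0∞)
      ≤ (1 - Q) ^ (c0 + M * M + 1) * ∑' l, Q ^ l * (t * (cnt l : ℝ≥0∞)) := by
        gcongr with l
        exact h1 l
    _ = t * ((1 - Q) ^ (c0 + M * M + 1) * ∑' l, Q ^ l * (cnt l : ℝ≥0∞)) := by
        have : ∀ l, Q ^ l * (t * (cnt l : ℝ≥0∞)) = t * (Q ^ l * (cnt l : ℝ≥0∞)) := by
          intro l; ring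
        simp_rw [this]
        rw [ENNReal.tsum_mul_left]
        ring
    _ ≤ t * (∑ f : Fin (M - D) ↪o Fin M, (1 - Q) ^ rho f) ^ 2 := by
        gcongr
        exact Pool.Agent.Helper90.SD.U3_series Q hQ
    _ ≤ _ := by
        have e1 : M - (M - D) = D := by omega
        have e2 := Pool.Agent.Helper90.SD.U3_rho (m := M) hk1 (1 - Q)
        rw [e1] at e2
        gcongr

theorem card_index (T r D : ℕ) :
    Fintype.card (Fin T × Sym (Option (Fin r)) D) = T * (r + D).choose D := by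
  rw [Fintype.card_prod, Fintype.card_fin, Sym.card_sym_eq_choose, Fintype.card_option,
    Fintype.card_fin]
  congr 2
  omega

theorem main_ennreal [CharZero K] {n m r T D N a : ℕ} (P : Fin T → MvPolynomial (Fin r) K)
    (A : Fin T → Fin r → Matrix (Fin m) (Fin m) (MvPolynomial (Fin n × Fin n) K))
    (hA : ∀ j i p q, (A j i p q).totalDegree ≤ 1)
    (h : (Matrix.of fun i j => (X (i, j) : MvPolynomial (Fin n × Fin n) K)).permanent =
      ∑ j, aeval (fun i => (A j i).det) (P j))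
    (hm : 2 ≤ m) (hD : 1 ≤ D) (haN : a < N) (hn : D * (2 * (N + a) + 1) ≤ n)
    (Q : ℝ≥0∞) (hQ : Q < 1) :
    (1 - (1 - Q ^ N) ^ (a + 1)) ^ (2 * D) ≤
      Q ^ ((N - a) * (2 * D)) * (((T * (r + D).choose D : ℕ) : ℝ≥0∞) *
        (∑ j ∈ Finset.range (D + 1), (Nat.choose (D * m - D - 1 + j) j : ℝ≥0∞) *
          (1 - Q) ^ j) ^ 2) := by
  classical
  have : Infinite K := CharZero.infinite K
  obtain ⟨g, L, hL1, hL2⟩ := R_fun P A hA h hn
  have hDm : D < D * m := by
    have : D * 2 ≤ D * m := Nat.mul_le_mul_left D hm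
    omega
  have hcard : Fintype.card (Fin D ⊕ Fin D) = 2 * D := by simp; ring
  have hmain := sideL K (Fin D ⊕ Fin D) (Fin (D * m) × Fin (D * m)) N a haN Q hQ
  rw [hcard] at hmain
  refine hmain.trans (mul_le_mul' le_rfl ?_)
  refine series_le hDm Q hQ fun l => ?_
  rw [← card_index T r D]
  exact finrank_Vl_le' (K := K) (l := l) (bp K N a) g L hL1 hL2

theorem main_real [CharZero K] {n m r T D N a : ℕ} (P : Fin T → MvPolynomial (Fin r) K)
    (A : Fin T → Fin r → Matrix (Fin m) (Fin m) (MvPolynomial (Fin n × Fin n) K))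
    (hA : ∀ j i p q, (A j i p q).totalDegree ≤ 1)
    (h : (Matrix.of fun i j => (X (i, j) : MvPolynomial (Fin n × Fin n) K)).permanent =
      ∑ j, aeval (fun i => (A j i).det) (P j))
    (hm : 2 ≤ m) (hD : 1 ≤ D) (haN : a < N) (hn : D * (2 * (N + a) + 1) ≤ n)
    (q : ℝ) (hq0 : 0 < q) (hq1 : q < 1) :
    (1 - (1 - q ^ N) ^ (a + 1)) ^ (2 * D) ≤
      T * ((r + D).choose D : ℝ) * q ^ ((N - a) * (2 * D)) *
        (∑ j ∈ Finset.range (D + 1), (Nat.choose (D * m - D - 1 + j) j : ℝ) * (1 - q) ^ j) ^ 2 := by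
  have hQ : ENNReal.ofReal q < 1 := by
    rw [← ENNReal.ofReal_one]
    exact (ENNReal.ofReal_lt_ofReal_iff (by norm_num)).mpr hq1
  have key := main_ennreal P A hA h hm hD haN hn (ENNReal.ofReal q) hQ
  have e0 : (1 : ℝ≥0∞) - ENNReal.ofReal q = ENNReal.ofReal (1 - q) := by
    rw [ENNReal.ofReal_sub _ hq0.le, ENNReal.ofReal_one]
  have h1q : 0 ≤ 1 - q := by linarith
  have hqN : q ^ N ≤ 1 := pow_le_one₀ hq0.le hq1.le
  have h1qN : 0 ≤ 1 - q ^ N := by linarith
  have h1qN' : (1 - q ^ N) ^ (a + 1) ≤ 1 := pow_le_one₀ h1qN (by linarith [pow_pos hq0 N])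
  have e1 : ((1 : ℝ≥0∞) - (1 - ENNReal.ofReal q ^ N) ^ (a + 1)) ^ (2 * D) =
      ENNReal.ofReal ((1 - (1 - q ^ N) ^ (a + 1)) ^ (2 * D)) := by
    rw [ENNReal.ofReal_pow (by linarith), ENNReal.ofReal_sub _ (pow_nonneg h1qN _),
      ENNReal.ofReal_pow h1qN, ENNReal.ofReal_sub _ (pow_nonneg hq0.le _),
      ENNReal.ofReal_pow hq0.le, ENNReal.ofReal_one]
  have e2 : ∑ j ∈ Finset.range (D + 1), (Nat.choose (D * m - D - 1 + j) j : ℝ≥0∞) *
      (1 - ENNReal.ofReal q) ^ j = ENNReal.ofReal (∑ j ∈ Finset.range (D + 1),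
        (Nat.choose (D * m - D - 1 + j) j : ℝ) * (1 - q) ^ j) := by
    rw [ENNReal.ofReal_sum_of_nonneg (fun j _ => by positivity)]
    apply Finset.sum_congr rfl
    intro j _
    rw [e0, ENNReal.ofReal_mul (by positivity), ENNReal.ofReal_pow h1q, ENNReal.ofReal_natCast]
  have hS : 0 ≤ ∑ j ∈ Finset.range (D + 1), (Nat.choose (D * m - D - 1 + j) j : ℝ) * (1 - q) ^ j :=
    Finset.sum_nonneg (fun j _ => by positivity)
  rw [e1, e2, ← ENNReal.ofReal_pow hq0.le, ← ENNReal.ofReal_pow hS, ← ENNReal.ofReal_natCast,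
    ← ENNReal.ofReal_mul (by positivity), ← ENNReal.ofReal_mul (by positivity)] at key
  have h3 := (ENNReal.ofReal_le_ofReal_iff (by positivity)).mp key
  push_cast at h3
  calc _ ≤ _ := h3
    _ = _ := by ring

end Pool.FD
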