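import Pool.Agent.FD.Closure

/-!
Functions of determinants (FD): products of cofactors and products of entries of the inverses.
-/

open MvPolynomial Finset
open scoped BigOperators

namespace Pool.FD

/-- powers of the determinants times cofactors -/
noncomputable def Pe {R : Type*} [CommRing R] {k m : ℕ} (A : Fin k → Matrix (Fin m) (Fin m) R)
    (D : ℕ) (e : Cell k m →₀ ℕ) : R :=
  (∏ i, (A i).det ^ (D - typ e i)) * e.prod fun c s => ((A c.1).adjugate c.2.2 c.2.1) ^ s

lemma pg_eq_Pe (K : Type*) [CommRing K] {k m : ℕ} (D : ℕ) (e : Cell k m →₀ ℕ) :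
    pg K D e = Pe (gmat K k m) D e := rfl

lemma map_Pe {R S : Type*} [CommRing R] [CommRing S] (f : R →+* S) {k m : ℕ}
    (A : Fin k → Matrix (Fin m) (Fin m) R) (D : ℕ) (e : Cell k m →₀ ℕ) :
    f (Pe A D e) = Pe (fun i => (A i).map f) D e := by
  classical
  unfold Pe
  rw [map_mul, map_prod, Finsupp.prod, Finsupp.prod, map_prod]
  congr 1
  · refine Finset.prod_congr rfl fun i _ => ?_
    rw [map_pow, RingHom.map_det]
    rfl
  · refine Finset.prod_congr rfl fun c _ => ?_
    rw [map_pow]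
    have h := RingHom.map_adjugate f (A c.1)
    have h2 := congrFun (congrFun h c.2.2) c.2.1
    have h3 : f ((A c.1).adjugate c.2.2 c.2.1) = ((A c.1).map f).adjugate c.2.2 c.2.1 := h2
    rw [h3]

lemma aeval_pg {K S : Type*} [Field K] [CommRing S] [Algebra K S] {k m : ℕ}
    (A : Fin k → Matrix (Fin m) (Fin m) S) (D : ℕ) (e : Cell k m →₀ ℕ) :
    aeval (fun c : Cell k m => A c.1 c.2.1 c.2.2) (pg K D e) = Pe A D e := by
  rw [pg_eq_Pe]
  have h := map_Pe (aeval (fun c : Cell k m => A c.1 c.2.1 c.2.2) :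
    MvPolynomial (Cell k m) K →ₐ[K] S).toRingHom (gmat K k m) D e
  refine h.trans ?_
  congr 1
  funext i
  ext a b
  rw [Matrix.map_apply]
  change aeval (fun c : Cell k m => A c.1 c.2.1 c.2.2) (X (i, a, b)) = _
  rw [aeval_X]

lemma degree_typ {k m : ℕ} (e : Cell k m →₀ ℕ) : (typ e).degree = e.degree :=
  Finsupp.degree_mapDomain _ _

lemma Pe_eq {S : Type*} [Field S] {k m : ℕ} (A : Fin k → Matrix (Fin m) (Fin m) S)
    (hA : ∀ i, (A i).det ≠ 0) (D : ℕ) (e : Cell k m →₀ ℕ) (he : e.degree = D) :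
    Pe A D e = (∏ i, (A i).det ^ D) * bprod A e := by
  classical
  have h1 : (e.prod fun c s => ((A c.1).adjugate c.2.2 c.2.1) ^ s) =
      (∏ i, (A i).det ^ typ e i) * bprod A e := by
    have h2 : (∏ i, (A i).det ^ typ e i) = e.prod fun c s => (A c.1).det ^ s := by
      have h3 : (typ e).prod (fun i s => (A i).det ^ s) = ∏ i, (A i).det ^ typ e i :=
        Finsupp.prod_fintype _ _ (fun i => pow_zero _)
      rw [← h3]
      exact Finsupp.prod_mapDomain_index (fun i => pow_zero _) (fun i s t => pow_add _ _ _)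
    rw [h2]
    unfold bprod Finsupp.prod
    rw [← Finset.prod_mul_distrib]
    refine Finset.prod_congr rfl fun c _ => ?_
    rw [← mul_pow]
    rw [Matrix.inv_def, Matrix.smul_apply, Ring.inverse_eq_inv', smul_eq_mul,
      mul_inv_cancel_left₀ (hA c.1)]
  unfold Pe
  rw [h1, ← mul_assoc, ← Finset.prod_mul_distrib]
  congr 1
  refine Finset.prod_congr rfl fun i _ => ?_
  rw [← pow_add, Nat.sub_add_cancel]
  rw [← he, ← degree_typ]
  exact Finsupp.le_degree i _

end Pool.FD
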