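import Pool.Agent.FD.Defs2
import Pool.Agent.FD.Pe

/-!
Functions of determinants (FD): distribution of a product of cells over copies of the matrices.
-/

open MvPolynomial Finset
open scoped BigOperators

namespace Pool.FD

lemma exists_le_degree {σ : Type*} (a : σ →₀ ℕ) (t : ℕ) (ht : t ≤ a.degree) :
    ∃ b : σ →₀ ℕ, b ≤ a ∧ b.degree = t := by
  classical
  induction t with
  | zero => exact ⟨0, zero_le, map_zero _⟩
  | succ t ih =>
    obtain ⟨b, hb, hbt⟩ := ih (by omega)
    obtain ⟨r, hr⟩ := exists_add_of_le hb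
    have h1 : r.degree ≠ 0 := by
      intro h
      have := congrArg Finsupp.degree hr
      rw [map_add] at this
      omega
    have h2 : r ≠ 0 := by rintro rfl; simp at h1
    obtain ⟨x, hx⟩ := Finsupp.support_nonempty_iff.2 h2
    refine ⟨b + Finsupp.single x 1, ?_, by rw [map_add, Finsupp.degree_single, hbt]⟩
    rw [hr]
    gcongr
    intro y
    rcases eq_or_ne y x with rfl | hy
    · simpa using Nat.one_le_iff_ne_zero.2 (Finsupp.mem_support_iff.1 hx)
    · simp [Ne.symm hy]

lemma exists_parts {σ : Type*} (r : ℕ) : ∀ (a : σ →₀ ℕ) (n : Fin r → ℕ),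
    ∑ s, n s = a.degree → ∃ b : Fin r → (σ →₀ ℕ), (∀ s, (b s).degree = n s) ∧ ∑ s, b s = a := by
  induction r with
  | zero =>
    intro a n h
    refine ⟨fun s => s.elim0, fun s => s.elim0, ?_⟩
    rw [Finset.univ_eq_empty, Finset.sum_empty] at h ⊢
    exact ((Finsupp.degree_eq_zero_iff a).1 h.symm).symm
  | succ r ih =>
    intro a n h
    rw [Fin.sum_univ_succ] at h
    obtain ⟨b0, hb0, hb0n⟩ := exists_le_degree a (n 0) (by omega)
    obtain ⟨a', ha'⟩ := exists_add_of_le hb0
    have h1 := congrArg Finsupp.degree ha'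
    rw [map_add] at h1
    obtain ⟨b, hb, hba⟩ := ih a' (fun s => n s.succ) (by omega)
    refine ⟨Fin.cons b0 b, ?_, ?_⟩
    · intro s
      refine Fin.cases ?_ (fun s => ?_) s
      · rw [Fin.cons_zero, hb0n]
      · rw [Fin.cons_succ, hb]
    · rw [Fin.sum_univ_succ, Fin.cons_zero, ha']
      simp only [Fin.cons_succ, hba]

lemma sum_min (d τ : ℕ) (r : ℕ) :
    ∑ s : Fin r, min d (τ - s * d) = min (r * d) τ := by
  induction r with
  | zero => simp
  | succ r ih =>
    rw [Fin.sum_univ_castSucc]
    simp only [Fin.val_castSucc, Fin.val_last]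
    rw [ih, Nat.succ_mul]
    omega

lemma mapDomain_const {σ ρ : Type*} (b : σ →₀ ℕ) (c : ρ) :
    b.mapDomain (fun _ => c) = Finsupp.single c b.degree := by
  classical
  unfold Finsupp.mapDomain Finsupp.sum
  rw [Finsupp.degree_apply, Finsupp.single_finsetSum]

lemma orig_mk {k D : ℕ} (i : Fin k) (s : Fin D) : orig (finProdFinEquiv (i, s)) = i := by
  unfold orig
  rw [Equiv.symm_apply_apply]

theorem exists_split {k m D d : ℕ} (hd : 1 ≤ d) (e : Cell k m →₀ ℕ) (he : e.degree = D) :
    ∃ e' : Cell (k * D) m →₀ ℕ,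
      e'.mapDomain (fun c : Cell (k * D) m => (orig c.1, c.2)) = e ∧
      typ e' = spl d D (typ e) := by
  classical
  -- the part in the matrix `i`
  let a : Fin k → (Fin m × Fin m →₀ ℕ) := fun i => e.comapDomain (fun p => (i, p))
    (Function.Injective.injOn (Prod.mk_right_injective i))
  have hasum : ∑ i, (a i).mapDomain (fun p => ((i, p) : Cell k m)) = e := by
    ext ⟨i, p⟩
    rw [Finsupp.finsetSum_apply, Finset.sum_eq_single i]
    · rw [Finsupp.mapDomain_apply (Prod.mk_right_injective i)]
      rfl
    · intro j _ hj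
      refine Finsupp.mapDomain_of_notMem_range _ _ ?_
      rintro ⟨q, hq⟩
      exact hj (congrArg Prod.fst hq)
    · intro h; exact absurd (Finset.mem_univ i) h
  have htyp : ∀ i, typ e i = (a i).degree := by
    intro i
    conv_lhs => rw [← hasum]
    unfold typ
    rw [Finsupp.mapDomain_finsetSum, Finsupp.finsetSum_apply, Finset.sum_eq_single i]
    · rw [← Finsupp.mapDomain_comp]
      have h1 : (Prod.fst ∘ fun p => ((i, p) : Cell k m)) = fun _ => i := rfl
      rw [h1, mapDomain_const, Finsupp.single_eq_same]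
    · intro j _ hj
      rw [← Finsupp.mapDomain_comp]
      have h1 : (Prod.fst ∘ fun p => ((j, p) : Cell k m)) = fun _ => j := rfl
      rw [h1, mapDomain_const, Finsupp.single_eq_of_ne (Ne.symm hj)]
    · intro h; exact absurd (Finset.mem_univ i) h
  have hle : ∀ i, (a i).degree ≤ D := by
    intro i
    rw [← htyp, ← he, ← degree_typ]
    exact Finsupp.le_degree i _
  have hparts : ∀ i, ∃ b : Fin D → (Fin m × Fin m →₀ ℕ),
      (∀ s, (b s).degree = min d ((a i).degree - s * d)) ∧ ∑ s, b s = a i := by
    intro i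
    refine exists_parts D (a i) _ ?_
    rw [sum_min]
    refine min_eq_right ((hle i).trans ?_)
    nlinarith
  choose b hb hba using hparts
  refine ⟨∑ i, ∑ s, (b i s).mapDomain (fun p => ((finProdFinEquiv (i, s), p) : Cell (k * D) m)),
    ?_, ?_⟩
  · rw [Finsupp.mapDomain_finsetSum]
    conv_rhs => rw [← hasum]
    refine Finset.sum_congr rfl fun i _ => ?_
    rw [Finsupp.mapDomain_finsetSum, ← hba i, Finsupp.mapDomain_finsetSum]
    refine Finset.sum_congr rfl fun s _ => ?_
    rw [← Finsupp.mapDomain_comp]
    congr 1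
    funext p
    simp only [Function.comp_apply, orig_mk]
  · unfold typ
    rw [Finsupp.mapDomain_finsetSum]
    ext c
    obtain ⟨⟨i, s⟩, rfl⟩ := finProdFinEquiv.surjective c
    rw [Finsupp.finsetSum_apply, Finset.sum_eq_single i]
    · rw [Finsupp.mapDomain_finsetSum, Finsupp.finsetSum_apply, Finset.sum_eq_single s]
      · rw [← Finsupp.mapDomain_comp]
        have h1 : (Prod.fst ∘ fun p => ((finProdFinEquiv (i, s), p) : Cell (k * D) m)) =
          fun _ => finProdFinEquiv (i, s) := rfl
        rw [h1, mapDomain_const, Finsupp.single_eq_same, hb, ← htyp]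
        unfold spl
        rw [Finsupp.equivFunOnFinite_symm_apply_apply, Equiv.symm_apply_apply]
        rfl
      · intro s' _ hs'
        rw [← Finsupp.mapDomain_comp]
        have h1 : (Prod.fst ∘ fun p => ((finProdFinEquiv (i, s'), p) : Cell (k * D) m)) =
          fun _ => finProdFinEquiv (i, s') := rfl
        rw [h1, mapDomain_const, Finsupp.single_eq_of_ne]
        intro h
        have := finProdFinEquiv.injective h
        exact hs' (congrArg Prod.snd this).symm
      · intro h; exact absurd (Finset.mem_univ s) h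
    · intro i' _ hi'
      rw [Finsupp.mapDomain_finsetSum, Finsupp.finsetSum_apply]
      refine Finset.sum_eq_zero fun s' _ => ?_
      rw [← Finsupp.mapDomain_comp]
      have h1 : (Prod.fst ∘ fun p => ((finProdFinEquiv (i', s'), p) : Cell (k * D) m)) =
        fun _ => finProdFinEquiv (i', s') := rfl
      rw [h1, mapDomain_const, Finsupp.single_eq_of_ne]
      intro h
      have := finProdFinEquiv.injective h
      exact hi' (congrArg Prod.fst this).symm
    · intro h; exact absurd (Finset.mem_univ i) h

lemma bprod_split {S : Type*} [Field S] {k m D : ℕ} (A : Fin k → Matrix (Fin m) (Fin m) S)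
    (e' : Cell (k * D) m →₀ ℕ) :
    bprod A (e'.mapDomain (fun c : Cell (k * D) m => (orig c.1, c.2))) =
      bprod (fun c => A (orig c)) e' := by
  classical
  unfold bprod
  exact Finsupp.prod_mapDomain_index (fun i => pow_zero _) (fun i s t => pow_add _ _ _)

end Pool.FD
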