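import Pool.Agent.FD.LowMult
import Pool.Agent.FD.DegFinal
import Pool.Agent.ZTS.LowEnd

/-!
Functions of determinants and of Pfaffians: multiples of the permanent.
-/

set_option autoImplicit false

open MvPolynomial Finset
open scoped BigOperators ENNReal

namespace Pool.FDP

open Pool.FD

/-- the main inequality for multiples, in `ℝ≥0∞` -/
theorem mult_enn {K R E : Type} [Field K] [CharZero K] [CommRing R] [Field E] [CharZero E]
    (ev : R →+* K) (hev : Function.Surjective ev) (j : R →+* E) (hj : Function.Injective j)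
    {n T k m d D N a δ : ℕ} (hk : 0 < k) (hd1 : 1 ≤ d) (hδ : 1 ≤ δ) (hD : 1 ≤ D) (ha : 1 ≤ a)
    (haN : a < N) (hn : D * (2 * (N + a) + 1) ≤ n)
    (P : MvPolynomial (Fin n × Fin n) R) (Q' : MvPolynomial (Fin n × Fin n) K) (hQ' : Q' ≠ 0)
    (hP : MvPolynomial.map ev P = Pool.ZTS.IP.permK K n * Q')
    (A : Fin T → Fin k → Matrix (Fin (m + 1)) (Fin (m + 1)) (MvPolynomial (Fin n × Fin n) E))
    (hA : ∀ t i a b, (A t i a b).totalDegree ≤ δ) (hdet : ∀ t i, (A t i).det ≠ 0)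
    (g : Fin T → FF E (Fin n × Fin n))
    (hg : ∀ t, IsAlgebraic (Algebra.adjoin E (Set.range fun i =>
      algebraMap (MvPolynomial (Fin n × Fin n) E) (FF E (Fin n × Fin n)) (A t i).det)) (g t))
    (h : algebraMap (MvPolynomial (Fin n × Fin n) E) (FF E (Fin n × Fin n))
      (MvPolynomial.map j P) = ∑ t, g t) (Q : ℝ≥0∞) (hQ : Q < 1) :
    Q ^ (D * (δ - 1)) * ((1 - (1 - Q ^ N) ^ (a + 1)) ^ 2 - Q ^ (2 * (N - a))) ^ D ≤
      Q ^ (2 * (N - a) * D) *
      (T * ∑ γ ∈ GG k D, ∑ e : Idx2 (m := m + 1) D (TG d D γ),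
        (1 - Q ^ δ) ^ (fbs e.1).card) := by
  classical
  obtain ⟨Cc, hCc, φ0, u, hφ0, hlow⟩ := Pool.ZTS.lowerZ K n D N a hD ha haN hn Q' hQ'
  obtain ⟨φ, hφ, hlow2⟩ := lower_of_generic ev hev j hj φ0 hφ0 u _ P hP _ hlow
  have h1 := main_general hk hd1 hδ φ hφ (MvPolynomial.map j P) _ hlow2 A hA hdet g hg h Q hQ
  have h2 := Pool.ZTS.rowC K D N a haN Q hQ
  refine (mul_le_mul_right h2 _).trans ?_
  rw [mul_left_comm]
  exact mul_le_mul_right h1 _

/-- real form, for parameters with a large lower side -/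
theorem mult_real {K R E : Type} [Field K] [CharZero K] [CommRing R] [Field E]
    (ev : R →+* K) (hev : Function.Surjective ev) (j : R →+* E) (hj : Function.Injective j)
    {n T k m d D N a δ : ℕ} (hk : 0 < k) (hd1 : 1 ≤ d) (hδ : 1 ≤ δ) (hD : 1 ≤ D) (ha : 1 ≤ a)
    (haN : a < N) (hn : D * (2 * (N + a) + 1) ≤ n)
    (P : MvPolynomial (Fin n × Fin n) R) (Q' : MvPolynomial (Fin n × Fin n) K) (hQ' : Q' ≠ 0)
    (hP : MvPolynomial.map ev P = Pool.ZTS.IP.permK K n * Q')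
    (A : Fin T → Fin k → Matrix (Fin (m + 1)) (Fin (m + 1)) (MvPolynomial (Fin n × Fin n) E))
    (hA : ∀ t i a b, (A t i a b).totalDegree ≤ δ)
    (g : Fin T → FF E (Fin n × Fin n))
    (hg : ∀ t, IsAlgebraic (Algebra.adjoin E (Set.range fun i =>
      algebraMap (MvPolynomial (Fin n × Fin n) E) (FF E (Fin n × Fin n)) (A t i).det)) (g t))
    (h : algebraMap (MvPolynomial (Fin n × Fin n) E) (FF E (Fin n × Fin n))
      (MvPolynomial.map j P) = ∑ t, g t) (q : ℝ) (hq0 : 0 < q) (hq1 : q < 1)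
    (hpos : q ^ (2 * (N - a)) ≤ (1 - (1 - q ^ N) ^ (a + 1)) ^ 2) :
    q ^ (D * (δ - 1)) * ((1 - (1 - q ^ N) ^ (a + 1)) ^ 2 - q ^ (2 * (N - a))) ^ D ≤
      q ^ (2 * (N - a) * D) *
      (T * ∑ γ ∈ GG k D, ∑ e : Idx2 (m := m + 1) D (TG d D γ), (1 - q ^ δ) ^ (fbs e.1).card) := by
  classical
  have hE : CharZero E := by
    constructor
    intro x y hxy
    have h1 : ((x : R)) = y := hj (by rw [map_natCast, map_natCast, hxy])
    have h2 := congrArg ev h1
    rw [map_natCast, map_natCast] at h2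
    exact_mod_cast h2
  -- the matrices with determinant zero are replaced by the identity
  let A' : Fin T → Fin k → Matrix (Fin (m + 1)) (Fin (m + 1)) (MvPolynomial (Fin n × Fin n) E) :=
    fun t i => if (A t i).det = 0 then 1 else A t i
  have hA' : ∀ t i a b, (A' t i a b).totalDegree ≤ δ := by
    intro t i a b
    simp only [A']
    split_ifs with h0
    · rw [Matrix.one_apply]
      split_ifs
      · rw [totalDegree_one]; exact Nat.zero_le _
      · rw [totalDegree_zero]; exact Nat.zero_le _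
    · exact hA t i a b
  have hdet' : ∀ t i, (A' t i).det ≠ 0 := by
    intro t i
    simp only [A']
    split_ifs with h0
    · rw [Matrix.det_one]; exact one_ne_zero
    · exact h0
  have hg' : ∀ t, IsAlgebraic (Algebra.adjoin E (Set.range fun i =>
      algebraMap (MvPolynomial (Fin n × Fin n) E) (FF E (Fin n × Fin n)) (A' t i).det))
      (g t) := by
    intro t
    refine isAlgebraic_adjoin_mono ?_ (hg t)
    rw [Algebra.adjoin_le_iff]
    rintro _ ⟨i, rfl⟩
    by_cases h0 : (A t i).det = 0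
    · change algebraMap (MvPolynomial (Fin n × Fin n) E) (FF E (Fin n × Fin n)) (A t i).det ∈ _
      rw [h0, map_zero]
      exact Subalgebra.zero_mem _
    · refine Algebra.subset_adjoin ⟨i, ?_⟩
      simp only [A', if_neg h0]
  have hQ : ENNReal.ofReal q < 1 := by
    rw [← ENNReal.ofReal_one]
    exact (ENNReal.ofReal_lt_ofReal_iff (by norm_num)).mpr hq1
  have key := mult_enn ev hev j hj hk hd1 hδ hD ha haN hn P Q' hQ' hP A' hA' hdet' g hg' h
    (ENNReal.ofReal q) hQ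
  have hpow : ∀ i : ℕ, (1 : ℝ≥0∞) - ENNReal.ofReal q ^ i = ENNReal.ofReal (1 - q ^ i) := by
    intro i
    rw [ENNReal.ofReal_sub _ (pow_nonneg hq0.le _), ENNReal.ofReal_pow hq0.le, ENNReal.ofReal_one]
  have h1q : ∀ i : ℕ, 0 ≤ 1 - q ^ i := fun i => by
    have := pow_le_one₀ (n := i) hq0.le hq1.le
    linarith
  have h1qN' : (1 - q ^ N) ^ (a + 1) ≤ 1 :=
    pow_le_one₀ (h1q N) (by linarith [pow_pos hq0 N])
  have e1 : (((1 : ℝ≥0∞) - (1 - ENNReal.ofReal q ^ N) ^ (a + 1)) ^ 2 -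
        ENNReal.ofReal q ^ (2 * (N - a))) ^ D =
      ENNReal.ofReal (((1 - (1 - q ^ N) ^ (a + 1)) ^ 2 - q ^ (2 * (N - a))) ^ D) := by
    have e0 : (1 : ℝ≥0∞) - (1 - ENNReal.ofReal q ^ N) ^ (a + 1) =
        ENNReal.ofReal (1 - (1 - q ^ N) ^ (a + 1)) := by
      rw [hpow, ← ENNReal.ofReal_pow (h1q N), ← ENNReal.ofReal_one,
        ← ENNReal.ofReal_sub _ (pow_nonneg (h1q N) _)]
    rw [e0, ← ENNReal.ofReal_pow (by linarith), ← ENNReal.ofReal_pow hq0.le,
      ← ENNReal.ofReal_sub _ (by positivity), ← ENNReal.ofReal_pow (by linarith)]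
  have hS0 : ∀ γ, 0 ≤ ∑ e : Idx2 (m := m + 1) D (TG (k := k) d D γ),
      (1 - q ^ δ) ^ (fbs e.1).card :=
    fun γ => Finset.sum_nonneg fun e _ => pow_nonneg (h1q δ) _
  have e2 : ∑ γ ∈ GG k D, ∑ e : Idx2 (m := m + 1) D (TG d D γ),
      (1 - ENNReal.ofReal q ^ δ) ^ (fbs e.1).card =
      ENNReal.ofReal (∑ γ ∈ GG k D, ∑ e : Idx2 (m := m + 1) D (TG d D γ),
        (1 - q ^ δ) ^ (fbs e.1).card) := by
    rw [ENNReal.ofReal_sum_of_nonneg (fun γ _ => hS0 γ)]
    refine Finset.sum_congr rfl fun γ _ => ?_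
    rw [ENNReal.ofReal_sum_of_nonneg (fun e _ => pow_nonneg (h1q δ) _)]
    refine Finset.sum_congr rfl fun e _ => ?_
    rw [hpow, ENNReal.ofReal_pow (h1q δ)]
  have hS : 0 ≤ ∑ γ ∈ GG k D, ∑ e : Idx2 (m := m + 1) D (TG d D γ),
      (1 - q ^ δ) ^ (fbs e.1).card :=
    Finset.sum_nonneg fun γ _ => hS0 γ
  rw [e1, e2, ← ENNReal.ofReal_pow hq0.le, ← ENNReal.ofReal_pow hq0.le,
    ← ENNReal.ofReal_natCast,
    ← ENNReal.ofReal_mul (by positivity), ← ENNReal.ofReal_mul (by positivity),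
    ← ENNReal.ofReal_mul (by positivity)] at key
  exact (ENNReal.ofReal_le_ofReal_iff (mul_nonneg (by positivity)
    (mul_nonneg (by positivity) hS))).mp key

/-- the minimum in the bound -/
noncomputable def bound (n m k δ : ℕ) : ℝ :=
  min ((n : ℝ) / (δ * Real.log n))
    (min ((n : ℝ) / (((m : ℝ) * δ) ^ (1 / 3 : ℝ) * Real.log n))
      (min (((n : ℝ) ^ 4 / (k * ((m : ℝ) * δ) ^ 2 * Real.log n ^ 4)) ^ (1 / 3 : ℝ))
        ((n : ℝ) ^ 2 / (k * Real.log n ^ 2))))

/-- multiples of the permanent, determinants -/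
theorem multDeg :
    ∃ c : ℝ, 0 < c ∧ ∀ (K R E : Type) [Field K] [CharZero K] [CommRing R] [Field E]
      (ev : R →+* K) (j : R →+* E), Function.Surjective ev → Function.Injective j →
      ∀ (n m k δ T : ℕ), 2 ≤ n → 1 ≤ m → 1 ≤ k → 1 ≤ δ →
      ∀ (P : MvPolynomial (Fin n × Fin n) R) (Q : MvPolynomial (Fin n × Fin n) K), Q ≠ 0 →
      MvPolynomial.map ev P = Pool.ZTS.IP.permK K n * Q →
      ∀ s : Fin T → Fin k → ℕ, (∀ t i, s t i ≤ m) →
      ∀ A : ∀ t i, Matrix (Fin (s t i)) (Fin (s t i)) (MvPolynomial (Fin n × Fin n) E),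
      (∀ t i a b, (A t i a b).totalDegree ≤ δ) →
      ∀ g : Fin T → FractionRing (MvPolynomial (Fin n × Fin n) E),
      (∀ t, IsAlgebraic (Algebra.adjoin E (Set.range fun i =>
        algebraMap (MvPolynomial (Fin n × Fin n) E)
          (FractionRing (MvPolynomial (Fin n × Fin n) E)) (A t i).det)) (g t)) →
      algebraMap (MvPolynomial (Fin n × Fin n) E)
        (FractionRing (MvPolynomial (Fin n × Fin n) E)) (MvPolynomial.map j P) = ∑ t, g t →
      c * bound n m k δ ≤ Real.log (2 * T) := by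
  have hC : (1 : ℝ) ≤ 16 * Real.exp 4 := by
    have : (1 : ℝ) ≤ Real.exp 4 := Real.one_le_exp (by norm_num)
    linarith
  obtain ⟨c, hc, hnum⟩ := Pool.FDN.numerics3 (16 * Real.exp 4) hC
  refine ⟨c, hc, ?_⟩
  intro K R E _ _ _ _ ev j hev hj n m k δ T hn hm hk hδ P Q' hQ' hP s hs A hA g hg h
  have hT : 1 ≤ T := by
    rcases Nat.eq_zero_or_pos T with h0 | h0
    · exfalso
      subst h0
      rw [Finset.univ_eq_empty, Finset.sum_empty] at h
      have h1 : MvPolynomial.map j P = 0 :=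
        IsFractionRing.injective (MvPolynomial (Fin n × Fin n) E)
          (FractionRing (MvPolynomial (Fin n × Fin n) E)) (by rw [h, map_zero])
      have h2 : P = 0 := MvPolynomial.map_injective j hj (by rw [h1, map_zero])
      rw [h2, map_zero] at hP
      exact mul_ne_zero (Pool.ZTS.IP.permK_ne_zero n) hQ' hP.symm
    · exact h0
  refine hnum n m k δ T hn hm hk hδ hT ?_
  intro D N a d hD hd haN hnD q hq0 hq1
  choose B hB hB2 using fun t i => exists_pad (hs t i) (A t i)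
  have hBdeg : ∀ t i a b, (B t i a b).totalDegree ≤ δ := by
    intro t i a b
    rcases hB2 t i a b with ⟨a', b', h1⟩ | h1 | h1
    · rw [h1]; exact hA t i a' b'
    · rw [h1, totalDegree_zero]; exact Nat.zero_le _
    · rw [h1, totalDegree_one]; exact Nat.zero_le _
  have hg' : ∀ t, IsAlgebraic (Algebra.adjoin E (Set.range fun i =>
      algebraMap (MvPolynomial (Fin n × Fin n) E) (FF E (Fin n × Fin n)) (B t i).det))
      (g t) := by
    intro t
    have h2 : (fun i => algebraMap (MvPolynomial (Fin n × Fin n) E) (FF E (Fin n × Fin n))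
        (B t i).det) = fun i => algebraMap (MvPolynomial (Fin n × Fin n) E)
          (FF E (Fin n × Fin n)) (A t i).det := funext fun i => by rw [hB]
    rw [h2]
    exact hg t
  have hT' : (1 : ℝ) ≤ T := by exact_mod_cast hT
  have hD' : (1 : ℝ) ≤ D := by exact_mod_cast hD
  have hd' : (1 : ℝ) ≤ d := by exact_mod_cast hd
  have hqδ1 : q ^ δ ≤ 1 := pow_le_one₀ hq0.le hq1.le
  have hqδ0 : 0 ≤ q ^ δ := pow_nonneg hq0.le _
  obtain ⟨S, hSdef⟩ : ∃ S : ℝ, S = 8 * Real.exp 4 *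
    ((m + 1) * (1 - q ^ δ) + 2 * d + 1) ^ 2 * (1 / d + k / D) := ⟨_, rfl⟩
  have h2S : 16 * Real.exp 4 * ((m + 1) * (1 - q ^ δ) + 2 * d + 1) ^ 2 * (1 / d + k / D) =
      2 * S := by rw [hSdef]; ring
  have hS1 : 1 ≤ S := by
    have h1 : (1 : ℝ) ≤ Real.exp 4 := Real.one_le_exp (by norm_num)
    have h3 : (0 : ℝ) ≤ (m + 1) * (1 - q ^ δ) := mul_nonneg (by positivity) (by linarith)
    have h4 : ((2 : ℝ) * d) ^ 2 ≤ ((m + 1) * (1 - q ^ δ) + 2 * d + 1) ^ 2 :=
      pow_le_pow_left₀ (by positivity) (by linarith) 2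
    have h5 : (1 : ℝ) ≤ ((2 : ℝ) * d) ^ 2 * (1 / d + k / D) := by
      have h6 : (1 : ℝ) ≤ ((2 : ℝ) * d) ^ 2 * (1 / d) := by
        have : ((2 : ℝ) * d) ^ 2 * (1 / d) = 4 * d := by field_simp; ring
        rw [this]; linarith
      have h7 : (0 : ℝ) ≤ ((2 : ℝ) * d) ^ 2 * (k / D) := by positivity
      calc (1 : ℝ) ≤ ((2 : ℝ) * d) ^ 2 * (1 / d) + ((2 : ℝ) * d) ^ 2 * (k / D) := by linarith
        _ = _ := by ring
    have h6 : (0 : ℝ) ≤ 1 / d + k / D := by positivity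
    calc (1 : ℝ) ≤ ((2 : ℝ) * d) ^ 2 * (1 / d + k / D) := h5
      _ ≤ ((m + 1) * (1 - q ^ δ) + 2 * d + 1) ^ 2 * (1 / d + k / D) :=
          mul_le_mul_of_nonneg_right h4 h6
      _ ≤ 8 * Real.exp 4 * (((m + 1) * (1 - q ^ δ) + 2 * d + 1) ^ 2 * (1 / d + k / D)) := by
          refine le_mul_of_one_le_left (by positivity) (by linarith)
      _ = S := by rw [hSdef]; ring
  rw [h2S]
  obtain ⟨w, hw⟩ : ∃ w : ℝ, w = (1 - (1 - q ^ N) ^ (a + 1)) ^ 2 := ⟨_, rfl⟩
  obtain ⟨z, hz⟩ : ∃ z : ℝ, z = q ^ (2 * (N - a)) := ⟨_, rfl⟩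
  have hz0 : 0 < z := by rw [hz]; positivity
  have hw0 : 0 ≤ w := by rw [hw]; positivity
  have e1 : (1 - (1 - q ^ N) ^ (a + 1)) ^ (2 * D) = w ^ D := by rw [hw, ← pow_mul]
  have e2 : q ^ ((N - a) * (2 * D)) = z ^ D := by
    rw [hz, ← pow_mul]
    congr 1
    ring
  rw [e1, e2]
  rcases lt_or_ge w (2 * z) with hcase | hcase
  · -- the trivial case
    have h3 : q ^ (D * (δ - 1)) ≤ 1 := pow_le_one₀ hq0.le hq1.le
    have h4 : w ^ D ≤ (2 * z) ^ D := pow_le_pow_left₀ hw0 hcase.le D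
    have h5 : (2 : ℝ) ^ D ≤ (2 * S) ^ D := pow_le_pow_left₀ (by norm_num) (by linarith) D
    calc q ^ (D * (δ - 1)) * w ^ D ≤ 1 * (2 * z) ^ D :=
          mul_le_mul h3 h4 (pow_nonneg hw0 _) zero_le_one
      _ = z ^ D * (1 * 2 ^ D) := by rw [mul_pow]; ring
      _ ≤ z ^ D * (T * (2 * S) ^ D) := by
          refine mul_le_mul_of_nonneg_left ?_ (by positivity)
          exact mul_le_mul hT' h5 (by positivity) (by positivity)
  · -- the main case
    have ha : 1 ≤ a := by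
      by_contra hcon
      have ha0 : a = 0 := by omega
      subst ha0
      have h3 : w = z := by
        rw [hw, hz]
        simp only [zero_add, pow_one, Nat.sub_zero]
        ring
      linarith
    have h1 := mult_real ev hev j hj hk hd hδ hD ha haN hnD P Q' hQ' hP B hBdeg g hg' h q hq0 hq1
      (by rw [← hw, ← hz]; linarith)
    rw [← hw, ← hz] at h1
    have e3 : q ^ (2 * (N - a) * D) = z ^ D := by rw [hz, ← pow_mul]
    rw [e3] at h1
    have h3 : (w / 2) ^ D ≤ (w - z) ^ D := pow_le_pow_left₀ (by positivity) (by linarith) D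
    have h4 := count2_explicit k m D d hD hd (1 - q ^ δ) (by linarith) (by linarith)
    rw [← hSdef] at h4
    calc q ^ (D * (δ - 1)) * w ^ D = 2 ^ D * (q ^ (D * (δ - 1)) * (w / 2) ^ D) := by
          rw [div_pow]
          field_simp
      _ ≤ 2 ^ D * (q ^ (D * (δ - 1)) * (w - z) ^ D) := by gcongr
      _ ≤ 2 ^ D * (z ^ D * (T * S ^ D)) := by
          refine mul_le_mul_of_nonneg_left (h1.trans ?_) (by positivity)
          gcongr
      _ = z ^ D * (T * (2 * S) ^ D) := by rw [mul_pow 2 S]; ring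

end Pool.FDP
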