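import Pool.Agent.FD.MultDeg
import Pool.Agent.ZTS.FinalZ

/-!
Zero tests by sums of arbitrary functions of Pfaffians (FD, third wave): assembly.
-/

set_option autoImplicit false

open MvPolynomial Finset
open scoped BigOperators ENNReal

namespace Pool.FDP

open Pool.FD

/-- the minimum in the bound loses at most a factor two when `m` is doubled -/
theorem bound_two_mul (n m k δ : ℕ) (hm : 1 ≤ m) (hk : 1 ≤ k) (hδ : 1 ≤ δ) (hn : 2 ≤ n) :
    bound n m k δ / 2 ≤ bound n (2 * m) k δ := by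
  have hn' : (1 : ℝ) < n := by exact_mod_cast (by omega : 1 < n)
  have hL : 0 < Real.log n := Real.log_pos hn'
  have hm' : (1 : ℝ) ≤ m := by exact_mod_cast hm
  have hk' : (1 : ℝ) ≤ k := by exact_mod_cast hk
  have hδ' : (1 : ℝ) ≤ δ := by exact_mod_cast hδ
  have hmδ : (0 : ℝ) < (m : ℝ) * δ := by positivity
  have hn0 : (0 : ℝ) < n := by linarith
  unfold bound
  have e0 : (0 : ℝ) ≤ (n : ℝ) / (δ * Real.log n) := by positivity
  have e3 : (0 : ℝ) ≤ (n : ℝ) ^ 2 / (k * Real.log n ^ 2) := by positivity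
  have e1 : (n : ℝ) / (((m : ℝ) * δ) ^ (1 / 3 : ℝ) * Real.log n) / 2 ≤
      (n : ℝ) / ((((2 * m : ℕ) : ℝ) * δ) ^ (1 / 3 : ℝ) * Real.log n) := by
    rw [div_div]
    apply div_le_div_of_nonneg_left hn0.le
    · positivity
    · have h1 : (((2 * m : ℕ) : ℝ) * δ) ^ (1 / 3 : ℝ) ≤ ((m : ℝ) * δ) ^ (1 / 3 : ℝ) * 2 := by
        have h2 : (((2 * m : ℕ) : ℝ) * δ) = 2 * ((m : ℝ) * δ) := by push_cast; ring
        rw [h2, Real.mul_rpow (by norm_num) hmδ.le, mul_comm]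
        refine mul_le_mul_of_nonneg_left ?_ (by positivity)
        calc (2 : ℝ) ^ (1 / 3 : ℝ) ≤ (2 : ℝ) ^ (1 : ℝ) :=
              Real.rpow_le_rpow_of_exponent_le (by norm_num) (by norm_num)
          _ = 2 := Real.rpow_one 2
      calc (((2 * m : ℕ) : ℝ) * δ) ^ (1 / 3 : ℝ) * Real.log n
          ≤ (((m : ℝ) * δ) ^ (1 / 3 : ℝ) * 2) * Real.log n :=
            mul_le_mul_of_nonneg_right h1 hL.le
        _ = ((m : ℝ) * δ) ^ (1 / 3 : ℝ) * Real.log n * 2 := by ring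
  have e2 : ((n : ℝ) ^ 4 / (k * ((m : ℝ) * δ) ^ 2 * Real.log n ^ 4)) ^ (1 / 3 : ℝ) / 2 ≤
      ((n : ℝ) ^ 4 / (k * (((2 * m : ℕ) : ℝ) * δ) ^ 2 * Real.log n ^ 4)) ^ (1 / 3 : ℝ) := by
    have h1 : (n : ℝ) ^ 4 / (k * (((2 * m : ℕ) : ℝ) * δ) ^ 2 * Real.log n ^ 4) =
        ((n : ℝ) ^ 4 / (k * ((m : ℝ) * δ) ^ 2 * Real.log n ^ 4)) / 4 := by
      push_cast
      field_simp
      ring
    rw [h1]
    obtain ⟨z, hz⟩ : ∃ z : ℝ, z = (n : ℝ) ^ 4 / (k * ((m : ℝ) * δ) ^ 2 * Real.log n ^ 4) :=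
      ⟨_, rfl⟩
    have hz0 : 0 ≤ z := by rw [hz]; positivity
    rw [← hz, Real.div_rpow hz0 (by norm_num)]
    have h3 : (4 : ℝ) ^ (1 / 3 : ℝ) ≤ (8 : ℝ) ^ (1 / 3 : ℝ) :=
      Real.rpow_le_rpow (by norm_num) (by norm_num) (by norm_num)
    have h4 : (8 : ℝ) ^ (1 / 3 : ℝ) = 2 := by
      rw [show (8 : ℝ) = 2 ^ (3 : ℝ) by norm_num, ← Real.rpow_mul (by norm_num)]
      norm_num
    have h5 : (4 : ℝ) ^ (1 / 3 : ℝ) ≤ 2 := by linarith
    have h6 : (0 : ℝ) < (4 : ℝ) ^ (1 / 3 : ℝ) := by positivity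
    exact div_le_div_of_nonneg_left (by positivity) h6 h5
  have e00 : (n : ℝ) / (δ * Real.log n) / 2 ≤ (n : ℝ) / (δ * Real.log n) := by linarith
  have e33 : (n : ℝ) ^ 2 / (k * Real.log n ^ 2) / 2 ≤ (n : ℝ) ^ 2 / (k * Real.log n ^ 2) := by
    linarith
  refine le_min ?_ (le_min ?_ (le_min ?_ ?_))
  · exact (div_le_div_of_nonneg_right (min_le_left _ _) (by norm_num)).trans e00
  · refine (div_le_div_of_nonneg_right ((min_le_right _ _).trans (min_le_left _ _))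
      (by norm_num)).trans e1
  · refine (div_le_div_of_nonneg_right ((min_le_right _ _).trans ((min_le_right _ _).trans
      (min_le_left _ _))) (by norm_num)).trans e2
  · refine (div_le_div_of_nonneg_right ((min_le_right _ _).trans ((min_le_right _ _).trans
      (min_le_right _ _))) (by norm_num)).trans e33

/-- `G` over `K` is a sum of `T` functions of `k` Pfaffians, or a specialisation of such a sum:
there are a ring `R`, a surjection `ev : R → K`, a field `E` containing `R` by `j`, and `P` over `R`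
which specialises to `G` and is over `E` the sum of the `T` functions -/
def SumOf {K V : Type} [Field K] (m k δ T : ℕ) (G : MvPolynomial V K) : Prop :=
  ∃ (R E : Type) (_ : CommRing R) (_ : Field E) (ev : R →+* K) (j : R →+* E)
    (P : MvPolynomial V R) (g : Fin T → FractionRing (MvPolynomial V E)),
    Function.Surjective ev ∧ Function.Injective j ∧ MvPolynomial.map ev P = G ∧
    (∀ t, PfFunction k m δ (g t)) ∧
    algebraMap (MvPolynomial V E) (FractionRing (MvPolynomial V E)) (MvPolynomial.map j P) =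
      ∑ t, g t

/-- multiples of the permanent as sums of functions of Pfaffians -/
theorem multPf :
    ∃ c : ℝ, 0 < c ∧ ∀ (K : Type) [Field K] [CharZero K] (n m k δ T : ℕ), 2 ≤ n → 1 ≤ m →
      1 ≤ k → 1 ≤ δ → ∀ Q : MvPolynomial (Fin n × Fin n) K, Q ≠ 0 →
      SumOf m k δ T (Pool.ZTS.IP.permK K n * Q) → c * bound n m k δ ≤ Real.log (2 * T) := by
  obtain ⟨c, hc, h⟩ := multDeg
  refine ⟨c / 2, by positivity, ?_⟩
  intro K _ _ n m k δ T hn hm hk hδ Q hQ hS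
  obtain ⟨R, E, iR, iE, ev, j, P, g, hev, hj, hP, hg, hsum⟩ := hS
  choose s A hs hA halg using fun t => (hg t).exists_det
  have h1 := h K R E ev j hev hj n (2 * m) k δ T hn (by omega) hk hδ P Q hQ hP s hs A hA g halg
    hsum
  have h2 := bound_two_mul n m k δ hm hk hδ hn
  calc c / 2 * bound n m k δ = c * (bound n m k δ / 2) := by ring
    _ ≤ c * bound n (2 * m) k δ := mul_le_mul_of_nonneg_left h2 hc.le
    _ ≤ _ := h1

/-- zero tests by sums of functions of Pfaffians -/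
theorem tests :
    ∃ c : ℝ, 0 < c ∧ ∀ (K : Type) [Field K] [CharZero K] (n m k δ T N : ℕ), 2 ≤ n → 1 ≤ m →
      1 ≤ k → 1 ≤ δ → Real.log (2 * T) < c * bound n m k δ →
      ∀ G : Fin N → MvPolynomial (Fin n × Fin n) K, (∀ i, G i ≠ 0 ∧ SumOf m k δ T (G i)) →
      ∀ (α : Type) (q : Matrix (Fin n) (Fin n) ℚ → α),
      (∀ X : Matrix (Fin n) (Fin n) ℚ, (∀ i, eval (fun p => (X p.1 p.2 : K)) (G i) ≠ 0) →
        ∃ ε : ℚ, 0 < ε ∧
          ∀ Y : Matrix (Fin n) (Fin n) ℚ, (∀ a b, |Y a b - X a b| < ε) → q Y = q X) →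
      ∃ (X : Matrix (Fin n) (Fin n) ℤ) (Y : Matrix (Fin n) (Fin n) ℚ),
        X.permanent = 0 ∧ Y.permanent ≠ 0 ∧
        (∀ i, eval (fun p => (X p.1 p.2 : K)) (G i) ≠ 0 ∧
          eval (fun p => (Y p.1 p.2 : K)) (G i) ≠ 0) ∧
        q Y = q (X.map (Int.cast : ℤ → ℚ)) := by
  classical
  obtain ⟨c, hc, H⟩ := multPf
  refine ⟨c, hc, ?_⟩
  intro K _ _ n m k δ T N hn hm hk hδ hT G hG α q hq
  have hn1 : 1 ≤ n := by omega
  have hdvd : ∀ i, ¬ Pool.ZTS.IP.permK K n ∣ G i := by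
    rintro i ⟨Q, hQ⟩
    have hQ0 : Q ≠ 0 := by
      rintro rfl
      rw [mul_zero] at hQ
      exact (hG i).1 hQ
    have h2 := (hG i).2
    rw [hQ] at h2
    exact absurd (H K n m k δ T hn hm hk hδ Q hQ0 h2) (not_le.2 hT)
  have hprod : ¬ Pool.ZTS.IP.permK K n ∣ ∏ i, G i := by
    intro h
    obtain ⟨i, -, hi⟩ := (Prime.dvd_finsetProd_iff (Pool.ZTS.IP.perm_prime hn1) _).1 h
    exact hdvd i hi
  obtain ⟨X, hX, hGX⟩ := Pool.ZTS.IP.int_pt n hn1 _ hprod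
  rw [map_prod, Finset.prod_ne_zero_iff] at hGX
  have h3 : (fun p : Fin n × Fin n => (((X.map (Int.cast : ℤ → ℚ)) p.1 p.2 : ℚ) : K)) =
      fun p => (X p.1 p.2 : K) := by
    funext p
    rw [Matrix.map_apply]
    push_cast
    rfl
  obtain ⟨ε, hε, hloc⟩ := hq (X.map (Int.cast : ℤ → ℚ)) fun i => by
    rw [h3]
    exact hGX i (Finset.mem_univ i)
  have hF : Pool.ZTS.IP.permK K n * ∏ i, G i ≠ 0 :=
    mul_ne_zero (Pool.ZTS.IP.perm_prime hn1).ne_zero
      (Finset.prod_ne_zero_iff.2 fun i _ => (hG i).1)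
  obtain ⟨Y, hY, hYp⟩ := Pool.ZTS.IP.exists_near hF (X.map (Int.cast : ℤ → ℚ)) hε
  rw [map_mul, map_prod, Pool.ZTS.IP.eval_perm_rat] at hYp
  have hY1 : Y.permanent ≠ 0 := by
    intro h0
    rw [h0, Rat.cast_zero, zero_mul] at hYp
    exact hYp rfl
  have hY2 := Finset.prod_ne_zero_iff.1 (right_ne_zero_of_mul hYp)
  exact ⟨X, Y, hX, hY1, fun i => ⟨hGX i (Finset.mem_univ i), hY2 i (Finset.mem_univ i)⟩, hloc Y hY⟩

end Pool.FDP
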