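import Pool.Agent.FD.ProdRed
import Pool.Agent.Helper97.PF.Tower

/-!
Functions of Pfaffians (FD, second wave): rewriting of products of sub-Pfaffians of generic
alternating matrices.
-/

set_option autoImplicit false

open MvPolynomial Finset

namespace Pool.FDP

open Pool.PF

variable {K : Type*} [Field K] {N k m : ℕ} {τ : Type*}

/-- twice the squared length of a cell -/
def cwt {N : ℕ} (c : Cell N) : ℤ := 2 * (((c.1.2 : ℕ) : ℤ) - ((c.1.1 : ℕ) : ℤ)) ^ 2

lemma cwt_mkCell {N : ℕ} (i j : Fin N) (h : i ≠ j) :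
    cwt (mkCell i j h) = 2 * (((j : ℕ) : ℤ) - ((i : ℕ) : ℤ)) ^ 2 := by
  unfold cwt mkCell
  split_ifs with hij
  · rfl
  · ring

lemma cwt_nonneg {N : ℕ} (c : Cell N) : 0 ≤ cwt c := by
  unfold cwt
  positivity

/-- nested weight of a set of indices -/
def nwf {N : ℕ} (f : Fin (2 * m) → Fin N) : ℤ := nw fun s => ((f s : ℕ) : ℤ)

lemma nwf_nonneg {N : ℕ} (f : Fin (2 * m) → Fin N) : 0 ≤ nwf f := nw_nonneg _

/-- one step of the rewriting for a single sub-Pfaffian -/
theorem pf_step {γ : Cell N → τ} (f : Fin (2 * m) → Fin N) (hf : StrictMono f) (i : Fin N)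
    (s : Fin (2 * m)) (hi : ∀ s', f s' ≠ i) (h1 : ∀ s' < s, f s' < i) (h2 : i < f s)
    (S : Submodule K (MvPolynomial τ K))
    (hS : ∀ (c' : Cell N) (f' : Fin (2 * m) → Fin N), StrictMono f' →
      (cwt c' + nwf f' < cwt (mkCell i (f s.rev) (hi _).symm) + nwf f ∨
        (cwt c' + nwf f' = cwt (mkCell i (f s.rev) (hi _).symm) + nwf f ∧
          ∑ t, (f' t : ℕ) < ∑ t, (f t : ℕ))) →
      X (γ c') * gpf K γ m f' ∈ S) :
    X (γ (mkCell i (f s.rev) (hi _).symm)) * gpf K γ m f ∈ S := by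
  classical
  have hX : ∀ c : Cell N, (X (γ c) : MvPolynomial τ K) =
      monomial (0 + Finsupp.single (γ c) 1) 1 := fun c => by rw [zero_add]; rfl
  set c0 : Cell N := mkCell i (f s.rev) (hi _).symm with hc0
  set κ : Fin (2 * m + 1) → Fin N := Fin.insertNth s.castSucc i f with hκdef
  have hκ0 : κ s.castSucc = i := by rw [hκdef, Fin.insertNth_apply_same]
  have hκa : ∀ j, κ (s.castSucc.succAbove j) = f j := fun j => by
    rw [hκdef, Fin.insertNth_apply_succAbove]
  have h2' : ∀ s', s ≤ s' → i < f s' := fun s' hs' => h2.trans_le (hf.monotone hs')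
  have hκm : StrictMono κ := by
    intro a b hab
    rcases Fin.eq_self_or_eq_succAbove s.castSucc a with ha | ⟨a', ha⟩ <;>
    rcases Fin.eq_self_or_eq_succAbove s.castSucc b with hb | ⟨b', hb⟩
    · rw [ha, hb] at hab; exact absurd hab (lt_irrefl _)
    · rw [ha, hb, hκ0, hκa]
      apply h2'
      rw [ha, hb] at hab
      by_contra hcon
      rw [Fin.succAbove_castSucc_of_lt _ _ (not_le.1 hcon)] at hab
      exact absurd (Fin.castSucc_lt_castSucc_iff.1 hab) (not_lt.2 (not_le.1 hcon).le)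
    · rw [ha, hb, hκ0, hκa]
      apply h1
      rw [ha, hb] at hab
      by_contra hcon
      rw [Fin.succAbove_castSucc_of_le _ _ (not_lt.1 hcon)] at hab
      have h5 : a'.castSucc < s.castSucc := (Fin.castSucc_lt_succ).trans hab
      exact hcon (Fin.castSucc_lt_castSucc_iff.1 h5)
    · rw [ha, hb, hκa, hκa]
      apply hf
      rw [ha, hb] at hab
      exact (Fin.strictMono_succAbove _).lt_iff_lt.1 hab
  set q : Fin (2 * m + 1) := s.castSucc.succAbove s.rev with hq
  have hqs : s.castSucc ≠ q := (Fin.succAbove_ne _ _).symm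
  have hff : (fun j => κ (s.castSucc.succAbove j)) = f := by ext1 j; exact hκa j
  have hκq : κ q = f s.rev := hκa _
  have hcell : mkCell (κ q) (κ s.castSucc) (hκm.injective.ne hqs.symm) = c0 := by
    rw [hc0, mkCell_comm]
    congr 1
  have key := rel_mem (K := K) γ hκm.injective q s.castSucc hqs 0 S ?_
  · rw [hcell, hff, ← hX] at key
    exact key
  intro r hr hrq
  rw [← hX]
  have hfr : StrictMono fun j => κ (r.succAbove j) := hκm.comp (Fin.strictMono_succAbove r)
  refine hS _ _ hfr ?_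
  set κZ : Fin (2 * m + 1) → ℤ := fun j => ((κ j : ℕ) : ℤ) with hκZ
  have hκZm : StrictMono κZ := fun a b hab => by
    have := hκm hab
    simp only [hκZ]
    exact_mod_cast this
  have hWr : ∀ r (hrq : r ≠ q), cwt (mkCell (κ q) (κ r) (hκm.injective.ne hrq.symm)) +
      nwf (fun j => κ (r.succAbove j)) = hw κZ q r := by
    intro r hrq
    rw [cwt_mkCell, nwf, hw]
  have hWf : cwt c0 + nwf f = hw κZ q s.castSucc := by
    rw [← hWr s.castSucc hqs, hcell, hff]
  rw [hWr r hrq, hWf]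
  by_cases hrs : r = s.succ
  · right
    refine ⟨?_, ?_⟩
    · rw [hrs]
      exact (hw_eq (κ := κZ) s).symm
    · have e1 : ∑ j, (κ j : ℕ) = (κ r : ℕ) + ∑ j, (κ (r.succAbove j) : ℕ) :=
        Fin.sum_univ_succAbove (fun j => (κ j : ℕ)) r
      have e2 : ∑ j, (κ j : ℕ) = (κ s.castSucc : ℕ) + ∑ j, (κ (s.castSucc.succAbove j) : ℕ) :=
        Fin.sum_univ_succAbove (fun j => (κ j : ℕ)) s.castSucc
      have e3 : ∑ j, (κ (s.castSucc.succAbove j) : ℕ) = ∑ j, (f j : ℕ) :=
        Finset.sum_congr rfl fun j _ => by rw [hκa]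
      have e4 : (κ s.castSucc : ℕ) < κ r := by
        rw [hrs]; exact hκm (Fin.castSucc_lt_succ)
      omega
  · left
    exact hw_lt hκZm s hr hrs

/-- the variables: the cells of `k` alternating matrices of size `N` -/
abbrev PCell (k N : ℕ) := Fin k × Cell N

/-- the labels: sub-Pfaffians of order `2 m` -/
abbrev PLab (k N m : ℕ) := Fin k × (Fin (2 * m) ↪o Fin N)

/-- the sub-Pfaffian of a label -/
noncomputable def pcof (K : Type*) [Field K] {k N m : ℕ} (x : PLab k N m) :
    MvPolynomial (PCell k N) K :=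
  gpf K (fun c => (x.1, c)) m x.2

/-- the forbidden cells of a label -/
noncomputable def pfb {k N m : ℕ} (x : PLab k N m) : Finset (PCell k N) :=
  (forb x.2).map ⟨fun c => (x.1, c), Prod.mk_right_injective x.1⟩

/-- the weights -/
def pwt {k N : ℕ} (y : PCell k N) : ℕ := (cwt y.2).toNat

/-- the weights of the labels -/
def pdg {k N m : ℕ} (x : PLab k N m) : ℕ := (nwf x.2).toNat

/-- the sums of the labels -/
def pidx {k N m : ℕ} (x : PLab k N m) : ℕ := ∑ t, (x.2 t : ℕ)

theorem pf_stepRel : StepRel (ι := Fin k) Prod.fst (pcof K (k := k) (N := N) (m := m)) pfb pwt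
    pdg pidx := by
  rintro ⟨j, f⟩ ⟨j', c⟩ hy
  rw [pfb, Finset.mem_map] at hy
  obtain ⟨c1, hc1, hc2⟩ := hy
  simp only [Function.Embedding.coeFn_mk, Prod.mk.injEq] at hc2
  obtain ⟨rfl, rfl⟩ := hc2
  rw [mem_forb] at hc1
  obtain ⟨i, s, hi, h1, h2, rfl⟩ := hc1
  refine pf_step (K := K) (γ := fun c => ((j, c) : PCell k N)) f f.strictMono i s hi h1 h2 _ ?_
  intro c' f' hf' hlt
  refine Submodule.subset_span ⟨(j, c'), (j, OrderEmbedding.ofStrictMono f' hf'), rfl, ?_, rfl⟩
  have e1 : pdg ((j, OrderEmbedding.ofStrictMono f' hf') : PLab k N m) = (nwf f').toNat := rfl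
  have e2 : pidx ((j, OrderEmbedding.ofStrictMono f' hf') : PLab k N m) = ∑ t, (f' t : ℕ) := rfl
  rw [e1, e2]
  simp only [pwt, pdg, pidx]
  have n1 := cwt_nonneg c'
  have n2 := nwf_nonneg f'
  have n3 := cwt_nonneg (mkCell i (f s.rev) (hi _).symm)
  have n4 := nwf_nonneg (m := m) f
  rcases hlt with h | ⟨h, h'⟩
  · left; omega
  · right; exact ⟨by omega, h'⟩

/-- the products of `D` sub-Pfaffians of order `2 m`, homogenised with the Pfaffians of the
matrices if `N = 2 (m + 1)` -/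
noncomputable def ppg (K : Type*) [Field K] {k N m : ℕ} (F : Fin k → MvPolynomial (PCell k N) K)
    (D : ℕ) (e : PLab k N m →₀ ℕ) : MvPolynomial (PCell k N) K :=
  apg F Prod.fst (pcof K) D e

/-- **rewriting of products of sub-Pfaffians** -/
theorem ppg_reduces (F : Fin k → MvPolynomial (PCell k N) K) (D : ℕ) (TT : Set (Fin k →₀ ℕ)) :
    Pool.SDD.Reduces
      (fun e : {e : PLab k N m →₀ ℕ // e.degree = D ∧ atyp Prod.fst e ∈ TT} => ppg K F D e.1)
      (fun e => e.1.support.biUnion pfb) := by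
  classical
  exact apg_reduces pf_stepRel D TT

end Pool.FDP
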