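import Pool.Agent.FD.FinalAlg

/-!
Functions of determinants (FD): the statement in short form.
-/

open MvPolynomial

namespace Pool.FD

/-- the permanent of the generic `n × n` matrix -/
noncomputable def perm (K : Type) [Field K] (n : ℕ) : MvPolynomial (Fin n × Fin n) K :=
  (Matrix.of fun i j => (X (i, j) : MvPolynomial (Fin n × Fin n) K)).permanent

/-- the rational function `g` is algebraic over the ring generated over `E` by `k` determinants of
matrices of order at most `m` with entries of degree at most one -/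
def DetFunction {E V : Type} [Field E] (k m : ℕ) (g : FractionRing (MvPolynomial V E)) : Prop :=
  ∃ (s : Fin k → ℕ) (A : ∀ i, Matrix (Fin (s i)) (Fin (s i)) (MvPolynomial V E)),
    (∀ i, s i ≤ m) ∧ (∀ i a b, (A i a b).totalDegree ≤ 1) ∧
    IsAlgebraic (Algebra.adjoin E (Set.range fun i =>
      algebraMap (MvPolynomial V E) (FractionRing (MvPolynomial V E)) (A i).det)) g

/-- `min (n / (m ^ (1/3) l)) ((n ^ 4 / (k m ^ 2 l ^ 4)) ^ (1/3)) (n ^ 2 / (k l ^ 2))`, `l = log n` -/
noncomputable def bound (n m k : ℕ) : ℝ :=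
  min ((n : ℝ) / ((m : ℝ) ^ (1 / 3 : ℝ) * Real.log n))
    (min (((n : ℝ) ^ 4 / (k * (m : ℝ) ^ 2 * Real.log n ^ 4)) ^ (1 / 3 : ℝ))
      ((n : ℝ) ^ 2 / (k * Real.log n ^ 2)))

theorem final' : ∃ c : ℝ, 0 < c ∧
    ∀ (K R E : Type) [Field K] [CharZero K] [CommRing R] [Field E]
      (ev : R →+* K) (j : R →+* E), Function.Surjective ev → Function.Injective j →
    ∀ (n m k T : ℕ), 2 ≤ n → 1 ≤ m → 1 ≤ k →
    ∀ P : MvPolynomial (Fin n × Fin n) R, MvPolynomial.map ev P = perm K n →
    ∀ g : Fin T → FractionRing (MvPolynomial (Fin n × Fin n) E), (∀ t, DetFunction k m (g t)) →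
      algebraMap (MvPolynomial (Fin n × Fin n) E)
        (FractionRing (MvPolynomial (Fin n × Fin n) E)) (MvPolynomial.map j P) = ∑ t, g t →
    c * bound n m k ≤ Real.log (2 * T) := by
  obtain ⟨c, hc, h⟩ := final
  refine ⟨c, hc, ?_⟩
  intro K R E _ _ _ _ ev j hev hj n m k T hn hm hk P hP g hg hsum
  choose s A hs hA halg using hg
  exact h K R E ev j hev hj n m k T hn hm hk P hP s hs A hA g halg hsum

end Pool.FD
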