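import Pool.Agent.PF.Matrix

/-!
Zero tests by sums of functions of Pfaffians (MP_381749_lc.FunctionTests): the definitions used in
the statement.
-/

open MvPolynomial

namespace Pool.FT

/-- the rational function `g` is algebraic over the ring generated over `E` by the Pfaffians of `k`
matrices of order at most `2 m` whose entries are polynomials of degree at most `d` -/
def PfFunction {E V : Type} [Field E] (m k d : ℕ) (g : FractionRing (MvPolynomial V E)) : Prop :=
  ∃ (s : Fin k → ℕ) (A : ∀ i, Matrix (Fin (2 * s i)) (Fin (2 * s i)) (MvPolynomial V E)),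
    (∀ i, s i ≤ m) ∧ (∀ i a b, (A i a b).totalDegree ≤ d) ∧
    IsAlgebraic (Algebra.adjoin E (Set.range fun i =>
      algebraMap (MvPolynomial V E) (FractionRing (MvPolynomial V E)) (Pool.PF.pf (s i) (A i)))) g

/-- the polynomial `F` is a sum of `T` such rational functions -/
def IsSum {E V : Type} [Field E] (m k d T : ℕ) (F : MvPolynomial V E) : Prop :=
  ∃ g : Fin T → FractionRing (MvPolynomial V E), (∀ t, PfFunction m k d (g t)) ∧
    algebraMap (MvPolynomial V E) (FractionRing (MvPolynomial V E)) F = ∑ t, g t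

/-- the polynomial `G` over `K` is such a sum (`R = E = K`) or a specialisation of such sums: for a
ring `R` contained (by `j`) in a field `E` and a surjective homomorphism `ev : R → K`, some `P`
over `R` is over `E` such a sum and specialises to `G` -/
def SumOf {K V : Type} [Field K] (m k d T : ℕ) (G : MvPolynomial V K) : Prop :=
  ∃ (R E : Type) (_ : CommRing R) (_ : Field E) (ev : R →+* K) (j : R →+* E)
    (P : MvPolynomial V R), Function.Surjective ev ∧ Function.Injective j ∧
    MvPolynomial.map ev P = G ∧ IsSum m k d T (MvPolynomial.map j P)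

/-- the minimum of `n / (d l)`, `n / ((m d) ^ (1/3) l)`, `(n ^ 4 / (k (m d) ^ 2 l ^ 4)) ^ (1/3)` and
`n ^ 2 / (k l ^ 2)`, where `l = log n` -/
noncomputable def bound (n m k d : ℕ) : ℝ :=
  min ((n : ℝ) / (d * Real.log n))
    (min ((n : ℝ) / (((m : ℝ) * d) ^ (1 / 3 : ℝ) * Real.log n))
      (min (((n : ℝ) ^ 4 / (k * ((m : ℝ) * d) ^ 2 * Real.log n ^ 4)) ^ (1 / 3 : ℝ))
        ((n : ℝ) ^ 2 / (k * Real.log n ^ 2))))

end Pool.FT
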