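import Pool.Agent.FD.Main
import Pool.Agent.Helper91.HN.Num4

/-!
# Functions of determinants: the lower bound (Taylor version)
-/

set_option autoImplicit false

open MvPolynomial Finset

namespace Pool.FD

theorem taylor_final : ∃ C : ℝ, 1 ≤ C ∧ ∀ (K : Type) [Field K] [CharZero K] (n m r T D : ℕ),
    1 ≤ n → 1 ≤ m → 1 ≤ r → 1 ≤ D →
    ∀ (P : Fin T → MvPolynomial (Fin r) K) (s : Fin T → Fin r → ℕ)
      (A : ∀ j i, Matrix (Fin (s j i)) (Fin (s j i)) (MvPolynomial (Fin n × Fin n) K)),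
    (∀ j i, s j i ≤ m) → (∀ j i p q, (A j i p q).totalDegree ≤ 1) →
    (Matrix.of fun i j => (X (i, j) : MvPolynomial (Fin n × Fin n) K)).permanent =
      ∑ j, aeval (fun i => (A j i).det) (P j) →
    ((n : ℝ) ^ 4 / (C * D * (r + D) * (1 + Real.log n) ^ 2 *
      (n + D * (1 + Real.log n) * m) ^ 2)) ^ D ≤ T := by
  obtain ⟨C, hC, H⟩ := Pool.FDN.FN
  refine ⟨4 * C, by linarith, ?_⟩
  intro K _ _ n m r T D hn hm hr hD P s A hs hA h
  have hT : 1 ≤ T := by
    rcases Nat.eq_zero_or_pos T with ht | ht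
    · subst ht
      exact absurd (by simpa using h) (Pool.SDL.permanent_generic_ne_zero (K := K) n)
    · exact ht
  choose A' hA' hdet using fun j i =>
    Pool.Agent.SDet.exists_pad ((hs j i).trans (Nat.le_succ m)) (A j i) (hA j i)
  have h' : (Matrix.of fun i j => (X (i, j) : MvPolynomial (Fin n × Fin n) K)).permanent =
      ∑ j, aeval (fun i => (A' j i).det) (P j) := by
    rw [h]
    refine Finset.sum_congr rfl fun j _ => ?_
    simp only [hdet]
  have key := H n (m + 1) r T D hn (by omega) hr hD hT (fun N a haN hnD q hq0 hq1 =>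
    main_real P A' hA' h' (by omega) hD haN hnD q hq0 hq1)
  refine le_trans ?_ key
  have hnR : (1 : ℝ) ≤ n := by exact_mod_cast hn
  have hmR : (1 : ℝ) ≤ m := by exact_mod_cast hm
  have hDR : (1 : ℝ) ≤ D := by exact_mod_cast hD
  have hrR : (1 : ℝ) ≤ r := by exact_mod_cast hr
  have hL : 0 ≤ Real.log n := Real.log_nonneg hnR
  have hL1 : 0 < 1 + Real.log n := by linarith
  apply pow_le_pow_left₀ (by positivity)
  apply div_le_div_of_nonneg_left (by positivity) (by positivity)
  have h1 : ((n : ℝ) + D * (1 + Real.log n) * ((m + 1 : ℕ) : ℝ)) ^ 2 ≤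
      4 * ((n : ℝ) + D * (1 + Real.log n) * m) ^ 2 := by
    have h2 : (n : ℝ) + D * (1 + Real.log n) * ((m + 1 : ℕ) : ℝ) ≤
        2 * ((n : ℝ) + D * (1 + Real.log n) * m) := by
      push_cast
      have h3 : 0 ≤ D * (1 + Real.log n) * ((m : ℝ) - 1) := by
        have : 0 ≤ (m : ℝ) - 1 := by linarith
        positivity
      nlinarith
    calc _ ≤ (2 * ((n : ℝ) + D * (1 + Real.log n) * m)) ^ 2 :=
          pow_le_pow_left₀ (by positivity) h2 2
      _ = _ := by ring
  calc C * D * (r + D) * (1 + Real.log n) ^ 2 *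
        ((n : ℝ) + D * (1 + Real.log n) * ((m + 1 : ℕ) : ℝ)) ^ 2
      ≤ C * D * (r + D) * (1 + Real.log n) ^ 2 * (4 * ((n : ℝ) + D * (1 + Real.log n) * m) ^ 2) :=
        mul_le_mul_of_nonneg_left h1 (by positivity)
    _ = _ := by ring

end Pool.FD
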