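import Pool.Agent.FD.TestsEnd
import Pool.Agent.Helper97.HY.Box

/-!
Zero tests by sums of functions of Pfaffians: no test vanishes in a large box around an integer
matrix with permanent zero.
-/

set_option autoImplicit false

open MvPolynomial

namespace Pool.FT

theorem box : ∃ c : ℝ, 0 < c ∧ ∀ n m k d T N : ℕ, 2 ≤ n → 1 ≤ m → 1 ≤ k → 1 ≤ d →
      Real.log (2 * T) < c * bound n m k d →
    ∀ G : Fin N → MvPolynomial (Fin n × Fin n) ℂ, (∀ i, G i ≠ 0 ∧ SumOf m k d T (G i)) →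
    ∀ R : ℕ, ∃ X : Matrix (Fin n) (Fin n) ℤ, X.permanent = 0 ∧
      (∀ a b, (R : ℤ) ≤ |(X + Matrix.single a b 1).permanent| ∧
        (X - Matrix.single a b 1).permanent = -(X + Matrix.single a b 1).permanent) ∧
      ∀ Y : Matrix (Fin n) (Fin n) ℂ, (∀ a b, ‖Y a b - X a b‖ ≤ R) →
        ∀ i, eval (fun p => Y p.1 p.2) (G i) ≠ 0 := by
  obtain ⟨c, hc, H⟩ := Pool.FDP.multPf
  refine ⟨c, hc, ?_⟩
  intro n m k d T N hn hm hk hd hT G hG R
  refine Pool.HY.box_int n N hn G (fun i => ?_) R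
  rintro ⟨Q, hQ⟩
  have htop := Pool.ZTS.IP.top_ne_zero (hG i).1
  have hQ' : homogeneousComponent (G i).totalDegree (G i) = Pool.ZTS.IP.permK ℂ n * Q := hQ
  have hQ0 : Q ≠ 0 := by
    rintro rfl
    rw [mul_zero] at hQ'
    exact htop hQ'
  have hlim := (hG i).2.top
  rw [hQ'] at hlim
  exact absurd (H ℂ n m k d T hn hm hk hd Q hQ0 hlim.toFDP) (not_le.2 hT)

end Pool.FT
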