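import Pool.Agent.FD.StmtT
import Pool.Agent.ZTS.Seg2

/-!
Sums of functions of Pfaffians: top forms are specialisations.
-/

set_option autoImplicit false

open MvPolynomial

namespace Pool.FT

section func

variable {E E' V : Type} [Field E] [Field E'] {m k d T : ℕ}

/-- functions of Pfaffians under a homomorphism of polynomial rings -/
theorem PfFunction.map (e : E →+* E') (θ : MvPolynomial V E →+* MvPolynomial V E')
    (hC : ∀ a, θ (C a) = C (e a)) (hd : ∀ p, (θ p).totalDegree ≤ p.totalDegree)
    (Θ : FractionRing (MvPolynomial V E) →+* FractionRing (MvPolynomial V E'))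
    (hΘ : ∀ p, Θ (algebraMap _ _ p) = algebraMap _ _ (θ p))
    {g : FractionRing (MvPolynomial V E)} (hg : PfFunction m k d g) :
    PfFunction m k d (Θ g) := by
  obtain ⟨s, A, hs, hA, halg⟩ := hg
  refine ⟨s, fun i => (A i).map θ, hs, fun i a b => ?_, ?_⟩
  · exact (hd _).trans (hA i a b)
  · have hpf : ∀ i, algebraMap (MvPolynomial V E') (FractionRing (MvPolynomial V E'))
        (Pool.PF.pf (s i) ((A i).map θ)) =
        Θ (algebraMap (MvPolynomial V E) (FractionRing (MvPolynomial V E))
          (Pool.PF.pf (s i) (A i))) := by
      intro i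
      rw [hΘ, ← Pool.PF.map_pf θ (s i) (A i)]
    have hmem : ∀ x ∈ Algebra.adjoin E (Set.range fun i =>
        algebraMap (MvPolynomial V E) (FractionRing (MvPolynomial V E))
          (Pool.PF.pf (s i) (A i))), Θ x ∈ Algebra.adjoin E' (Set.range fun i =>
        algebraMap (MvPolynomial V E') (FractionRing (MvPolynomial V E'))
          (Pool.PF.pf (s i) ((A i).map θ))) := by
      intro x hx
      induction hx using Algebra.adjoin_induction with
      | mem x hx =>
        obtain ⟨i, rfl⟩ := hx
        exact Algebra.subset_adjoin ⟨i, hpf i⟩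
      | algebraMap r =>
        have h1 : algebraMap E (FractionRing (MvPolynomial V E)) r =
            algebraMap (MvPolynomial V E) (FractionRing (MvPolynomial V E)) (C r) := by
          rw [IsScalarTower.algebraMap_apply E (MvPolynomial V E)
            (FractionRing (MvPolynomial V E)), algebraMap_eq]
        have h2 : algebraMap E' (FractionRing (MvPolynomial V E')) (e r) =
            algebraMap (MvPolynomial V E') (FractionRing (MvPolynomial V E')) (C (e r)) := by
          rw [IsScalarTower.algebraMap_apply E' (MvPolynomial V E')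
            (FractionRing (MvPolynomial V E')), algebraMap_eq]
        rw [h1, hΘ, hC, ← h2]
        exact Subalgebra.algebraMap_mem _ _
      | add x y _ _ hx hy => rw [map_add]; exact Subalgebra.add_mem _ hx hy
      | mul x y _ _ hx hy => rw [map_mul]; exact Subalgebra.mul_mem _ hx hy
    refine IsAlgebraic.ringHom_of_comp_eq (RingHom.restrict Θ (Algebra.adjoin E _)
      (Algebra.adjoin E' _) hmem) Θ halg ?_ ?_
    · intro x y hxy
      apply Subtype.ext
      have h1 := congrArg Subtype.val hxy
      exact Θ.injective h1
    · rfl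

theorem PfFunction.const_mul (c : E) {g : FractionRing (MvPolynomial V E)}
    (hg : PfFunction m k d g) :
    PfFunction m k d (algebraMap (MvPolynomial V E) (FractionRing (MvPolynomial V E)) (C c) *
      g) := by
  obtain ⟨s, A, hs, hA, halg⟩ := hg
  refine ⟨s, A, hs, hA, IsAlgebraic.mul ?_ halg⟩
  have h1 : algebraMap (MvPolynomial V E) (FractionRing (MvPolynomial V E)) (C c) =
      algebraMap E (FractionRing (MvPolynomial V E)) c := by
    rw [IsScalarTower.algebraMap_apply E (MvPolynomial V E)
      (FractionRing (MvPolynomial V E)), algebraMap_eq]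
  rw [h1, IsScalarTower.algebraMap_apply E (Algebra.adjoin E (Set.range fun i =>
        algebraMap (MvPolynomial V E) (FractionRing (MvPolynomial V E))
          (Pool.PF.pf (s i) (A i)))) (FractionRing (MvPolynomial V E))]
  exact isAlgebraic_algebraMap _

theorem IsSum.map (e : E →+* E') (θ : MvPolynomial V E →+* MvPolynomial V E')
    (hC : ∀ a, θ (C a) = C (e a)) (hd : ∀ p, (θ p).totalDegree ≤ p.totalDegree)
    (hθ : Function.Injective θ) (c : E') {F : MvPolynomial V E} (hF : IsSum m k d T F) :
    IsSum m k d T (C c * θ F) := by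
  obtain ⟨g, hg, hs⟩ := hF
  have hΘ : ∀ p, IsFractionRing.map (K := FractionRing (MvPolynomial V E))
      (L := FractionRing (MvPolynomial V E')) hθ (algebraMap _ _ p) = algebraMap _ _ (θ p) := by
    intro p
    exact IsLocalization.map_eq _ p
  refine ⟨fun t => algebraMap _ _ (C c) * IsFractionRing.map hθ (g t),
    fun t => ((hg t).map e θ hC hd _ hΘ).const_mul c, ?_⟩
  rw [map_mul, ← Finset.mul_sum, ← map_sum, ← hs, hΘ]

end func

section top

/-- the substitution `X ↦ T⁻¹ X` -/
noncomputable def scl (R V : Type) [CommRing R] :
    MvPolynomial V R →+* MvPolynomial V (LaurentPolynomial R) :=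
  eval₂Hom (C.comp (LaurentPolynomial.C : R →+* LaurentPolynomial R))
    fun v => C (LaurentPolynomial.T (-1)) * X v

theorem coeff_scl {R V : Type} [CommRing R] (F : MvPolynomial V R) (u : V →₀ ℕ) :
    coeff u (scl R V F) = LaurentPolynomial.C (coeff u F) * LaurentPolynomial.T (-u.degree) := by
  classical
  induction F using MvPolynomial.induction_on' with
  | monomial μ c =>
    have h1 : scl R V (monomial μ c) =
        monomial μ (LaurentPolynomial.C c * LaurentPolynomial.T (-μ.degree)) := by
      unfold scl
      rw [coe_eval₂Hom, eval₂_monomial, RingHom.comp_apply, Finsupp.prod]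
      have h2 : ∀ v ∈ μ.support,
          (C (LaurentPolynomial.T (-1)) * X v : MvPolynomial V (LaurentPolynomial R)) ^ μ v =
          C (LaurentPolynomial.T (-1) ^ μ v) * X v ^ μ v := by
        intro v _
        rw [mul_pow, C_pow]
      rw [Finset.prod_congr rfl h2, Finset.prod_mul_distrib, ← map_prod,
        Finset.prod_pow_eq_pow_sum, monomial_eq, Finsupp.prod, ← mul_assoc, ← C_mul]
      congr 3
      rw [LaurentPolynomial.T_pow]
      congr 1
      rw [mul_neg, mul_one]
      rfl
    rw [h1, coeff_monomial, coeff_monomial]
    by_cases h : μ = u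
    · rw [if_pos h, if_pos h, h]
    · rw [if_neg h, if_neg h, map_zero, zero_mul]
  | add p q hp hq => rw [map_add, coeff_add, hp, hq, coeff_add, map_add, add_mul]

end top


section main

variable {K R E V : Type} [Field K] [CommRing R] [Field E]

/-- the homomorphism of Laurent polynomials -/
noncomputable def lmap {A B : Type} [CommRing A] [CommRing B] (f : A →+* B) :
    LaurentPolynomial A →+* LaurentPolynomial B :=
  AddMonoidAlgebra.mapRingHom ℤ f

theorem lmap_mul_T {A B : Type} [CommRing A] [CommRing B] (f : A →+* B) (a : A) (n : ℤ) :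
    lmap f (LaurentPolynomial.C a * LaurentPolynomial.T n) =
      LaurentPolynomial.C (f a) * LaurentPolynomial.T n := by
  rw [← LaurentPolynomial.single_eq_C_mul_T, ← LaurentPolynomial.single_eq_C_mul_T]
  ext i
  rw [lmap, AddMonoidAlgebra.coeff_mapRingHom]
  simp only [AddMonoidAlgebra.coeff_single, Finsupp.single_apply]
  split_ifs
  · rfl
  · exact map_zero f

theorem lmap_injective {A B : Type} [CommRing A] [CommRing B] {f : A →+* B}
    (hf : Function.Injective f) : Function.Injective (lmap f) := by
  intro x y hxy
  ext i
  have h1 := congrArg (fun z : LaurentPolynomial B => z.coeff i) hxy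
  simp only [lmap, AddMonoidAlgebra.coeff_mapRingHom] at h1
  exact hf h1

/-- Laurent polynomials over `R` whose specialisation is a polynomial -/
noncomputable def SS (ev : R →+* K) : Subring (LaurentPolynomial R) :=
  (Polynomial.toLaurent (R := K)).range.comap (lmap ev)

/-- a polynomial and its Laurent polynomial -/
noncomputable def lequiv (K : Type) [Field K] :
    Polynomial K ≃+* (Polynomial.toLaurent (R := K)).range :=
  RingEquiv.ofBijective (Polynomial.toLaurent (R := K)).rangeRestrict
    ⟨fun _ _ h => Polynomial.toLaurent_injective (congrArg Subtype.val h),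
      RingHom.rangeRestrict_surjective _⟩

/-- the specialisation, followed by evaluation at `0` -/
noncomputable def evS (ev : R →+* K) : SS ev →+* K :=
  (Polynomial.evalRingHom 0).comp (((lequiv K).symm : _ →+* Polynomial K).comp
    (RingHom.restrict (lmap ev) (SS ev) (Polynomial.toLaurent (R := K)).range fun _ hx => hx))

theorem evS_eq (ev : R →+* K) (x : SS ev) (f : Polynomial K)
    (h : lmap ev x = Polynomial.toLaurent f) : evS ev x = f.eval 0 := by
  have h1 : (RingHom.restrict (lmap ev) (SS ev) (Polynomial.toLaurent (R := K)).range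
      fun _ hx => hx) x = lequiv K f := Subtype.ext h
  simp only [evS, RingHom.comp_apply]
  rw [h1]
  change Polynomial.eval 0 ((lequiv K).symm (lequiv K f)) = _
  rw [RingEquiv.symm_apply_apply]

theorem evS_surjective (ev : R →+* K) (hev : Function.Surjective ev) :
    Function.Surjective (evS ev) := by
  intro a
  obtain ⟨r, rfl⟩ := hev a
  have h1 : lmap ev (LaurentPolynomial.C r) = Polynomial.toLaurent (Polynomial.C (ev r)) := by
    have := lmap_mul_T ev r 0
    rw [LaurentPolynomial.T_zero, LaurentPolynomial.T_zero, mul_one, mul_one] at this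
    rw [this, Polynomial.toLaurent_C]
  have h2 : (LaurentPolynomial.C r : LaurentPolynomial R) ∈ SS ev := ⟨Polynomial.C (ev r), h1.symm⟩
  refine ⟨⟨_, h2⟩, ?_⟩
  rw [evS_eq ev ⟨_, h2⟩ _ h1, Polynomial.eval_C]

/-- the image of the coefficients of the rescaled polynomial -/
theorem lmap_coeff (ev : R →+* K) (P : MvPolynomial V R) {D : ℕ}
    (hD : (MvPolynomial.map ev P).totalDegree ≤ D) (u : V →₀ ℕ) :
    lmap ev (coeff u (C (LaurentPolynomial.T (D : ℤ)) * scl R V P)) =
      Polynomial.toLaurent (Polynomial.C (coeff u (MvPolynomial.map ev P)) *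
        Polynomial.X ^ (D - u.degree)) := by
  rw [coeff_C_mul, coeff_scl, mul_left_comm, ← LaurentPolynomial.T_add, lmap_mul_T, coeff_map,
    Polynomial.toLaurent_C_mul_X_pow]
  by_cases h : ev (coeff u P) = 0
  · rw [h, map_zero, zero_mul, zero_mul]
  · have h1 : u.degree ≤ D := by
      refine le_trans ?_ hD
      refine le_totalDegree (s := u) ?_
      rw [mem_support_iff, coeff_map]
      exact h
    congr 2
    rw [Nat.cast_sub h1]
    ring

theorem SumOf.top {m k d T : ℕ} {G : MvPolynomial V K} (h : SumOf m k d T G) :
    SumOf m k d T (homogeneousComponent G.totalDegree G) := by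
  classical
  obtain ⟨R, E, iR, iE, ev, j, P, hev, hj, hP, hsum⟩ := h
  obtain ⟨D, hD⟩ : ∃ D, D = G.totalDegree := ⟨_, rfl⟩
  rw [← hD]
  have hD' : (MvPolynomial.map ev P).totalDegree ≤ D := by rw [hP, hD]
  -- the polynomial over the ring of Laurent polynomials
  obtain ⟨P', hP'⟩ : ∃ P' : MvPolynomial V (LaurentPolynomial R),
    P' = C (LaurentPolynomial.T (D : ℤ)) * scl R V P := ⟨_, rfl⟩
  have hmem : ∀ u, coeff u P' ∈ SS ev := by
    intro u
    rw [hP']
    exact ⟨_, (lmap_coeff ev P hD' u).symm⟩
  obtain ⟨PS, hPS⟩ : ∃ PS : MvPolynomial V (SS ev), MvPolynomial.map (SS ev).subtype PS = P' := by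
    have h1 : P' ∈ Set.range (MvPolynomial.map (SS ev).subtype) := by
      rw [mem_range_map_iff_coeffs_subset]
      intro x hx
      rw [Finset.mem_coe, mem_coeffs_iff] at hx
      obtain ⟨u, -, rfl⟩ := hx
      exact ⟨⟨_, hmem u⟩, rfl⟩
    exact h1
  have hcoef : ∀ u, ((coeff u PS : SS ev) : LaurentPolynomial R) = coeff u P' := by
    intro u
    rw [← hPS, coeff_map]
    rfl
  refine ⟨SS ev, FractionRing (LaurentPolynomial E), inferInstance, inferInstance, evS ev,
    (algebraMap (LaurentPolynomial E) (FractionRing (LaurentPolynomial E))).comp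
      ((lmap j).comp (SS ev).subtype), PS, evS_surjective ev hev, ?_, ?_, ?_⟩
  · refine (IsFractionRing.injective (LaurentPolynomial E)
      (FractionRing (LaurentPolynomial E))).comp ((lmap_injective hj).comp ?_)
    exact Subtype.val_injective
  · ext u
    rw [coeff_map, coeff_homogeneousComponent]
    have h1 := lmap_coeff ev P hD' u
    rw [← hP', ← hcoef u, hP] at h1
    rw [evS_eq ev _ _ h1, Polynomial.eval_mul, Polynomial.eval_C, Polynomial.eval_pow,
      Polynomial.eval_X]
    by_cases hu : coeff u G = 0
    · rw [hu, zero_mul, ite_self]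
    · have h2 : u.degree ≤ D := by
        rw [hD]
        exact le_totalDegree (mem_support_iff.mpr hu)
      by_cases h3 : u.degree = D
      · rw [if_pos h3, h3, Nat.sub_self, pow_zero, mul_one]
      · rw [if_neg h3, zero_pow (by omega), mul_zero]
  · -- the sum over the fraction field
    obtain ⟨τ, hτ⟩ : ∃ τ : ℤ → FractionRing (LaurentPolynomial E), τ = fun n =>
      algebraMap (LaurentPolynomial E) (FractionRing (LaurentPolynomial E))
        (LaurentPolynomial.T n) := ⟨_, rfl⟩
    let θ : MvPolynomial V E →+* MvPolynomial V (FractionRing (LaurentPolynomial E)) :=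
      (MvPolynomial.map (algebraMap (LaurentPolynomial E)
        (FractionRing (LaurentPolynomial E)))).comp (scl E V)
    have hcθ : ∀ (F : MvPolynomial V E) u, coeff u (θ F) = algebraMap (LaurentPolynomial E)
        (FractionRing (LaurentPolynomial E)) (LaurentPolynomial.C (coeff u F) *
          LaurentPolynomial.T (-u.degree)) := by
      intro F u
      simp only [θ, RingHom.comp_apply]
      rw [coeff_map, coeff_scl]
    have hinj : Function.Injective (algebraMap (LaurentPolynomial E)
        (FractionRing (LaurentPolynomial E))) := IsFractionRing.injective _ _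
    have hCinj : Function.Injective (LaurentPolynomial.C : E →+* LaurentPolynomial E) := by
      intro a b hab
      have h1 := congrArg (fun z : LaurentPolynomial E => z.coeff 0) hab
      simpa using h1
    have hT : ∀ n : ℤ, (LaurentPolynomial.T n : LaurentPolynomial E) ≠ 0 := fun n =>
      (LaurentPolynomial.isUnit_T n).ne_zero
    have hθC : ∀ a, θ (C a) = C (algebraMap (LaurentPolynomial E)
        (FractionRing (LaurentPolynomial E)) (LaurentPolynomial.C a)) := by
      intro a
      simp only [θ, RingHom.comp_apply, scl, coe_eval₂Hom, eval₂_C, map_C]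
    have hθinj : Function.Injective θ := by
      rw [injective_iff_map_eq_zero]
      intro F hF
      ext u
      have h1 := congrArg (coeff u) hF
      rw [hcθ, coeff_zero, map_eq_zero_iff _ hinj, mul_eq_zero] at h1
      rcases h1 with h1 | h1
      · rw [coeff_zero]
        exact hCinj (by rw [h1, map_zero])
      · exact absurd h1 (hT _)
    have hθd : ∀ p, (θ p).totalDegree ≤ p.totalDegree := by
      intro p
      refine Finset.sup_le fun u hu => ?_
      rw [mem_support_iff, hcθ] at hu
      refine le_totalDegree (mem_support_iff.mpr ?_)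
      rintro h0
      apply hu
      rw [h0, map_zero, zero_mul, map_zero]
    have h1 : MvPolynomial.map ((algebraMap (LaurentPolynomial E)
        (FractionRing (LaurentPolynomial E))).comp ((lmap j).comp (SS ev).subtype)) PS =
        C (τ D) * θ (MvPolynomial.map j P) := by
      ext u
      rw [coeff_map, coeff_C_mul, hcθ, coeff_map, hτ]
      simp only [RingHom.comp_apply]
      change algebraMap (LaurentPolynomial E) (FractionRing (LaurentPolynomial E))
        (lmap j ((coeff u PS : SS ev) : LaurentPolynomial R)) = _
      rw [hcoef, hP', coeff_C_mul, coeff_scl, mul_left_comm, ← LaurentPolynomial.T_add,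
        lmap_mul_T, ← map_mul, mul_left_comm, ← LaurentPolynomial.T_add]
    rw [h1]
    exact hsum.map ((algebraMap (LaurentPolynomial E)
      (FractionRing (LaurentPolynomial E))).comp LaurentPolynomial.C) θ hθC hθd hθinj _

end main

end Pool.FT
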