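import Pool.Agent.FD.MultFinal
import Pool.Agent.FD.TopForm

/-!
Zero tests by sums of functions of Pfaffians: the statement in the definitions of `StmtT`.
-/

set_option autoImplicit false

open MvPolynomial

namespace Pool.FT

theorem SumOf.toFDP {K V : Type} [Field K] {m k d T : ℕ} {G : MvPolynomial V K}
    (h : SumOf m k d T G) : Pool.FDP.SumOf m k d T G := by
  obtain ⟨R, E, iR, iE, ev, j, P, hev, hj, hP, g, hg, hs⟩ := h
  exact ⟨R, E, iR, iE, ev, j, P, g, hev, hj, hP, hg, hs⟩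

theorem tests : ∃ c : ℝ, 0 < c ∧
    ∀ (K : Type) [NormedField K] [CharZero K] (n m k d T N : ℕ), 2 ≤ n → 1 ≤ m → 1 ≤ k →
      1 ≤ d → Real.log (2 * T) < c * bound n m k d →
    ∀ G : Fin N → MvPolynomial (Fin n × Fin n) K, (∀ i, G i ≠ 0 ∧ SumOf m k d T (G i)) →
    ∃ X Y : Matrix (Fin n) (Fin n) ℤ, X.permanent = 0 ∧ Y.permanent ≠ 0 ∧
      (∀ i, eval (fun p => (X p.1 p.2 : K)) (G i) ≠ 0 ∧
        eval (fun p => (Y p.1 p.2 : K)) (G i) ≠ 0) ∧
      (1 < ‖(2 : K)‖ → ∀ i, ∀ s : K, ‖s‖ ≤ 1 →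
        eval (fun p => (X p.1 p.2 : K) + s * ((Y p.1 p.2 : K) - (X p.1 p.2 : K))) (G i) ≠ 0) := by
  classical
  obtain ⟨c, hc, H⟩ := Pool.FDP.multPf
  refine ⟨c, hc, ?_⟩
  intro K _ _ n m k d T N hn hm hk hd hT G hG
  have hn1 : 1 ≤ n := by omega
  have hdvd : ∀ F : MvPolynomial (Fin n × Fin n) K, F ≠ 0 → SumOf m k d T F →
      ¬ Pool.ZTS.IP.permK K n ∣ F := by
    rintro F hF0 hF ⟨Q, hQ⟩
    have hQ0 : Q ≠ 0 := by
      rintro rfl
      rw [mul_zero] at hQ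
      exact hF0 hQ
    rw [hQ] at hF
    exact absurd (H K n m k d T hn hm hk hd Q hQ0 hF.toFDP) (not_le.2 hT)
  by_cases h2 : 1 < ‖(2 : K)‖
  · obtain ⟨X, Y, hX, hY, hXY⟩ := Pool.ZTS.IP.int_seg h2 hn1 G fun i =>
      hdvd _ (Pool.ZTS.IP.top_ne_zero (hG i).1) (hG i).2.top
    refine ⟨X, Y, hX, hY, fun i => ⟨?_, ?_⟩, fun _ => hXY⟩
    · have := hXY i 0 (by simp)
      simpa using this
    · have := hXY i 1 (by simp)
      simpa using this
  · have hprod : ¬ Pool.ZTS.IP.permK K n ∣ ∏ i, G i := by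
      intro h
      obtain ⟨i, -, hi⟩ := (Prime.dvd_finsetProd_iff (Pool.ZTS.IP.perm_prime hn1) _).1 h
      exact hdvd _ (hG i).1 (hG i).2 hi
    obtain ⟨X, hX, hGX⟩ := Pool.ZTS.IP.int_pt n hn1 _ hprod
    rw [map_prod, Finset.prod_ne_zero_iff] at hGX
    have hF : Pool.ZTS.IP.permK K n * ∏ i, G i ≠ 0 :=
      mul_ne_zero (Pool.ZTS.IP.perm_prime hn1).ne_zero
        (Finset.prod_ne_zero_iff.2 fun i _ => (hG i).1)
    obtain ⟨Y, hY⟩ := Pool.ZTS.IP.exists_int hF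
    rw [map_mul, map_prod] at hY
    have hY1 : Y.permanent ≠ 0 := by
      intro h0
      have h5 := Pool.ZTS.IP.eval_perm_int (K := K) fun p : Fin n × Fin n => Y p.1 p.2
      have h6 : (Matrix.of fun i j => (fun p : Fin n × Fin n => Y p.1 p.2) (i, j)) = Y := rfl
      rw [h6, h0, Int.cast_zero] at h5
      rw [h5, zero_mul] at hY
      exact hY rfl
    have hY2 := Finset.prod_ne_zero_iff.1 (right_ne_zero_of_mul hY)
    exact ⟨X, Y, hX, hY1, fun i => ⟨hGX i (Finset.mem_univ i), hY2 i (Finset.mem_univ i)⟩,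
      fun h => absurd h h2⟩

end Pool.FT
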